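import Pool.Agent.UBlocks.Irr

/-!
# Groups with exactly one normal subgroup other than the trivial ones
-/

set_option autoImplicit false

namespace Pool.Agent.UBlocks

/-- `X` has exactly one normal subgroup other than `1` and `X`. -/
def OneNormal (X : Type*) [Group X] : Prop :=
  ∃ N : Subgroup X, N ≠ ⊥ ∧ N ≠ ⊤ ∧ ∀ M : Subgroup X, M.Normal ↔ M = ⊥ ∨ M = N ∨ M = ⊤

theorem oneNormal_semidirect {V L : Type*} [CommGroup V] [Group L] [IsSimpleGroup L]
    (φ : L →* MulAut V)
    (hirr : ∀ W : Subgroup V, (∀ l, ∀ w ∈ W, φ l w ∈ W) → W = ⊥ ∨ W = ⊤)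
    (hact : ∃ l v, φ l v ≠ v) : OneNormal (V ⋊[φ] L) := by
  obtain ⟨l0, v0, hlv⟩ := hact
  have hv0 : v0 ≠ 1 := fun h => hlv (by rw [h, map_one])
  have hl0 : l0 ≠ 1 := fun h => hlv (by rw [h, map_one]; rfl)
  have hN : ∀ x : V ⋊[φ] L, x ∈ (SemidirectProduct.rightHom : V ⋊[φ] L →* L).ker ↔
      x.right = 1 := fun x => Iff.rfl
  refine ⟨(SemidirectProduct.rightHom : V ⋊[φ] L →* L).ker, ?_, ?_, fun M => ⟨fun hM => ?_, ?_⟩⟩
  · intro h
    have h1 : (SemidirectProduct.inl v0 : V ⋊[φ] L) ∈
        (SemidirectProduct.rightHom : V ⋊[φ] L →* L).ker := (hN _).2 rfl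
    rw [h, Subgroup.mem_bot] at h1
    exact hv0 (congrArg SemidirectProduct.left h1)
  · intro h
    have h1 : (SemidirectProduct.inr l0 : V ⋊[φ] L) ∈
        (SemidirectProduct.rightHom : V ⋊[φ] L →* L).ker := by rw [h]; exact Subgroup.mem_top _
    exact hl0 ((hN _).1 h1)
  · have hW := hirr (M.comap SemidirectProduct.inl) (fun l w hw => by
      rw [Subgroup.mem_comap] at hw ⊢
      rw [SemidirectProduct.inl_aut]
      have := hM.conj_mem _ hw (SemidirectProduct.inr l)
      simpa using this)
    rcases hW with hW | hW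
    · left
      rw [eq_bot_iff]
      intro m hm
      have h1 : ∀ v, φ m.right v = v := by
        intro v
        have h2 : m * SemidirectProduct.inl v * m⁻¹ * (SemidirectProduct.inl v)⁻¹ ∈ M := by
          have h3 : m * (SemidirectProduct.inl v * m⁻¹ * (SemidirectProduct.inl v)⁻¹) ∈ M :=
            M.mul_mem hm (hM.conj_mem _ (M.inv_mem hm) _)
          simpa [mul_assoc] using h3
        have h4 : m * SemidirectProduct.inl v * m⁻¹ * (SemidirectProduct.inl v)⁻¹ =
            SemidirectProduct.inl (φ m.right v * v⁻¹) := by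
          apply SemidirectProduct.ext
          · simp [mul_comm, mul_left_comm]
          · simp
        rw [h4] at h2
        have h5 : φ m.right v * v⁻¹ ∈ M.comap SemidirectProduct.inl := h2
        rw [hW, Subgroup.mem_bot] at h5
        exact mul_inv_eq_one.1 h5
      have h2 : m.right ∈ φ.ker := by
        rw [MonoidHom.mem_ker]
        ext v
        exact h1 v
      have h3 : φ.ker = ⊥ := by
        rcases (inferInstance : φ.ker.Normal).eq_bot_or_eq_top with h4 | h4
        · exact h4
        · exfalso
          apply hlv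
          have h5 : l0 ∈ φ.ker := by rw [h4]; exact Subgroup.mem_top _
          rw [MonoidHom.mem_ker] at h5
          rw [h5]; rfl
      rw [h3, Subgroup.mem_bot] at h2
      have h4 : m = SemidirectProduct.inl m.left := by
        apply SemidirectProduct.ext
        · simp
        · simpa using h2
      have h5 : m.left ∈ M.comap SemidirectProduct.inl := by
        rw [Subgroup.mem_comap, ← h4]; exact hm
      rw [hW, Subgroup.mem_bot] at h5
      rw [Subgroup.mem_bot, h4, h5, map_one]
    · right
      have hle : (SemidirectProduct.rightHom : V ⋊[φ] L →* L).ker ≤ M := by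
        intro x hx
        have h1 : x = SemidirectProduct.inl x.left := by
          apply SemidirectProduct.ext
          · simp
          · simpa using (hN x).1 hx
        rw [h1]
        have : x.left ∈ M.comap SemidirectProduct.inl := by rw [hW]; exact Subgroup.mem_top _
        exact this
      have hnorm : (M.map (SemidirectProduct.rightHom : V ⋊[φ] L →* L)).Normal :=
        hM.map _ SemidirectProduct.rightHom_surjective
      rcases hnorm.eq_bot_or_eq_top with h4 | h4
      · left
        refine le_antisymm ?_ hle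
        intro x hx
        have h5 : SemidirectProduct.rightHom x ∈
            M.map (SemidirectProduct.rightHom : V ⋊[φ] L →* L) := ⟨x, hx, rfl⟩
        rw [h4, Subgroup.mem_bot] at h5
        exact h5
      · right
        have h5 := Subgroup.comap_map_eq (SemidirectProduct.rightHom : V ⋊[φ] L →* L) M
        rw [h4, Subgroup.comap_top, sup_eq_left.2 hle] at h5
        exact h5.symm
  · rintro (rfl | rfl | rfl)
    · infer_instance
    · infer_instance
    · infer_instance

/-- The simultaneous permutation of the rows and the columns. -/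
def rowPerm (r n : ℕ) (s : Equiv.Perm (Fin n)) (A : symMat r n) : symMat r n :=
  ⟨A.1.submatrix s.symm s.symm, submatrix_mem A.2 s.symm⟩

theorem rowPerm_left (r n : ℕ) (s : Equiv.Perm (Fin n)) :
    Function.LeftInverse (rowPerm r n s.symm) (rowPerm r n s) := fun A => by
  ext i j; simp [rowPerm]

theorem rowPerm_right (r n : ℕ) (s : Equiv.Perm (Fin n)) :
    Function.RightInverse (rowPerm r n s.symm) (rowPerm r n s) := fun A => by
  ext i j; simp [rowPerm]

theorem rowPerm_add (r n : ℕ) (s : Equiv.Perm (Fin n)) (A B : symMat r n) :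
    rowPerm r n s (A + B) = rowPerm r n s A + rowPerm r n s B := rfl

/-- The automorphism of the group of matrices defined by a permutation. -/
def rowPermAut (r n : ℕ) (s : Equiv.Perm (Fin n)) : MulAut (Multiplicative (symMat r n)) :=
  AddEquiv.toMultiplicative
    { toFun := rowPerm r n s
      invFun := rowPerm r n s.symm
      left_inv := rowPerm_left r n s
      right_inv := rowPerm_right r n s
      map_add' := rowPerm_add r n s }

theorem rowPermAut_one (r n : ℕ) : rowPermAut r n 1 = 1 := rfl

theorem rowPermAut_mul (r n : ℕ) (s t : Equiv.Perm (Fin n)) :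
    rowPermAut r n (s * t) = rowPermAut r n s * rowPermAut r n t := rfl

/-- The action of the symmetric group `S_n` on the matrices by simultaneous permutation of the
rows and the columns. -/
def permMat (r n : ℕ) : Equiv.Perm (Fin n) →* MulAut (Multiplicative (symMat r n)) where
  toFun := rowPermAut r n
  map_one' := rowPermAut_one r n
  map_mul' := rowPermAut_mul r n

/-- The semidirect product of the group of the symmetric `n × n` matrices over `ℤ/r` with zero
diagonal and zero row sums and the alternating group `A_n`, which permutes the rows and the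
columns. -/
abbrev AffAlt (r n : ℕ) : Type :=
  Multiplicative (symMat r n) ⋊[(permMat r n).comp (alternatingGroup (Fin n)).subtype]
    alternatingGroup (Fin n)

/-- the matrix -/
def mval {r n : ℕ} (A : Multiplicative (symMat r n)) : Matrix (Fin n) (Fin n) (ZMod r) :=
  (Multiplicative.toAdd A).1

theorem mval_perm {r n : ℕ} (s : Equiv.Perm (Fin n)) (A : Multiplicative (symMat r n))
    (i j : Fin n) : mval (permMat r n s A) i j = mval A (s.symm i) (s.symm j) := rfl

theorem oneNormal_affAlt {r n : ℕ} [Fact r.Prime] (hr2 : r ≠ 2) (hn : 8 ≤ n)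
    (h1 : ¬ r ∣ (n - 1) * (n - 2)) : OneNormal (AffAlt r n) := by
  have : IsSimpleGroup (alternatingGroup (Fin n)) := alternatingGroup.isSimpleGroup (by
    rw [Nat.card_eq_fintype_card, Fintype.card_fin]; omega)
  apply oneNormal_semidirect
  · intro W hW
    let W0 : AddSubgroup (Matrix (Fin n) (Fin n) (ZMod r)) :=
      { carrier := {A | ∃ h : A ∈ symMat r n, Multiplicative.ofAdd (⟨A, h⟩ : symMat r n) ∈ W}
        zero_mem' := ⟨(symMat r n).zero_mem, W.one_mem⟩
        add_mem' := fun ⟨h1, h2⟩ ⟨h1', h2'⟩ => ⟨(symMat r n).add_mem h1 h1', W.mul_mem h2 h2'⟩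
        neg_mem' := fun ⟨h1, h2⟩ => ⟨(symMat r n).neg_mem h1, W.inv_mem h2⟩ }
    by_cases hbot : W = ⊥
    · exact Or.inl hbot
    right
    obtain ⟨A, hA, hA1⟩ : ∃ A ∈ W, A ≠ 1 := by
      by_contra hcon
      push Not at hcon
      exact hbot (eq_bot_iff.2 fun A hA => Subgroup.mem_bot.2 (hcon A hA))
    have hle : symMat r n ≤ W0 := by
      refine irr_alt hr2 hn h1 (W := W0) (fun B hB => hB.1) ?_
        (A := mval A)
        ⟨(Multiplicative.toAdd A).2, hA⟩ ?_
      · rintro s hs B ⟨h2, h3⟩
        refine ⟨submatrix_mem h2 s, ?_⟩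
        exact hW ⟨s⁻¹, (alternatingGroup (Fin n)).inv_mem hs⟩ _ h3
      · intro h0
        apply hA1
        apply Multiplicative.toAdd.injective
        exact Subtype.ext h0
    rw [eq_top_iff]
    intro B _
    obtain ⟨_, h3⟩ := hle (Multiplicative.toAdd B).2
    exact h3
  · let P : Fin 8 → Fin n := fun k => ⟨k, by omega⟩
    have hP : ∀ i j : Fin 8, i ≠ j → P i ≠ P j := fun i j hij h => hij (Fin.ext (Fin.mk.inj h))
    have hs := swap2_mem (hP 0 1 (by decide)) (hP 4 5 (by decide))
    refine ⟨⟨_, hs⟩, Multiplicative.ofAdd ⟨gg (P 0) (P 1) (P 2) (P 3), gg_mem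
      (hP 0 2 (by decide)) (hP 0 3 (by decide)) (hP 1 2 (by decide)) (hP 1 3 (by decide))⟩, ?_⟩
    intro h
    have h2 := congrFun (congrFun (congrArg mval h) (P 0)) (P 2)
    have h3 : (Equiv.swap (P 0) (P 1) * Equiv.swap (P 4) (P 5)).symm (P 0) = P 1 := by
      rw [Equiv.symm_apply_eq, Equiv.Perm.mul_apply, Equiv.swap_apply_of_ne_of_ne
        (hP 1 4 (by decide)) (hP 1 5 (by decide)), Equiv.swap_apply_right]
    have h4 : (Equiv.swap (P 0) (P 1) * Equiv.swap (P 4) (P 5)).symm (P 2) = P 2 := by
      rw [Equiv.symm_apply_eq, Equiv.Perm.mul_apply, Equiv.swap_apply_of_ne_of_ne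
        (hP 2 4 (by decide)) (hP 2 5 (by decide)), Equiv.swap_apply_of_ne_of_ne
        (hP 2 0 (by decide)) (hP 2 1 (by decide))]
    have h5 : (gg (P 0) (P 1) (P 2) (P 3) (P 1) (P 2) : ZMod r) =
        gg (P 0) (P 1) (P 2) (P 3) (P 0) (P 2) := by
      have h6 := h2
      simp only [MonoidHom.comp_apply, Subgroup.subtype_apply] at h6
      rw [mval_perm, h3, h4] at h6
      exact h6
    unfold gg dd at h5
    simp [hP 1 0 (by decide), hP 0 1 (by decide), hP 2 0 (by decide), hP 2 1 (by decide),
      hP 2 3 (by decide), hP 0 2 (by decide), hP 0 3 (by decide), hP 1 2 (by decide),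
      hP 1 3 (by decide)] at h5
    have h7 := two_ne (r := r) hr2
    apply h7
    linear_combination -h5

end Pool.Agent.UBlocks
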