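import Pool.Agent.UBlocks.Aff
import Pool.Agent.UBlocks.Color
import Pool.Agent.UBlocks.Stab

/-!
# Every finite group is the stabiliser of a linear character of the module of matrices
-/

set_option autoImplicit false

namespace Pool.Agent.UBlocks

open Finset

/-- A potential which vanishes on most of the pairs in each row is zero. -/
theorem sparse_zero {n : ℕ} {F : Type*} [Field F] [DecidableEq F] (h2 : (2 : F) ≠ 0)
    {C : Fin n → Fin n → F} (hd : ∀ i, C i i = 0)
    (hC : ∀ i, 4 * (univ.filter (fun j => C i j ≠ 0)).card + 2 < n) (s : Equiv.Perm (Fin n))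
    {u : Fin n → F} (hu : ∀ i j, i ≠ j → C (s i) (s j) - C i j = u i + u j) :
    ∀ i j, C (s i) (s j) = C i j := by
  classical
  let Z : Fin n → Finset (Fin n) := fun i => univ.filter (fun j => j ≠ i ∧ u i + u j = 0)
  have hZ : ∀ i, n ≤ (Z i).card + 1 + (univ.filter (fun j => C (s i) j ≠ 0)).card +
      (univ.filter (fun j => C i j ≠ 0)).card := by
    intro i
    have h3 : (univ : Finset (Fin n)) ⊆ ((Z i ∪ {i}) ∪ univ.filter (fun j => C (s i) (s j) ≠ 0)) ∪
        univ.filter (fun j => C i j ≠ 0) := by
      intro j _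
      simp only [Z, mem_union, mem_filter, mem_univ, true_and, mem_singleton]
      by_contra hcon
      push Not at hcon
      obtain ⟨⟨⟨h4, h5⟩, h6⟩, h7⟩ := hcon
      apply h4 h5
      rw [← hu i j (Ne.symm h5), h6, h7, sub_zero]
    have h4 := card_le_card h3
    rw [card_univ, Fintype.card_fin] at h4
    have h5 : (univ.filter (fun j => C (s i) (s j) ≠ 0)).card =
        (univ.filter (fun j => C (s i) j ≠ 0)).card := by
      refine card_bij (fun j _ => s j) ?_ ?_ ?_
      · intro j hj; simpa using hj
      · intro j _ j' _ h; exact s.injective h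
      · intro y hy; exact ⟨s.symm y, by simpa using hy, by simp⟩
    calc n ≤ _ := h4
      _ ≤ _ := card_union_le _ _
      _ ≤ _ := Nat.add_le_add_right (card_union_le _ _) _
      _ ≤ _ := Nat.add_le_add_right (Nat.add_le_add_right (card_union_le _ _) _) _
      _ = _ := by rw [card_singleton, h5]
  have hne : ∀ i i', ∃ j, j ∈ Z i ∧ j ∈ Z i' := by
    intro i i'
    by_contra hcon
    push Not at hcon
    have hdisj : Disjoint (Z i) (Z i') := by
      rw [Finset.disjoint_left]
      exact hcon
    have h3 : (Z i).card + (Z i').card ≤ n := by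
      rw [← card_union_of_disjoint hdisj]
      exact (card_le_univ _).trans (by rw [Fintype.card_fin])
    have := hZ i
    have := hZ i'
    have := hC i
    have := hC i'
    have := hC (s i)
    have := hC (s i')
    omega
  have hZu : ∀ i j, j ∈ Z i → u i + u j = 0 := fun i j hj => (mem_filter.1 hj).2.2
  have hcst : ∀ i i', u i = u i' := by
    intro i i'
    obtain ⟨j, h3, h4⟩ := hne i i'
    have h5 := hZu _ _ h3
    have h6 := hZu _ _ h4
    linear_combination h5 - h6
  have hzero : ∀ i, u i = 0 := by
    intro i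
    obtain ⟨j, h3, -⟩ := hne i i
    have h5 := hZu _ _ h3
    rw [hcst j i, ← two_mul] at h5
    exact (mul_eq_zero.1 h5).resolve_left h2
  intro i j
  by_cases hij : i = j
  · rw [hij, hd, hd]
  · have := hu i j hij
    rw [hzero, hzero, add_zero, sub_eq_zero] at this
    exact this

section

variable {r n : ℕ} [Fact r.Prime] {R : Type*} [CommRing R]

/-- the pairing with a matrix -/
def pairing (C : Fin n → Fin n → ZMod r) (A : Multiplicative (symMat r n)) : ZMod r :=
  ∑ i, ∑ j, mval A i j * C i j

theorem pairing_mul (C : Fin n → Fin n → ZMod r) (A B : Multiplicative (symMat r n)) :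
    pairing C (A * B) = pairing C A + pairing C B := by
  unfold pairing
  rw [← Finset.sum_add_distrib]
  refine sum_congr rfl fun i _ => ?_
  rw [← Finset.sum_add_distrib]
  refine sum_congr rfl fun j _ => ?_
  rw [← add_mul]
  rfl

theorem pairing_one (C : Fin n → Fin n → ZMod r) :
    pairing C (1 : Multiplicative (symMat r n)) = 0 := by
  unfold pairing
  refine Finset.sum_eq_zero fun i _ => Finset.sum_eq_zero fun j _ => ?_
  have : mval (1 : Multiplicative (symMat r n)) i j = 0 := rfl
  rw [this, zero_mul]

theorem pairing_perm (C : Fin n → Fin n → ZMod r) (s : Equiv.Perm (Fin n))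
    (A : Multiplicative (symMat r n)) :
    pairing C (permMat r n s A) = pairing (fun i j => C (s i) (s j)) A := by
  unfold pairing
  rw [← Equiv.sum_comp s]
  refine sum_congr rfl fun i _ => ?_
  rw [← Equiv.sum_comp s]
  refine sum_congr rfl fun j _ => ?_
  rw [mval_perm, Equiv.symm_apply_apply, Equiv.symm_apply_apply]

/-- the linear character of the group of matrices defined by a matrix -/
noncomputable def chiM {ζ : R} (hζ : ζ ^ r = 1) (C : Fin n → Fin n → ZMod r) :
    Multiplicative (symMat r n) →* R where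
  toFun A := AddChar.zmodChar r hζ (pairing C A)
  map_one' := by rw [pairing_one, AddChar.map_zero_eq_one]
  map_mul' A B := by rw [pairing_mul, AddChar.map_add_eq_mul]

theorem chiM_eq_iff {ζ : R} (hζ : IsPrimitiveRoot ζ r) (C C' : Fin n → Fin n → ZMod r)
    (A B : Multiplicative (symMat r n)) :
    chiM hζ.pow_eq_one C A = chiM hζ.pow_eq_one C' B ↔ pairing C A = pairing C' B := by
  have hr : r.Prime := Fact.out
  have : NeZero r := ⟨hr.ne_zero⟩
  constructor
  · intro h
    have h1 : ζ ^ (pairing C A).val = ζ ^ (pairing C' B).val := by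
      have h2 : AddChar.zmodChar r hζ.pow_eq_one (pairing C A) =
        AddChar.zmodChar r hζ.pow_eq_one (pairing C' B) := h
      rwa [AddChar.zmodChar_apply, AddChar.zmodChar_apply] at h2
    exact ZMod.val_injective r (hζ.pow_inj (ZMod.val_lt _) (ZMod.val_lt _) h1)
  · intro h
    show AddChar.zmodChar r hζ.pow_eq_one (pairing C A) =
        AddChar.zmodChar r hζ.pow_eq_one (pairing C' B)
    rw [h]

/-- An even permutation fixing the linear character defined by a sparse matrix fixes the
matrix. -/
theorem fix_of_pairing (hr2 : r ≠ 2) {C : Fin n → Fin n → ZMod r} (hs : ∀ i j, C i j = C j i)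
    (hd : ∀ i, C i i = 0)
    (hC : ∀ i, 4 * (univ.filter (fun j => C i j ≠ 0)).card + 2 < n) (hn : 3 ≤ n)
    (s : Equiv.Perm (Fin n)) (h : ∀ A, pairing C (permMat r n s A) = pairing C A) :
    ∀ i j, C (s i) (s j) = C i j := by
  have h2 := two_ne (r := r) hr2
  have key : ∀ a b c d : Fin n, a ≠ b → a ≠ c → a ≠ d → b ≠ c → b ≠ d → c ≠ d →
      alt4 (fun i j => C (s i) (s j) - C i j) a b c d = 0 := by
    intro a b c d hab hac had hbc hbd hcd
    have h3 := h (Multiplicative.ofAdd ⟨gg a b c d, gg_mem hac had hbc hbd⟩)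
    rw [pairing_perm] at h3
    have h4 : ∀ C' : Fin n → Fin n → ZMod r, (∀ i j, C' i j = C' j i) →
        pairing C' (Multiplicative.ofAdd ⟨gg a b c d, gg_mem hac had hbc hbd⟩) =
        2 * alt4 C' a b c d := fun C' hC' => alt4_sum C' hC' a b c d
    rw [h4 _ hs, h4 _ (fun i j => hs _ _)] at h3
    have h5 := mul_left_cancel₀ h2 h3
    unfold alt4 at h5 ⊢
    linear_combination h5
  obtain ⟨u, hu⟩ := exists_potential hn h2 (fun i j => by rw [hs (s i), hs i]) key
  exact sparse_zero h2 hd hC s hu

variable [IsDomain R] {G : Type*} [Group G]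

/-- The Clifford data of a sparse matrix. -/
noncomputable def affStab (hr2 : r ≠ 2) {ζ : R} (hζ : IsPrimitiveRoot ζ r)
    (hr : IsUnit (r : R)) (hn : 3 ≤ n) {C : Fin n → Fin n → ZMod r}
    {ι : G →* Equiv.Perm (Fin n)} (hι : Function.Injective ι)
    (halt : ∀ g, ι g ∈ alternatingGroup (Fin n)) (hs : ∀ i j, C i j = C j i)
    (hd : ∀ i, C i i = 0)
    (hC : ∀ i, 4 * (univ.filter (fun j => C i j ≠ 0)).card + 2 < n)
    (hfix : ∀ g i j, C (ι g i) (ι g j) = C i j)
    (hex : ∀ s : Equiv.Perm (Fin n), (∀ i j, C (s i) (s j) = C i j) → ∃ g, s = ι g)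
    [Fintype (Multiplicative (symMat r n))] :
    Stab R G ((permMat r n).comp (alternatingGroup (Fin n)).subtype) where
  ι := ι.codRestrict _ halt
  lam := chiM hζ.pow_eq_one C
  inj g h hgh := hι (congrArg Subtype.val hgh)
  fix g A := by
    rw [chiM_eq_iff hζ]
    show pairing C (permMat r n (ι g) A) = _
    rw [pairing_perm]
    congr 1
    funext i j
    exact hfix g i j
  orth l hl := by
    by_contra hcon
    push Not at hcon
    apply hl
    obtain ⟨g, hg⟩ := hex l (fix_of_pairing hr2 hs hd hC hn l fun A => by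
      have := hcon A
      rw [chiM_eq_iff hζ] at this
      exact this)
    exact ⟨g, Subtype.ext hg.symm⟩
  hV := by
    have hp : IsPGroup r (Multiplicative (symMat r n)) := by
      intro A
      refine ⟨1, ?_⟩
      apply Multiplicative.toAdd.injective
      apply Subtype.ext
      ext i j
      show (r ^ 1) • (Multiplicative.toAdd A).1 i j = 0
      rw [pow_one, nsmul_eq_mul, CharP.cast_eq_zero, zero_mul]
    obtain ⟨k, hk⟩ := IsPGroup.iff_card.1 hp
    rw [Nat.card_eq_fintype_card] at hk
    rw [hk, Nat.cast_pow]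
    exact hr.pow _

end

end Pool.Agent.UBlocks
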