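import Pool.Agent.UBlocks.TraceDown

/-!
# Defect groups and block dimensions under the transfer
-/

set_option autoImplicit false

namespace Pool.Agent.UBlocks

open MonoidAlgebra MP_a15589_al

theorem Cliff.sigma_injective {R V G H : Type*} [CommRing R] [CommGroup V] [Group G] [Group H]
    [Fintype V] (C : Cliff R V G H) : Function.Injective C.σ := fun _ _ h => C.sigma_inj h

theorem Cliff.isDefect_up {k V G H : Type*} [Field k] [CommGroup V] [Group G] [Group H]
    [Fintype V] (C : Cliff k V G H) [Fintype G] [Fintype H] [Fintype (H ⧸ C.T)]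
    [DecidableEq (H ⧸ C.T)] [IsAlgClosed k] {b : MonoidAlgebra k G} (hb : IsBlock b)
    {D : Subgroup G} (hD : IsDefect b D) : IsDefect (C.up b) (D.map C.σ) := by
  refine ⟨(isTraceFrom_iff _ _).2 (C.trFrom_up ((isTraceFrom_iff _ _).1 hD.1)), ?_⟩
  intro Q hQ
  obtain ⟨Q', hQ', hcard⟩ := C.trFrom_down ((isBlk_iff b).1 hb) ((isTraceFrom_iff _ _).1 hQ)
  have h1 := hD.2 Q' ((isTraceFrom_iff _ _).2 hQ')
  have h2 : Nat.card (D.map C.σ) = Nat.card D :=
    (Nat.card_congr (D.equivMapOfInjective C.σ C.sigma_injective).toEquiv).symm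
  omega

end Pool.Agent.UBlocks
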