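import Pool.Agent.UBlocks.Eps
import Pool.Agent.UBlocks.Defect

/-!
# Relative traces and defect groups under the transfer along a full idempotent
-/

set_option autoImplicit false

namespace Pool.Agent.UBlocks

open MonoidAlgebra

namespace Eps

section Up

variable {R G X : Type*} [CommRing R] [Group G] [Group X] (C : Eps R G X)

theorem transversal (D : Subgroup G) :
    Function.Bijective (fun t : (X ⧸ C.σ.range) × (G ⧸ D) =>
      ((Quotient.out t.1 * C.σ (Quotient.out t.2) : X) : X ⧸ D.map C.σ)) := by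
  constructor
  · rintro ⟨p, q⟩ ⟨p', q'⟩ h
    obtain ⟨d, hd, hdd⟩ := QuotientGroup.eq.1 h
    have h2 : (Quotient.out p : X)⁻¹ * Quotient.out p' =
        C.σ (Quotient.out q * d * (Quotient.out q')⁻¹) := by
      rw [map_mul, map_mul, hdd, map_inv]; group
    have h3 : p = p' := by
      rw [← QuotientGroup.out_eq' p, ← QuotientGroup.out_eq' p']
      apply QuotientGroup.eq.2
      rw [h2]
      exact ⟨_, rfl⟩
    subst h3
    rw [inv_mul_cancel] at h2
    have h4 : Quotient.out q * d * (Quotient.out q')⁻¹ = 1 := by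
      apply C.inj
      rw [← h2, map_one]
    have h5 : q = q' := by
      rw [← QuotientGroup.out_eq' q, ← QuotientGroup.out_eq' q']
      apply QuotientGroup.eq.2
      have : (Quotient.out q)⁻¹ * Quotient.out q' = d := by
        have h6 := mul_inv_eq_one.1 h4
        rw [← h6]; group
      rw [this]
      exact hd
    rw [h5]
  · intro h
    obtain ⟨h, rfl⟩ := QuotientGroup.mk_surjective h
    have h1 : (Quotient.out (h : X ⧸ C.σ.range))⁻¹ * h ∈ C.σ.range := by
      rw [← QuotientGroup.eq, QuotientGroup.out_eq']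
    obtain ⟨g, hg⟩ := h1
    have h2 : (Quotient.out (g : G ⧸ D))⁻¹ * g ∈ D := by
      rw [← QuotientGroup.eq, QuotientGroup.out_eq']
    refine ⟨((h : X ⧸ C.σ.range), (g : G ⧸ D)), ?_⟩
    apply QuotientGroup.eq.2
    refine ⟨_, h2, ?_⟩
    dsimp only
    have h4 : h = Quotient.out (h : X ⧸ C.σ.range) * C.σ g := by rw [hg]; group
    set y := Quotient.out (g : G ⧸ D)
    set x := Quotient.out (h : X ⧸ C.σ.range)
    rw [h4, map_mul, map_inv]
    group

variable [Fintype G]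

theorem cj_D {D : Subgroup G} {a : MonoidAlgebra R G} (ha : ∀ q ∈ D, cj q a = a) (c : R) :
    ∀ t ∈ D.map C.σ, cj t (c • (C.sig a * C.ε)) = c • (C.sig a * C.ε) := by
  rintro _ ⟨d, hd, rfl⟩
  rw [cj_smul, cj_sig_eps, ha d hd]

variable [Fintype (X ⧸ C.σ.range)]

theorem tr_up {D : Subgroup G} [Fintype (G ⧸ D)] [Fintype (X ⧸ D.map C.σ)]
    {a : MonoidAlgebra R G} (ha : ∀ q ∈ D, cj q a = a) :
    C.up (tr D a) = tr (D.map C.σ) (((C.u⁻¹ : Rˣ) : R) • (C.sig a * C.ε)) := by
  rw [tr_transversal (C.cj_D ha _) (fun t : (X ⧸ C.σ.range) × (G ⧸ D) =>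
      Quotient.out t.1 * C.σ (Quotient.out t.2)) (C.transversal D),
    Fintype.sum_prod_type, up_def]
  conv_lhs => rw [tr, Finset.smul_sum]
  refine Finset.sum_congr rfl fun p _ => ?_
  unfold tr
  rw [map_sum, Finset.sum_mul, cj_sum, Finset.smul_sum]
  refine Finset.sum_congr rfl fun q _ => ?_
  rw [cj_smul, ← cj_cj, cj_sig_eps]

theorem trFrom_up [Finite X] {b : MonoidAlgebra R G} {D : Subgroup G} (h : TrFrom b D) :
    TrFrom (C.up b) (D.map C.σ) := by
  have : Fintype (G ⧸ D) := Fintype.ofFinite _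
  have : Fintype (X ⧸ D.map C.σ) := Fintype.ofFinite _
  rw [trFrom_iff] at h ⊢
  obtain ⟨a, ha, rfl⟩ := h
  exact ⟨_, C.cj_D ha _, C.tr_up ha⟩

end Up

section Down

variable {k G X : Type*} [Field k] [Group G] [Group X] (C : Eps k G X)

/-- the stabiliser in `G` of a point -/
def stG {Q : Subgroup X} (y : X ⧸ Q) : Subgroup G := (MulAction.stabilizer X y).comap C.σ

theorem mem_stG {Q : Subgroup X} {y : X ⧸ Q} {g : G} : g ∈ C.stG y ↔ C.σ g • y = y := Iff.rfl

theorem card_stG [Finite X] {Q : Subgroup X} (y : X ⧸ Q) : Nat.card (C.stG y) ≤ Nat.card Q := by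
  have hmem : ∀ g : C.stG y, (Quotient.out y)⁻¹ * C.σ (g : G) * Quotient.out y ∈ Q := fun g =>
    Cliff.mem_of_fix (C.mem_stG.1 g.2)
  refine Nat.card_le_card_of_injective (fun g => (⟨_, hmem g⟩ : Q)) ?_
  intro g g' h
  have h1 := congrArg Subtype.val h
  simp only [mul_left_inj, mul_right_inj] at h1
  exact Subtype.ext (C.inj h1)

theorem orbit_bij {Q : Subgroup X} (y : X ⧸ Q) :
    Set.BijOn (fun q : G ⧸ C.stG y => C.σ (Quotient.out q) • y) Set.univ
      {x | ∃ t ∈ C.σ.range, t • y = x} := by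
  refine ⟨?_, ?_, ?_⟩
  · intro q _
    exact ⟨_, ⟨_, rfl⟩, rfl⟩
  · intro q _ q' _ h
    dsimp only at h
    have h1 : (Quotient.out q')⁻¹ * Quotient.out q ∈ C.stG y := by
      rw [mem_stG, map_mul, map_inv, mul_smul, h, inv_smul_smul]
    rw [← QuotientGroup.eq, QuotientGroup.out_eq', QuotientGroup.out_eq'] at h1
    exact h1.symm
  · rintro x ⟨t, ⟨g, rfl⟩, rfl⟩
    refine ⟨(g : G ⧸ C.stG y), Set.mem_univ _, ?_⟩
    have h2 : (Quotient.out (g : G ⧸ C.stG y))⁻¹ * g ∈ C.stG y := by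
      rw [← QuotientGroup.eq, QuotientGroup.out_eq']
    rw [mem_stG, map_mul, map_inv, mul_smul] at h2
    dsimp only
    exact (inv_smul_eq_iff.1 h2).symm

open MP_a15589_al in
theorem trFrom_down [IsAlgClosed k] [Fintype G] [Fintype X] [Fintype (X ⧸ C.σ.range)]
    {b : MonoidAlgebra k G} (hb : IsBlk b) {Q : Subgroup X} (h : TrFrom (C.up b) Q) :
    ∃ Q' : Subgroup G, TrFrom b Q' ∧ Nat.card Q' ≤ Nat.card Q := by
  classical
  have : Fintype (X ⧸ Q) := Fintype.ofFinite _
  rw [trFrom_iff] at h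
  obtain ⟨A, hA, hbA⟩ := h
  let F : X ⧸ Q → MonoidAlgebra k X := fun x => cj (Quotient.out x) A
  have hF : ∀ (g : X) (x : X ⧸ Q), F (g • x) = cj g (F x) := by
    intro g x
    simp only [F]
    rw [cj_cj]
    have : g • x = ((g * Quotient.out x : X) : X ⧸ Q) := by
      conv_lhs => rw [← QuotientGroup.out_eq' x]
      rfl
    rw [this, cj_out hA]
  let u : X ⧸ Q → MonoidAlgebra k G := fun x => C.pr (F x)
  have hu : ∀ x, C.sig (u x) * C.ε = C.ε * F x * C.ε := fun x => (C.eps_mul_eps _).symm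
  have hu1 : ∀ g x, u (C.σ g • x) = cj g (u x) := by
    intro g x
    apply C.eq_of_sig
    rw [hu, hF, ← cj_sig_eps, hu, cj_mul, cj_mul, C.comm]
  have hbu : b = ∑ x, u x := by
    apply C.eq_of_sig
    rw [map_sum, Finset.sum_mul]
    simp only [hu]
    rw [← Finset.sum_mul, ← Finset.mul_sum]
    have h1 : ∑ x, F x = C.up b := hbA.symm
    rw [h1, mul_assoc, C.up_mul_eps hb.central, ← mul_assoc, ← sig_comm, mul_assoc, C.idem]
  let Z : MulAction.orbitRel.Quotient C.σ.range (X ⧸ Q) → MonoidAlgebra k G := fun ω =>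
    ∑ x ∈ Finset.univ.filter (fun x : X ⧸ Q => Quotient.mk _ x = ω), u x
  have hZ : ∀ ω g, cj g (Z ω) = Z ω := by
    intro ω g
    simp only [Z]
    rw [cj_sum]
    refine Finset.sum_bij (fun x _ => C.σ g • x) ?_ ?_ ?_ ?_
    · intro x hx
      rw [Finset.mem_filter] at hx ⊢
      refine ⟨Finset.mem_univ _, ?_⟩
      rw [← hx.2]
      apply Quotient.sound
      exact ⟨⟨C.σ g, ⟨g, rfl⟩⟩, rfl⟩
    · intro x _ y _ hxy
      exact MulAction.injective (C.σ g) hxy
    · intro y hy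
      rw [Finset.mem_filter] at hy
      refine ⟨(C.σ g)⁻¹ • y, ?_, by simp⟩
      rw [Finset.mem_filter]
      refine ⟨Finset.mem_univ _, ?_⟩
      rw [← hy.2]
      apply Quotient.sound
      exact ⟨⟨(C.σ g)⁻¹, C.σ.range.inv_mem ⟨g, rfl⟩⟩, rfl⟩
    · intro x _
      exact (hu1 g x).symm
  have : Fintype (MulAction.orbitRel.Quotient C.σ.range (X ⧸ Q)) := Fintype.ofFinite _
  have hbZ : b = ∑ ω, Z ω := by
    rw [hbu]
    simp only [Z]
    rw [Finset.sum_fiberwise]
  have hcomm := CZ_comm (k := k) (le_refl (⊤ : Subgroup G))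
  have hcen : ∀ z : MonoidAlgebra k G, (∀ g, cj g z = z) → z ∈ CZ k (⊤ : Subgroup G) ⊤ := by
    intro z hz
    rw [mem_CZ']
    exact ⟨fun g hg => absurd (Subgroup.mem_top g) hg, fun m _ => hz m⟩
  have hbcj : ∀ g, cj g b = b := (central_iff b).1 hb.central
  have hprimG : IsPrim (CZ k (⊤ : Subgroup G) ⊤) b := by
    refine ⟨hcen b hbcj, hb.idem, hb.ne_zero, ?_⟩
    intro f hf hff
    exact hb.prim f hff (fun x => central_comm hf x)
  obtain ⟨ω, -, hω⟩ := not_nilpotent_of_sum hcomm Finset.univ (fun ω => Z ω * b)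
    (fun ω _ => mul_mem (hcen _ (hZ ω)) hprimG.mem)
    (by
      rw [← Finset.sum_mul, ← hbZ, hb.idem]
      exact idem_pow hb.idem hb.ne_zero)
  obtain ⟨w, hw, hwb⟩ := hprimG.unit hcomm (hcen _ (hZ ω)) hω
  have hwcj : ∀ g, cj g w = w := fun g => (mem_CZ'.1 hw).2 g (Subgroup.mem_top g)
  obtain ⟨y, hy⟩ := Quotient.exists_rep ω
  have : Fintype (G ⧸ C.stG y) := Fintype.ofFinite _
  have hZy : Z ω = ∑ q : G ⧸ C.stG y, cj (Quotient.out q) (u y) := by
    have h1 : Z ω = ∑ q : G ⧸ C.stG y, u (C.σ (Quotient.out q) • y) := by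
      simp only [Z]
      symm
      have hset : (Finset.univ.filter (fun x : X ⧸ Q => Quotient.mk _ x = ω) : Set (X ⧸ Q)) =
          {x | ∃ t ∈ C.σ.range, t • y = x} := by
        ext x
        simp only [Finset.coe_filter, Finset.mem_univ, true_and, Set.mem_ofPred_eq]
        rw [← hy]
        constructor
        · intro hx
          obtain ⟨m, hm⟩ := Quotient.exact hx
          exact ⟨m, m.2, hm⟩
        · rintro ⟨t, ht, hx⟩
          apply Quotient.sound
          exact ⟨⟨t, ht⟩, hx⟩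
      have hbij := C.orbit_bij y
      rw [← hset] at hbij
      refine Finset.sum_bij (fun q _ => C.σ (Quotient.out q) • y) ?_ ?_ ?_ ?_
      · intro t _
        exact hbij.1 (Set.mem_univ t)
      · intro t _ t' _ htt
        exact hbij.2.1 (Set.mem_univ t) (Set.mem_univ t') htt
      · intro x hx
        obtain ⟨t, -, ht⟩ := hbij.2.2 hx
        exact ⟨t, Finset.mem_univ _, ht⟩
      · intro t _
        rfl
    rw [h1]
    exact Finset.sum_congr rfl fun q _ => hu1 _ _
  have hyinv : ∀ g ∈ C.stG y, cj g (u y) = u y := by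
    intro g hg
    rw [← hu1, C.mem_stG.1 hg]
  refine ⟨C.stG y, ?_, C.card_stG y⟩
  rw [trFrom_iff]
  refine ⟨u y * (w * b), ?_, ?_⟩
  · intro g hg
    rw [cj_mul, hyinv g hg, cj_mul, hwcj, hbcj]
  · unfold tr
    conv_lhs => rw [← hwb, mul_assoc, hZy, Finset.sum_mul]
    refine Finset.sum_congr rfl fun q _ => ?_
    rw [cj_mul _ (u y), cj_mul _ w, hwcj, hbcj]

open MP_a15589_al in
theorem isDefect_up [IsAlgClosed k] [Fintype G] [Fintype X] [Fintype (X ⧸ C.σ.range)]
    {b : MonoidAlgebra k G} (hb : IsBlock b) {D : Subgroup G} (hD : IsDefect b D) :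
    IsDefect (C.up b) (D.map C.σ) := by
  refine ⟨(isTraceFrom_iff _ _).2 (C.trFrom_up ((isTraceFrom_iff _ _).1 hD.1)), ?_⟩
  intro Q hQ
  obtain ⟨Q', hQ', hcard⟩ := C.trFrom_down ((isBlk_iff b).1 hb) ((isTraceFrom_iff _ _).1 hQ)
  have h1 := hD.2 Q' ((isTraceFrom_iff _ _).2 hQ')
  have h2 : Nat.card (D.map C.σ) = Nat.card D :=
    (Nat.card_congr (D.equivMapOfInjective C.σ C.inj).toEquiv).symm
  omega

end Down

end Eps

end Pool.Agent.UBlocks
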