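import Pool.Agent.UBlocks.WrEps
import Pool.Agent.UBlocks.EpsTr

/-!
# Irreducible monomial modules and idempotents of rank one
-/

set_option autoImplicit false

namespace Pool.Agent.UBlocks

open MonoidAlgebra

section

variable {k S : Type*} [Field k] [Group S] {B : Subgroup S} [Fintype B]

/-- The idempotent of a linear character. -/
noncomputable def lin (l : B →* kˣ) : MonoidAlgebra k S :=
  ((Fintype.card B : k)⁻¹) • ∑ b : B, ((l b⁻¹ : kˣ) : k) • dl k (b : S)

theorem lin_mul_dl (l : B →* kˣ) (b : B) :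
    lin l * dl k (b : S) = ((l b : kˣ) : k) • lin l := by
  unfold lin
  have h0 : ((l b : kˣ) : k) • ((Fintype.card B : k)⁻¹ • ∑ c : B, ((l c⁻¹ : kˣ) : k) •
      dl k (c : S)) = (Fintype.card B : k)⁻¹ • ((l b : kˣ) : k) • ∑ c : B, ((l c⁻¹ : kˣ) : k) •
      dl k (c : S) := smul_comm _ _ _
  rw [smul_mul_assoc, Finset.sum_mul, h0]
  congr 1
  rw [Finset.smul_sum]
  refine Fintype.sum_equiv (Equiv.mulRight b) _ _ fun c => ?_
  rw [smul_mul_assoc, ← dl_mul, smul_smul]
  congr 1
  have h1 : (Equiv.mulRight b) c = c * b := rfl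
  rw [h1, mul_inv_rev, map_mul, Units.val_mul, ← mul_assoc, ← Units.val_mul, ← map_mul,
    mul_inv_cancel, map_one, Units.val_one, one_mul]

theorem dl_mul_lin (l : B →* kˣ) (b : B) :
    dl k (b : S) * lin l = ((l b : kˣ) : k) • lin l := by
  unfold lin
  have h0 : ((l b : kˣ) : k) • ((Fintype.card B : k)⁻¹ • ∑ c : B, ((l c⁻¹ : kˣ) : k) •
      dl k (c : S)) = (Fintype.card B : k)⁻¹ • ((l b : kˣ) : k) • ∑ c : B, ((l c⁻¹ : kˣ) : k) •
      dl k (c : S) := smul_comm _ _ _
  rw [mul_smul_comm, Finset.mul_sum, h0]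
  congr 1
  rw [Finset.smul_sum]
  refine Fintype.sum_equiv (Equiv.mulLeft b) _ _ fun c => ?_
  rw [mul_smul_comm, ← dl_mul, smul_smul]
  congr 1
  have h1 : (Equiv.mulLeft b) c = b * c := rfl
  rw [h1, mul_inv_rev, map_mul, Units.val_mul, mul_comm ((l c⁻¹ : kˣ) : k), ← mul_assoc,
    ← Units.val_mul, ← map_mul, mul_inv_cancel, map_one, Units.val_one, one_mul]

theorem lin_idem (l : B →* kˣ) (hB : (Fintype.card B : k) ≠ 0) : lin l * lin l = lin l := by
  conv_lhs => rw [show lin l * lin l = lin l * ((Fintype.card B : k)⁻¹ •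
    ∑ b : B, ((l b⁻¹ : kˣ) : k) • dl k (b : S)) from rfl]
  rw [mul_smul_comm, Finset.mul_sum]
  have h1 : ∀ b : B, lin l * (((l b⁻¹ : kˣ) : k) • dl k (b : S)) = lin l := by
    intro b
    rw [mul_smul_comm, lin_mul_dl, smul_smul, ← Units.val_mul, ← map_mul, inv_mul_cancel, map_one,
      Units.val_one, one_smul]
  rw [Finset.sum_congr rfl fun b _ => h1 b, Finset.sum_const, Finset.card_univ,
    ← Nat.cast_smul_eq_nsmul k, smul_smul, inv_mul_cancel₀ hB, one_smul]

theorem lin_dl_lin (l l' : B →* kˣ) (s : S) (b c : B) (h : (b : S) * s = s * c)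
    (hl : l b ≠ l' c) : lin l * dl k s * lin l' = 0 := by
  have h1 : ((l b : kˣ) : k) • (lin l * dl k s * lin l') =
      ((l' c : kˣ) : k) • (lin l * dl k s * lin l') := by
    rw [← smul_mul_assoc, ← smul_mul_assoc, ← lin_mul_dl, mul_assoc (lin l), ← dl_mul, h, dl_mul,
      ← mul_assoc, mul_assoc _ _ (lin l'), dl_mul_lin, mul_smul_comm]
  have h2 : (((l b : kˣ) : k) - ((l' c : kˣ) : k)) • (lin l * dl k s * lin l') = 0 := by
    rw [sub_smul, h1, sub_self]
  rcases smul_eq_zero.1 h2 with h3 | h3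
  · exact absurd (Units.ext (sub_eq_zero.1 h3)) hl
  · exact h3

theorem coeff_lin_one (l : B →* kˣ) : (lin l).coeff (1 : S) = (Fintype.card B : k)⁻¹ := by
  classical
  unfold lin
  rw [coeff_smul, Finsupp.smul_apply, coeff_sum, Finsupp.finsetSum_apply, Finset.sum_eq_single 1]
  · rw [coeff_smul, Finsupp.smul_apply, coeff_dl]
    simp
  · intro b _ hb
    rw [coeff_smul, Finsupp.smul_apply, coeff_dl, if_neg, smul_zero]
    intro h
    exact hb (Subtype.ext h)
  · intro h
    exact absurd (Finset.mem_univ _) h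

/-- Two linear characters of a subgroup which induce different irreducible modules of `S`. -/
structure Mono (l : Bool → (B →* kˣ)) : Prop where
  card : (Fintype.card B : k) ≠ 0
  ne : l false ≠ l true
  mack : ∀ (a a' : Bool) (s : S), s ∉ B → ∃ b c : B, (b : S) * s = s * c ∧ l a b ≠ l a' c

/-- The pair of idempotents given by two linear characters of a subgroup. -/
noncomputable def Mono.pair [Fintype S] {l : Bool → (B →* kˣ)} (M : Mono l) : Pair k S where
  ε a := lin (l a)
  u _ := Units.mk0 _ M.card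
  idem a := lin_idem _ M.card
  rank a s := by
    by_cases hs : s ∈ B
    · refine ⟨((l a ⟨s, hs⟩ : kˣ) : k), ?_⟩
      have h1 := lin_mul_dl (l a) ⟨s, hs⟩
      rw [h1, smul_mul_assoc, lin_idem _ M.card]
    · obtain ⟨b, c, h, hl⟩ := M.mack a a s hs
      exact ⟨0, by rw [lin_dl_lin _ _ s b c h hl, zero_smul]⟩
  orth a a' s haa := by
    by_cases hs : s ∈ B
    · have h1 := lin_mul_dl (l a) ⟨s, hs⟩
      rw [h1, smul_mul_assoc]
      have hne : l a ≠ l a' := by
        intro h
        rcases a with _ | _ <;> rcases a' with _ | _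
        · exact haa rfl
        · exact M.ne h
        · exact M.ne h.symm
        · exact haa rfl
      obtain ⟨b, hb⟩ : ∃ b, l a b ≠ l a' b := by
        by_contra hcon
        push Not at hcon
        exact hne (MonoidHom.ext hcon)
      have h2 := lin_dl_lin (l a) (l a') 1 b b (by rw [mul_one, one_mul]) hb
      rw [dl_one, mul_one] at h2
      rw [h2, smul_zero]
    · obtain ⟨b, c, h, hl⟩ := M.mack a a' s hs
      exact lin_dl_lin _ _ s b c h hl
  trace a := by
    classical
    rw [Finset.sum_mul]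
    have h1 : ∀ s : S, cj s (lin (l a)) * lin (l a) = if s ∈ B then lin (l a) else 0 := by
      intro s
      unfold cj
      by_cases hs : s ∈ B
      · rw [if_pos hs]
        have h1 := dl_mul_lin (l a) ⟨s, hs⟩
        have h2 := dl_mul_lin (l a) ⟨s, hs⟩⁻¹
        have h3 : (((⟨s, hs⟩ : B)⁻¹ : B) : S) = s⁻¹ := rfl
        rw [h3] at h2
        rw [mul_assoc _ (dl k s⁻¹), h2, h1, smul_mul_smul_comm, ← Units.val_mul, ← map_mul,
          mul_inv_cancel, map_one, Units.val_one, one_smul, lin_idem _ M.card]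
      · rw [if_neg hs]
        have hs' : s⁻¹ ∉ B := fun h => hs (by simpa using B.inv_mem h)
        obtain ⟨b, c, h, hl⟩ := M.mack a a s⁻¹ hs'
        rw [mul_assoc, mul_assoc, ← mul_assoc (lin (l a)), lin_dl_lin _ _ s⁻¹ b c h hl, mul_zero]
    rw [Finset.sum_congr rfl fun s _ => h1 s, ← Finset.sum_filter, Finset.sum_const,
      ← Nat.cast_smul_eq_nsmul k, Units.val_mk0]
    congr 2
    rw [Fintype.card_subtype]
  unit a := ⟨1, by
    rw [coeff_lin_one]
    exact isUnit_iff_ne_zero.2 (inv_ne_zero M.card)⟩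

end

section

variable {k S : Type*} [Field k] [Group S] [Fintype S]

theorem unit_eq (a : MonoidAlgebra k Unit) : a = a.coeff () • (1 : MonoidAlgebra k Unit) := by
  refine MonoidAlgebra.ext (Finsupp.ext fun x => ?_)
  rw [← dl_one, coeff_smul, Finsupp.smul_apply, coeff_dl, if_pos (Subsingleton.elim _ _),
    smul_eq_mul, mul_one]

omit [Fintype S] in
theorem quot_bij : Function.Bijective
    (fun s : S => (s : S ⧸ (1 : Unit →* S).range)) := by
  refine ⟨fun s t h => ?_, QuotientGroup.mk_surjective⟩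
  obtain ⟨x, hx⟩ := QuotientGroup.eq.1 h
  rw [MonoidHom.one_apply] at hx
  exact (inv_mul_eq_one.1 hx.symm)

/-- The corner of an idempotent of rank one is the group algebra of the trivial group. -/
noncomputable def Pair.eps (Q : Pair k S) (a : Bool) : Eps k Unit S where
  σ := 1
  ε := Q.ε a
  u := Q.u a
  inj := fun x y _ => Subsingleton.elim x y
  idem := Q.idem a
  comm g := by rw [MonoidHom.one_apply, cj_one']
  corner x := by
    obtain ⟨r, hr⟩ := Q.rank a x
    refine ⟨r • 1, ?_⟩
    rw [hr, map_smul, map_one, smul_mul_assoc, one_mul]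
  faithful b hb := by
    rw [unit_eq b, map_smul, map_one (inc k (1 : Unit →* S)), smul_mul_assoc, one_mul] at hb
    obtain ⟨s, hs⟩ := Q.unit a
    have h1 := congrArg (fun z : MonoidAlgebra k S => z.coeff s) hb
    simp only [coeff_smul, Finsupp.smul_apply, smul_eq_mul, coeff_zero, Finsupp.coe_zero,
      Pi.zero_apply, mul_eq_zero] at h1
    rcases h1 with h1 | h1
    · rw [unit_eq b, h1, zero_smul]
    · exact absurd h1 hs.ne_zero
  trace := by
    have h1 : (∑ᶠ q : S ⧸ (1 : Unit →* S).range, cj (Quotient.out q) (Q.ε a)) =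
        ∑ s, cj s (Q.ε a) := by
      rw [← finsum_eq_sum_of_fintype]
      refine (finsum_eq_of_bijective _ quot_bij fun s => ?_).symm
      congr 1
      exact (quot_bij.1 (QuotientGroup.out_eq' (s : S ⧸ (1 : Unit →* S).range))).symm
    rw [h1]
    exact Q.trace a

theorem isBlk_one_unit : IsBlk (1 : MonoidAlgebra k Unit) where
  idem := one_mul 1
  central x := by rw [mul_one, one_mul]
  ne_zero := one_ne_zero
  prim f hf _ := by
    rw [unit_eq f, smul_mul_smul_comm, one_mul] at hf
    have h1 : f.coeff () * f.coeff () = f.coeff () := by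
      have h2 := congrArg (fun z : MonoidAlgebra k Unit => z.coeff ()) hf
      simp only [coeff_smul, Finsupp.smul_apply, smul_eq_mul] at h2
      rw [← dl_one, coeff_dl, if_pos rfl, mul_one, mul_one] at h2
      exact h2
    rcases IsIdempotentElem.iff_eq_zero_or_one.1 h1 with h3 | h3
    · left; rw [unit_eq f, h3, zero_smul, zero_mul]
    · right; rw [unit_eq f, h3, one_smul, one_mul]

end

/-- A pair of idempotents gives two different blocks of defect zero. -/
theorem Pair.blocks {k S : Type*} [Field k] [IsAlgClosed k] [Group S] [Fintype S] (Q : Pair k S) :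
    ∃ e₀ e₁ : MonoidAlgebra k S, MP_a15589_al.IsBlock e₀ ∧ MP_a15589_al.IsBlock e₁ ∧ e₀ ≠ e₁ ∧
      MP_a15589_al.IsDefect e₀ ⊥ ∧ MP_a15589_al.IsDefect e₁ ⊥ := by
  classical
  have : ∀ a, Fintype (S ⧸ (Q.eps a).σ.range) := fun a => Fintype.ofFinite _
  have hbl : ∀ a, IsBlk ((Q.eps a).up 1) := fun a => (Q.eps a).up_isBlk isBlk_one_unit
  have hdef : ∀ a, MP_a15589_al.IsDefect ((Q.eps a).up 1) ⊥ := by
    intro a
    have h1 : MP_a15589_al.IsDefect (1 : MonoidAlgebra k Unit) ⊥ := by
      refine ⟨(isTraceFrom_iff _ _).2 ⟨1, fun q _ => ?_, ?_⟩, fun D _ => ?_⟩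
      · rw [Subsingleton.elim q 1, cj_one']
      · have : Unique (Unit ⧸ (⊥ : Subgroup Unit)) := ⟨⟨1⟩, fun x => by
          obtain ⟨y, rfl⟩ := QuotientGroup.mk_surjective x
          rw [Subsingleton.elim y 1]; rfl⟩
        rw [finsum_unique, Subsingleton.elim (Quotient.out _) (1 : Unit), cj_one']
      · rw [Subgroup.card_bot]
        exact Nat.card_pos
    have h2 := (Q.eps a).isDefect_up ((isBlk_iff _).2 isBlk_one_unit) h1
    rwa [Subgroup.map_bot] at h2
  refine ⟨_, _, (isBlk_iff _).2 (hbl false), (isBlk_iff _).2 (hbl true), fun h => ?_,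
    hdef false, hdef true⟩
  have h1 := (Q.eps true).up_mul_eps Eps.one_central
  rw [← h, map_one, one_mul] at h1
  have h2 : (Q.eps false).up 1 * Q.ε true = 0 := by
    rw [Eps.up_def, map_one, one_mul, smul_mul_assoc]
    unfold tr
    rw [Finset.sum_mul, Finset.sum_eq_zero, smul_zero]
    intro q _
    have h3 : (Q.eps false).ε = Q.ε false := rfl
    rw [h3]
    unfold cj
    rw [mul_assoc, mul_assoc, ← mul_assoc (Q.ε false), Q.orth false true _ Bool.false_ne_true,
      mul_zero]
  obtain ⟨s, hs⟩ := Q.unit true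
  apply hs.ne_zero
  have h3 : (Q.eps true).ε = Q.ε true := rfl
  rw [h3] at h1
  rw [← h1, h2]
  rfl

end Pool.Agent.UBlocks
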