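import Pool.Agent.UBlocks.WrEps

/-!
# Irreducible monomial modules and idempotents of rank one, over integral domains
-/

set_option autoImplicit false

namespace Pool.Agent.UBlocks

open MonoidAlgebra

section

variable {R S : Type*} [CommRing R] [Group S] {B : Subgroup S} [Fintype B]
  (hB : IsUnit ((Fintype.card B : ℕ) : R))

/-- The idempotent of a linear character. -/
noncomputable def linR (l : B →* Rˣ) : MonoidAlgebra R S :=
  ((hB.unit⁻¹ : Rˣ) : R) • ∑ b : B, ((l b⁻¹ : Rˣ) : R) • dl R (b : S)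

theorem linR_mul_dl (l : B →* Rˣ) (b : B) :
    linR hB l * dl R (b : S) = ((l b : Rˣ) : R) • linR hB l := by
  unfold linR
  have h0 : ((l b : Rˣ) : R) • (((hB.unit⁻¹ : Rˣ) : R) • ∑ c : B, ((l c⁻¹ : Rˣ) : R) •
      dl R (c : S)) = ((hB.unit⁻¹ : Rˣ) : R) • ((l b : Rˣ) : R) • ∑ c : B, ((l c⁻¹ : Rˣ) : R) •
      dl R (c : S) := smul_comm _ _ _
  rw [smul_mul_assoc, Finset.sum_mul, h0]
  congr 1
  rw [Finset.smul_sum]
  refine Fintype.sum_equiv (Equiv.mulRight b) _ _ fun c => ?_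
  rw [smul_mul_assoc, ← dl_mul, smul_smul]
  congr 1
  have h1 : (Equiv.mulRight b) c = c * b := rfl
  rw [h1, mul_inv_rev, map_mul, Units.val_mul, ← mul_assoc, ← Units.val_mul, ← map_mul,
    mul_inv_cancel, map_one, Units.val_one, one_mul]

theorem dl_mul_linR (l : B →* Rˣ) (b : B) :
    dl R (b : S) * linR hB l = ((l b : Rˣ) : R) • linR hB l := by
  unfold linR
  have h0 : ((l b : Rˣ) : R) • (((hB.unit⁻¹ : Rˣ) : R) • ∑ c : B, ((l c⁻¹ : Rˣ) : R) •
      dl R (c : S)) = ((hB.unit⁻¹ : Rˣ) : R) • ((l b : Rˣ) : R) • ∑ c : B, ((l c⁻¹ : Rˣ) : R) •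
      dl R (c : S) := smul_comm _ _ _
  rw [mul_smul_comm, Finset.mul_sum, h0]
  congr 1
  rw [Finset.smul_sum]
  refine Fintype.sum_equiv (Equiv.mulLeft b) _ _ fun c => ?_
  rw [mul_smul_comm, ← dl_mul, smul_smul]
  congr 1
  have h1 : (Equiv.mulLeft b) c = b * c := rfl
  rw [h1, mul_inv_rev, map_mul, Units.val_mul, mul_comm ((l c⁻¹ : Rˣ) : R), ← mul_assoc,
    ← Units.val_mul, ← map_mul, mul_inv_cancel, map_one, Units.val_one, one_mul]

theorem linR_idem (l : B →* Rˣ) : linR hB l * linR hB l = linR hB l := by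
  conv_lhs => rw [show linR hB l * linR hB l = linR hB l * (((hB.unit⁻¹ : Rˣ) : R) •
    ∑ b : B, ((l b⁻¹ : Rˣ) : R) • dl R (b : S)) from rfl]
  rw [mul_smul_comm, Finset.mul_sum]
  have h1 : ∀ b : B, linR hB l * (((l b⁻¹ : Rˣ) : R) • dl R (b : S)) = linR hB l := by
    intro b
    rw [mul_smul_comm, linR_mul_dl, smul_smul, ← Units.val_mul, ← map_mul, inv_mul_cancel, map_one,
      Units.val_one, one_smul]
  rw [Finset.sum_congr rfl fun b _ => h1 b, Finset.sum_const, Finset.card_univ,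
    ← Nat.cast_smul_eq_nsmul R, smul_smul, IsUnit.val_inv_mul, one_smul]

theorem linR_dl_linR [IsDomain R] (l l' : B →* Rˣ) (s : S) (b c : B) (h : (b : S) * s = s * c)
    (hl : l b ≠ l' c) : linR hB l * dl R s * linR hB l' = 0 := by
  have h1 : ((l b : Rˣ) : R) • (linR hB l * dl R s * linR hB l') =
      ((l' c : Rˣ) : R) • (linR hB l * dl R s * linR hB l') := by
    rw [← smul_mul_assoc, ← smul_mul_assoc, ← linR_mul_dl, mul_assoc (linR hB l), ← dl_mul, h,
      dl_mul, ← mul_assoc, mul_assoc _ _ (linR hB l'), dl_mul_linR, mul_smul_comm]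
  have h2 : (((l b : Rˣ) : R) - ((l' c : Rˣ) : R)) • (linR hB l * dl R s * linR hB l') = 0 := by
    rw [sub_smul, h1, sub_self]
  rcases smul_eq_zero.1 h2 with h3 | h3
  · exact absurd (Units.ext (sub_eq_zero.1 h3)) hl
  · exact h3

theorem coeff_linR (l : B →* Rˣ) (s : B) :
    (linR hB l).coeff (s : S) = ((hB.unit⁻¹ : Rˣ) : R) * ((l s⁻¹ : Rˣ) : R) := by
  classical
  unfold linR
  rw [coeff_smul, Finsupp.smul_apply, coeff_sum, Finsupp.finsetSum_apply, Finset.sum_eq_single s]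
  · rw [coeff_smul, Finsupp.smul_apply, coeff_dl, if_pos rfl, smul_eq_mul, smul_eq_mul, mul_one]
  · intro b _ hb
    rw [coeff_smul, Finsupp.smul_apply, coeff_dl, if_neg, smul_zero]
    intro h
    exact hb (Subtype.ext h)
  · intro h
    exact absurd (Finset.mem_univ _) h

theorem coeff_linR_zero (l : B →* Rˣ) {s : S} (hs : s ∉ B) : (linR hB l).coeff s = 0 := by
  classical
  unfold linR
  rw [coeff_smul, Finsupp.smul_apply, coeff_sum, Finsupp.finsetSum_apply, Finset.sum_eq_zero,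
    smul_zero]
  intro b _
  rw [coeff_smul, Finsupp.smul_apply, coeff_dl, if_neg, smul_zero]
  intro h
  exact hs (h ▸ b.2)

/-- Two linear characters of a subgroup which induce different irreducible modules of `S`. -/
structure MonoR (l : Bool → (B →* Rˣ)) : Prop where
  card : IsUnit ((Fintype.card B : ℕ) : R)
  ne : ∃ b, l false b ≠ l true b
  mack : ∀ (a a' : Bool) (s : S), s ∉ B → ∃ b c : B, (b : S) * s = s * c ∧ l a b ≠ l a' c

/-- The pair of idempotents given by two linear characters of a subgroup. -/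
noncomputable def MonoR.pair [IsDomain R] [Fintype S] {l : Bool → (B →* Rˣ)} (M : MonoR l) :
    Pair R S where
  ε a := linR M.card (l a)
  u _ := M.card.unit
  idem a := linR_idem M.card _
  rank a s := by
    by_cases hs : s ∈ B
    · refine ⟨((l a ⟨s, hs⟩ : Rˣ) : R), ?_⟩
      have h1 := linR_mul_dl M.card (l a) ⟨s, hs⟩
      rw [h1, smul_mul_assoc, linR_idem]
    · obtain ⟨b, c, h, hl⟩ := M.mack a a s hs
      exact ⟨0, by rw [linR_dl_linR M.card _ _ s b c h hl, zero_smul]⟩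
  orth a a' s haa := by
    by_cases hs : s ∈ B
    · have h1 := linR_mul_dl M.card (l a) ⟨s, hs⟩
      rw [h1, smul_mul_assoc]
      obtain ⟨b, hb⟩ : ∃ b, l a b ≠ l a' b := by
        obtain ⟨b, hb⟩ := M.ne
        rcases a with _ | _ <;> rcases a' with _ | _
        · exact absurd rfl haa
        · exact ⟨b, hb⟩
        · exact ⟨b, hb.symm⟩
        · exact absurd rfl haa
      have h2 := linR_dl_linR M.card (l a) (l a') 1 b b (by rw [mul_one, one_mul]) hb
      rw [dl_one, mul_one] at h2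
      rw [h2, smul_zero]
    · obtain ⟨b, c, h, hl⟩ := M.mack a a' s hs
      exact linR_dl_linR M.card _ _ s b c h hl
  trace a := by
    classical
    rw [Finset.sum_mul]
    have h1 : ∀ s : S, cj s (linR M.card (l a)) * linR M.card (l a) =
        if s ∈ B then linR M.card (l a) else 0 := by
      intro s
      unfold cj
      by_cases hs : s ∈ B
      · rw [if_pos hs]
        have h1 := dl_mul_linR M.card (l a) ⟨s, hs⟩
        have h2 := dl_mul_linR M.card (l a) ⟨s, hs⟩⁻¹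
        have h3 : (((⟨s, hs⟩ : B)⁻¹ : B) : S) = s⁻¹ := rfl
        rw [h3] at h2
        rw [mul_assoc _ (dl R s⁻¹), h2, h1, smul_mul_smul_comm, ← Units.val_mul, ← map_mul,
          mul_inv_cancel, map_one, Units.val_one, one_smul, linR_idem]
      · rw [if_neg hs]
        have hs' : s⁻¹ ∉ B := fun h => hs (by simpa using B.inv_mem h)
        obtain ⟨b, c, h, hl⟩ := M.mack a a s⁻¹ hs'
        rw [mul_assoc, mul_assoc, ← mul_assoc (linR M.card (l a)),
          linR_dl_linR M.card _ _ s⁻¹ b c h hl, mul_zero]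
    rw [Finset.sum_congr rfl fun s _ => h1 s, ← Finset.sum_filter, Finset.sum_const,
      ← Nat.cast_smul_eq_nsmul R, IsUnit.unit_spec]
    congr 2
    rw [Fintype.card_subtype]
  unit a := ⟨((1 : B) : S), by
    rw [coeff_linR]
    exact (Units.isUnit _).mul (Units.isUnit _)⟩

/-- the powers of the two characters -/
def powChar (l : Bool → (B →* Rˣ)) (N : ℕ) : Bool → (B →* Rˣ) :=
  fun a => (powMonoidHom N).comp (l a)

theorem MonoR.pow {l : Bool → (B →* Rˣ)} (M : MonoR l) {N : ℕ}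
    (hN : N.Coprime (Fintype.card B)) : MonoR (powChar l N) := by
  have key : ∀ (a a' : Bool) (b c : B), l a b ≠ l a' c → (l a b) ^ N ≠ (l a' c) ^ N := by
    intro a a' b c h h1
    apply h
    have h2 : ∀ (a : Bool) (b : B), (l a b) ^ Fintype.card B = 1 := by
      intro a b
      rw [← map_pow, pow_card_eq_one, map_one]
    have h3 : (l a b * (l a' c)⁻¹) ^ N = 1 := by
      rw [mul_pow, inv_pow, h1, mul_inv_cancel]
    have h4 : (l a b * (l a' c)⁻¹) ^ Fintype.card B = 1 := by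
      rw [mul_pow, inv_pow, h2, h2, inv_one, mul_one]
    have h5 := pow_gcd_eq_one.2 ⟨h3, h4⟩
    rw [Nat.Coprime.gcd_eq_one hN, pow_one] at h5
    exact mul_inv_eq_one.1 h5
  refine ⟨M.card, ?_, ?_⟩
  · obtain ⟨b, hb⟩ := M.ne
    exact ⟨b, key _ _ _ _ hb⟩
  · intro a a' s hs
    obtain ⟨b, c, h, hl⟩ := M.mack a a' s hs
    exact ⟨b, c, h, key _ _ _ _ hl⟩

/-- compatibility of the two pairs with the Brauer homomorphism -/
theorem MonoR.compat [IsDomain R] [Fintype S] {l : Bool → (B →* Rˣ)} (M : MonoR l) {ℓ : ℕ}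
    [Fact ℓ.Prime] {k : Type*} [Field k] [CharP k ℓ] (π : R →+* k) {r : ℕ}
    (hN : (ℓ ^ r).Coprime (Fintype.card B)) (a : Bool) (s : S) :
    π ((((M.pow hN).pair.u a)⁻¹ : Rˣ) : R) * π (((M.pow hN).pair.ε a).coeff s) =
      (π (((M.pair.u a)⁻¹ : Rˣ) : R) * π ((M.pair.ε a).coeff s)) ^ (ℓ ^ r) := by
  have h1 : π (((M.card.unit)⁻¹ : Rˣ) : R) = π (((M.card.unit)⁻¹ : Rˣ) : R) ^ (ℓ ^ r) := by
    have h2 : π ((M.card.unit : Rˣ) : R) = π ((M.card.unit : Rˣ) : R) ^ (ℓ ^ r) := by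
      rw [IsUnit.unit_spec, map_natCast]
      have h3 := map_natCast (iterateFrobenius k ℓ r) (Fintype.card B)
      rw [iterateFrobenius_def] at h3
      exact h3.symm
    have h4 : π (((M.card.unit)⁻¹ : Rˣ) : R) * π ((M.card.unit : Rˣ) : R) = 1 := by
      rw [← map_mul, Units.inv_mul, map_one]
    have h5 : π (((M.card.unit)⁻¹ : Rˣ) : R) ^ (ℓ ^ r) * π ((M.card.unit : Rˣ) : R) = 1 := by
      conv_lhs => rw [h2]
      rw [← mul_pow, h4, one_pow]
    have h6 : π ((M.card.unit : Rˣ) : R) ≠ 0 := fun h => by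
      rw [h, mul_zero] at h4
      exact zero_ne_one h4
    exact mul_right_cancel₀ h6 (h4.trans h5.symm)
  show π (((M.card.unit)⁻¹ : Rˣ) : R) * π ((linR M.card (powChar l (ℓ ^ r) a)).coeff s) =
    (π (((M.card.unit)⁻¹ : Rˣ) : R) * π ((linR M.card (l a)).coeff s)) ^ (ℓ ^ r)
  by_cases hs : s ∈ B
  · have h2 := coeff_linR M.card (powChar l (ℓ ^ r) a) ⟨s, hs⟩
    have h3 := coeff_linR M.card (l a) ⟨s, hs⟩
    have h4 : ((⟨s, hs⟩ : B) : S) = s := rfl
    rw [h4] at h2 h3
    rw [h2, h3, mul_pow, ← h1, map_mul, map_mul, mul_pow, ← h1]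
    congr 2
    rw [← map_pow, ← Units.val_pow_eq_pow_val]
    rfl
  · rw [coeff_linR_zero M.card _ hs, coeff_linR_zero M.card _ hs, map_zero, mul_zero,
      zero_pow]
    exact pow_ne_zero _ (Fact.out : ℓ.Prime).ne_zero

end

end Pool.Agent.UBlocks
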