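import Pool.Agent.UBlocks.Index
import Pool.Agent.MP_a15589_al.Sanity

/-!
# Brauer's k(B) conjecture and the groups `F_r^(pairs) : S_n`
-/

set_option autoImplicit false

namespace Pool.Agent.UBlocks

open MonoidAlgebra MP_a15589_al

/-- Every block of every finite group is, up to a full matrix algebra, a block of one of the
groups `F_r^(pairs) : S_n`, with an isomorphic defect group. -/
theorem exists_factor (p r : ℕ) (hp : p.Prime) (hr : r.Prime) (hpr : r ≠ p) (k : Type*) [Field k]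
    [IsAlgClosed k] [CharP k p] (G : Type*) [Group G] [Finite G] :
    ∃ (n m : ℕ) (σ : G →* GraphGroup r n)
      (Φ : Matrix (Fin m) (Fin m) (MonoidAlgebra k G) →ₙₐ[k] MonoidAlgebra k (GraphGroup r n)),
      m * Nat.card G = n.factorial ∧ Function.Injective σ ∧ IsFactor Φ ∧
      ∀ e : MonoidAlgebra k G, IsBlock e →
        IsBlock (Φ (Matrix.scalar (Fin m) e)) ∧
        blockDim (Φ (Matrix.scalar (Fin m) e)) = blockDim e ∧
        ∀ D : Subgroup G, IsDefect e D → IsDefect (Φ (Matrix.scalar (Fin m) e)) (D.map σ) := by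
  classical
  obtain ⟨n, Γ, ⟨ε⟩⟩ := frucht G
  have h0 : NeZero r := ⟨hr.ne_zero⟩
  have h1 : Fact (1 < r) := ⟨hr.one_lt⟩
  have hrk : (r : k) ≠ 0 := by
    intro h
    rw [CharP.cast_eq_zero_iff k p] at h
    rcases (Nat.dvd_prime hr).1 h with h2 | h2
    · exact hp.one_lt.ne' h2
    · exact hpr h2.symm
  have h2 : NeZero (r : k) := ⟨hrk⟩
  obtain ⟨ζ, hζ⟩ := HasEnoughRootsOfUnity.exists_primitiveRoot k r
  have : Finite (GraphGroup r n) := Finite.of_equiv _ SemidirectProduct.equivProd.symm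
  have : Fintype (GraphGroup r n) := Fintype.ofFinite _
  have : Fintype G := Fintype.ofFinite _
  let C := graphCliff hζ (isUnit_iff_ne_zero.2 hrk) Γ ε
  have : Fintype (GraphGroup r n ⧸ C.T) := Fintype.ofFinite _
  let f : GraphGroup r n ⧸ C.T ≃ Fin (Fintype.card (GraphGroup r n ⧸ C.T)) := Fintype.equivFin _
  refine ⟨n, Fintype.card (GraphGroup r n ⧸ C.T), C.σ, C.PhiFin f, ?_, C.sigma_injective,
    C.isFactor_PhiFin f, ?_⟩
  · rw [← graph_index hζ (isUnit_iff_ne_zero.2 hrk) Γ ε,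
      ← Nat.card_eq_fintype_card (α := GraphGroup r n ⧸ C.T)]
  · intro e he
    rw [C.PhiFin_scalar f]
    exact ⟨(isBlk_iff _).2 (C.up_isBlk ((isBlk_iff _).1 he)), blockDim_up C e,
      fun D hD => C.isDefect_up he hD⟩

/-- The asymptotic form of Brauer's inequality for the groups `F_r^(pairs) : S_n` is equivalent
to Brauer's inequality for all finite groups. -/
theorem weak_iff_strong (p r : ℕ) (hp : p.Prime) (hr : r.Prime) (hpr : r ≠ p) (k : Type) [Field k]
    [IsAlgClosed k] [CharP k p] (𝒟 : ∀ (H : Type) [Group H], Prop) (h𝒟 : ClosedClass 𝒟)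
    (α : ℝ) (hα : 1 ≤ α) :
    WeakBound k (fun X _ => ∃ n : ℕ, Nonempty (X ≃* GraphGroup r n)) 𝒟 α ↔
      StrongBound k 𝒟 α := by
  have h0 : NeZero r := ⟨hr.ne_zero⟩
  refine ⟨fun hweak => ?_, fun h => strong_weak k _ 𝒟 h⟩
  have hall : WeakBound k (fun _ _ => True) 𝒟 α := by
    intro ε hε
    obtain ⟨C, hC⟩ := hweak ε hε
    refine ⟨C, fun G _ _ _ e he D hD h𝒟D => ?_⟩
    obtain ⟨n, m, σ, Φ, -, hσ, -, hΦ⟩ := exists_factor p r hp hr hpr k G
    obtain ⟨h1, h2, h3⟩ := hΦ e he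
    have : Finite (GraphGroup r n) := Finite.of_equiv _ SemidirectProduct.equivProd.symm
    have hcard : Nat.card (D.map σ) = Nat.card D :=
      (Nat.card_congr (D.equivMapOfInjective σ hσ).toEquiv).symm
    have h4 := hC (GraphGroup r n) ⟨n, ⟨MulEquiv.refl _⟩⟩ _ h1 (D.map σ) (h3 D hD)
      (h𝒟.sub _ D ((D.equivMapOfInjective σ hσ).symm : D.map σ →* D)
        (D.equivMapOfInjective σ hσ).symm.injective h𝒟D)
    rwa [h2, hcard] at h4
  obtain ⟨hs, hu, hd⟩ := cyclic_family p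
  have : ∀ q : {q : ℕ // q.Prime ∧ q ≠ p}, Finite (Multiplicative (ZMod (q : ℕ))) := fun q => by
    have : NeZero (q : ℕ) := ⟨q.2.1.ne_zero⟩
    infer_instance
  refine (form_full p hp k {q : ℕ // q.Prime ∧ q ≠ p}
    (fun q => Multiplicative (ZMod (q : ℕ))) hu 𝒟 h𝒟 (Or.inr (hd hp)) α hα).1 ?_
  intro ε hε
  obtain ⟨C, hC⟩ := hall ε hε
  exact ⟨C, fun X _ _ _ => hC X trivial⟩

end Pool.Agent.UBlocks
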