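import Pool.Agent.UBlocks.AffStab
import Pool.Agent.UBlocks.KB

/-!
# Brauer's k(B) conjecture and groups with exactly one proper nontrivial normal subgroup
-/

set_option autoImplicit false

namespace Pool.Agent.UBlocks

open MonoidAlgebra MP_a15589_al

theorem Stab.exists_block {k V G L : Type*} [Field k] [IsAlgClosed k] [CommGroup V] [Group G]
    [Group L] [Fintype V] [Finite G] [Finite L] {φ : L →* MulAut V} (S : Stab k G φ)
    {e : MonoidAlgebra k G} (he : IsBlock e) : ∃ e' : MonoidAlgebra k (V ⋊[φ] L), IsBlock e' ∧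
      blockDim e' = blockDim e ∧
      ∀ D : Subgroup G, IsDefect e D → IsDefect e' (D.map S.sg) := by
  classical
  have : Finite (V ⋊[φ] L) := Finite.of_equiv _ SemidirectProduct.equivProd.symm
  have : Fintype (V ⋊[φ] L) := Fintype.ofFinite _
  have : Fintype G := Fintype.ofFinite _
  have : Fintype ((V ⋊[φ] L) ⧸ S.cliff.T) := Fintype.ofFinite _
  exact ⟨S.cliff.up e, (isBlk_iff _).2 (S.cliff.up_isBlk ((isBlk_iff _).1 he)),
    blockDim_up S.cliff e, fun D hD => S.cliff.isDefect_up he hD⟩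

theorem finite_symMat (r n : ℕ) [NeZero r] : Finite (Multiplicative (symMat r n)) :=
  inferInstanceAs (Finite (symMat r n))

theorem finite_affAlt (r n : ℕ) [NeZero r] : Finite (AffAlt r n) := by
  have := finite_symMat r n
  exact Finite.of_equiv _ SemidirectProduct.equivProd.symm

/-- The Clifford data for a finite group `G` and `n ≥ 2 (|G| + 4)²`. -/
theorem exists_affStab {r : ℕ} [Fact r.Prime] (hr2 : r ≠ 2) (G : Type*) [Group G] [Finite G]
    {n : ℕ} (hn : 2 * (Nat.card G + 4) ^ 2 ≤ n) [Fintype (Multiplicative (symMat r n))]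
    {R : Type*} [CommRing R] [IsDomain R] {ζ : R} (hζ : IsPrimitiveRoot ζ r)
    (hr : IsUnit (r : R)) :
    Nonempty (Stab R G ((permMat r n).comp (alternatingGroup (Fin n)).subtype)) := by
  classical
  have h2 := two_ne (r := r) hr2
  have h1 : (1 : ZMod r) ≠ -1 := by
    intro h
    apply h2
    linear_combination h
  obtain ⟨C, ι, hι, halt, hs, hd, hC, hfix, hex⟩ := exists_coloring G (ZMod r) h1 n hn
  have hn3 : 3 ≤ n := by
    have h3 : 2 * (Nat.card G + 4) ^ 2 = 2 * Nat.card G ^ 2 + 16 * Nat.card G + 32 := by ring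
    omega
  exact ⟨affStab hr2 hζ hr hn3 hι halt hs hd hC hfix hex⟩

/-- The asymptotic form of Brauer's inequality for those of the groups `AffAlt r n`, `n ∈ 𝒩`,
which have exactly one proper nontrivial normal subgroup is equivalent to Brauer's inequality for
all finite groups. -/
theorem weak_iff_strong_aff (p r : ℕ) (hp : p.Prime) (hr : r.Prime) (hr2 : r ≠ 2) (hpr : r ≠ p)
    (k : Type) [Field k] [IsAlgClosed k] [CharP k p] (𝒩 : Set ℕ)
    (h𝒩 : ∀ m : ℕ, ∃ n ∈ 𝒩, m ≤ n ∧ ¬ r ∣ (n - 1) * (n - 2))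
    (𝒟 : ∀ (H : Type) [Group H], Prop) (h𝒟 : ClosedClass 𝒟) (α : ℝ) (hα : 1 ≤ α) :
    WeakBound k (fun X _ => OneNormal X ∧ ∃ n ∈ 𝒩, Nonempty (X ≃* AffAlt r n)) 𝒟 α ↔
      StrongBound k 𝒟 α := by
  classical
  have h0 : NeZero r := ⟨hr.ne_zero⟩
  have h1 : Fact r.Prime := ⟨hr⟩
  have hrk : (r : k) ≠ 0 := by
    intro h
    rw [CharP.cast_eq_zero_iff k p] at h
    rcases (Nat.dvd_prime hr).1 h with h2 | h2
    · exact hp.one_lt.ne' h2
    · exact hpr h2.symm
  have h2 : NeZero (r : k) := ⟨hrk⟩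
  obtain ⟨ζ, hζ⟩ := HasEnoughRootsOfUnity.exists_primitiveRoot k r
  refine ⟨fun hweak => ?_, fun h => strong_weak k _ 𝒟 h⟩
  have hall : WeakBound k (fun _ _ => True) 𝒟 α := by
    intro ε hε
    obtain ⟨C, hC⟩ := hweak ε hε
    refine ⟨C, fun G _ _ _ e he D hD h𝒟D => ?_⟩
    obtain ⟨n, hn𝒩, hn, hrn⟩ := h𝒩 (2 * (Nat.card G + 4) ^ 2)
    have hn8 : 8 ≤ n := by
      have h3 : 2 * (Nat.card G + 4) ^ 2 = 2 * Nat.card G ^ 2 + 16 * Nat.card G + 32 := by ring
      omega
    have := finite_symMat r n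
    have := finite_affAlt r n
    have : Fintype (Multiplicative (symMat r n)) := Fintype.ofFinite _
    obtain ⟨S⟩ := exists_affStab hr2 G hn hζ (isUnit_iff_ne_zero.2 hrk)
    obtain ⟨e', he', hdim, hdef⟩ := S.exists_block he
    have hσ : Function.Injective S.sg := S.sg_inj
    have hcard : Nat.card (D.map S.sg) = Nat.card D :=
      (Nat.card_congr (D.equivMapOfInjective S.sg hσ).toEquiv).symm
    have h4 := hC (AffAlt r n) ⟨oneNormal_affAlt hr2 hn8 hrn, n, hn𝒩, ⟨MulEquiv.refl _⟩⟩ _ he'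
      (D.map S.sg) (hdef D hD)
      (h𝒟.sub _ D ((D.equivMapOfInjective S.sg hσ).symm : D.map S.sg →* D)
        (D.equivMapOfInjective S.sg hσ).symm.injective h𝒟D)
    rwa [hdim, hcard] at h4
  obtain ⟨hs, hu, hd⟩ := cyclic_family p
  have : ∀ q : {q : ℕ // q.Prime ∧ q ≠ p}, Finite (Multiplicative (ZMod (q : ℕ))) := fun q => by
    have : NeZero (q : ℕ) := ⟨q.2.1.ne_zero⟩
    infer_instance
  refine (form_full p hp k {q : ℕ // q.Prime ∧ q ≠ p}
    (fun q => Multiplicative (ZMod (q : ℕ))) hu 𝒟 h𝒟 (Or.inr (hd hp)) α hα).1 ?_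
  intro ε hε
  obtain ⟨C, hC⟩ := hall ε hε
  exact ⟨C, fun X _ _ _ => hC X trivial⟩

end Pool.Agent.UBlocks
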