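import Pool.Agent.UBlocks.Broue
import Pool.Agent.UBlocks.AffStab
import Pool.Agent.UBlocks.KB2

/-!
# Broué's conjecture and groups with exactly one proper nontrivial normal subgroup
-/

set_option autoImplicit false

namespace Pool.Agent.UBlocks

open MonoidAlgebra IsLocalRing

universe u

theorem broue_affAlt (ℓ r : ℕ) (hℓ : ℓ.Prime) (hr : r.Prime) (hr2 : r ≠ 2) (hne : r ≠ ℓ)
    (G : Type) [Group G] [Finite G] (n : ℕ) (hn : 2 * (Nat.card G + 4) ^ 2 ≤ n)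
    (hrn : ¬ r ∣ (n - 1) * (n - 2)) :
    OneNormal (AffAlt r n) ∧ ∀ (Λ : Type u) [CommRing Λ] [IsDomain Λ] [IsLocalRing Λ]
      [CharP (ResidueField Λ) ℓ] (ζ : Λ), IsPrimitiveRoot ζ r →
        Broue ℓ Λ (AffAlt r n) → Broue ℓ Λ G := by
  have h0 : NeZero r := ⟨hr.ne_zero⟩
  have h1 : Fact r.Prime := ⟨hr⟩
  have h2 : Fact ℓ.Prime := ⟨hℓ⟩
  have hn8 : 8 ≤ n := by
    have h3 : 2 * (Nat.card G + 4) ^ 2 = 2 * Nat.card G ^ 2 + 16 * Nat.card G + 32 := by ring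
    omega
  refine ⟨oneNormal_affAlt hr2 hn8 hrn, ?_⟩
  intro Λ _ _ _ _ ζ hζ h
  have hu : IsUnit (r : Λ) := by
    rw [← residue_ne_zero_iff_isUnit, map_natCast, Ne, CharP.cast_eq_zero_iff (ResidueField Λ) ℓ]
    intro h
    rcases (Nat.dvd_prime hr).1 h with h2 | h2
    · exact hℓ.one_lt.ne' h2
    · exact hne h2.symm
  have := finite_symMat r n
  have : Fintype (Multiplicative (symMat r n)) := Fintype.ofFinite _
  obtain ⟨S⟩ := exists_affStab hr2 G hn hζ hu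
  refine S.transfer ?_ h
  intro h4
  have h5 : IsUnit ((Fintype.card (Multiplicative (symMat r n)) : ℕ) : Λ) := S.hV
  rw [← residue_ne_zero_iff_isUnit, map_natCast, Ne,
    CharP.cast_eq_zero_iff (ResidueField Λ) ℓ] at h5
  exact h5 h4

end Pool.Agent.UBlocks
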