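import Pool.Agent.UBlocks.Borel

/-!
# Blocks of defect zero of the groups `PSL_2(q)`
-/

set_option autoImplicit false

namespace Pool.Agent.UBlocks

open MonoidAlgebra Matrix

open scoped MatrixGroups

section

variable {F : Type*} [Field F]

theorem ent_mul (a b : SL(2, F)) (i j : Fin 2) :
    (a * b).1 i j = a.1 i 0 * b.1 0 j + a.1 i 1 * b.1 1 j := by
  have h : (a * b).1 = a.1 * b.1 := rfl
  rw [h, Matrix.mul_apply, Fin.sum_univ_two]

theorem ent_det (a : SL(2, F)) : a.1 0 0 * a.1 1 1 - a.1 0 1 * a.1 1 0 = 1 := by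
  have h1 := a.2
  rwa [Matrix.det_fin_two] at h1

theorem ent_ext {a b : SL(2, F)} (h00 : a.1 0 0 = b.1 0 0) (h01 : a.1 0 1 = b.1 0 1)
    (h10 : a.1 1 0 = b.1 1 0) (h11 : a.1 1 1 = b.1 1 1) : a = b := by
  apply Subtype.ext
  ext i j
  fin_cases i <;> fin_cases j <;> assumption

/-- the matrix with given entries -/
def mat (a b c d : F) (h : a * d - b * c = 1) : SL(2, F) :=
  ⟨!![a, b; c, d], by rw [Matrix.det_fin_two_of, h]⟩

variable (F)

/-- the upper triangular matrices of determinant one -/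
def Bor : Subgroup SL(2, F) where
  carrier := {g | g.1 1 0 = 0}
  mul_mem' {a b} ha hb := by
    have ha' : a.1 1 0 = 0 := ha
    have hb' : b.1 1 0 = 0 := hb
    show (a * b).1 1 0 = 0
    rw [ent_mul, ha', hb']
    ring
  one_mem' := by
    show (1 : SL(2, F)).1 1 0 = 0
    simp
  inv_mem' {a} ha := by
    have ha' : a.1 1 0 = 0 := ha
    show a⁻¹.1 1 0 = 0
    rw [Matrix.SpecialLinearGroup.SL2_inv_expl]
    simp [ha']

variable {F}

theorem mem_Bor {g : SL(2, F)} : g ∈ Bor F ↔ g.1 1 0 = 0 := Iff.rfl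

theorem Bor.mul_eq (g : Bor F) : g.1.1 0 0 * g.1.1 1 1 = 1 := by
  have h1 := ent_det g.1
  have h2 : g.1.1 1 0 = 0 := g.2
  rwa [h2, mul_zero, sub_zero] at h1

/-- the upper left entry of an upper triangular matrix -/
noncomputable def Bor.diag : Bor F →* Fˣ where
  toFun g := Units.mkOfMulEqOne (g.1.1 0 0) (g.1.1 1 1) (Bor.mul_eq g)
  map_one' := by ext; simp
  map_mul' a b := by
    ext
    have hb' : b.1.1 1 0 = 0 := b.2
    show (a.1 * b.1).1 0 0 = a.1.1 0 0 * b.1.1 0 0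
    rw [ent_mul, hb']
    ring

theorem Bor.diag_val (g : Bor F) : ((Bor.diag g : Fˣ) : F) = g.1.1 0 0 := rfl

variable (F) in
/-- the image in `PSL_2(F)` -/
def PBor : Subgroup PSL(2, F) :=
  (Bor F).map (QuotientGroup.mk' (Subgroup.center SL(2, F)))

/-- central elements of `SL_2(F)` -/
theorem mem_cen {g : SL(2, F)} (hg : g ∈ Subgroup.center SL(2, F)) :
    ∃ r : F, r ^ 2 = 1 ∧ g.1 0 0 = r ∧ g.1 0 1 = 0 ∧ g.1 1 0 = 0 ∧ g.1 1 1 = r := by
  obtain ⟨r, hr, h⟩ := Matrix.SpecialLinearGroup.mem_center_iff.1 hg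
  refine ⟨r, by simpa using hr, ?_, ?_, ?_, ?_⟩
  all_goals
    have h2 : g.1 = scalar (Fin 2) r := h.symm
    rw [h2]
    simp

theorem mem_PBor {g : SL(2, F)} : (g : PSL(2, F)) ∈ PBor F ↔ g ∈ Bor F := by
  constructor
  · rintro ⟨h, hh, he⟩
    have h1 : (h : PSL(2, F)) = g := he
    obtain ⟨r, hr, h00, h01, h10, h11⟩ := mem_cen (QuotientGroup.eq.1 h1)
    have h2 : g = h * (h⁻¹ * g) := by group
    rw [h2]
    refine (Bor F).mul_mem hh ?_
    exact h10
  · intro h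
    exact ⟨g, h, rfl⟩

/-- a linear character of the image of the upper triangular matrices -/
noncomputable def PBor.char {M : Type*} [CommGroup M] (θ : Fˣ →* M) (hθ : θ (-1) = 1) :
    PBor F →* M :=
  ((QuotientGroup.mk' (Subgroup.center SL(2, F))).subgroupMap (Bor F)).liftOfSurjective
    (MonoidHom.subgroupMap_surjective _ _) ⟨θ.comp Bor.diag, by
      intro g hg
      have h1 : (g.1 : PSL(2, F)) = 1 := congrArg Subtype.val hg
      obtain ⟨r, hr, h00, -, -, -⟩ := mem_cen ((QuotientGroup.eq_one_iff _).1 h1)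
      rw [MonoidHom.mem_ker, MonoidHom.comp_apply]
      have h2 : r = 1 ∨ r = -1 := by
        have h3 : (r - 1) * (r + 1) = 0 := by linear_combination hr
        rcases mul_eq_zero.1 h3 with h4 | h4
        · exact Or.inl (sub_eq_zero.1 h4)
        · exact Or.inr (eq_neg_of_add_eq_zero_left h4)
      rcases h2 with h2 | h2
      · have h3 : Bor.diag g = 1 := Units.ext (by rw [Bor.diag_val, h00, h2, Units.val_one])
        rw [h3, map_one]
      · have h3 : Bor.diag g = -1 := Units.ext (by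
          rw [Bor.diag_val, h00, h2, Units.val_neg, Units.val_one])
        rw [h3, hθ]⟩

theorem PBor.char_mk {M : Type*} [CommGroup M] (θ : Fˣ →* M) (hθ : θ (-1) = 1) (g : Bor F) :
    PBor.char θ hθ ⟨(g.1 : PSL(2, F)), mem_PBor.2 g.2⟩ = θ (Bor.diag g) := by
  have h1 : (⟨(g.1 : PSL(2, F)), mem_PBor.2 g.2⟩ : PBor F) =
      (QuotientGroup.mk' (Subgroup.center SL(2, F))).subgroupMap (Bor F) g := rfl
  rw [h1]
  exact MonoidHom.liftOfRightInverse_comp_apply _ _ _ _ _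

theorem ent_one : (1 : SL(2, F)).1 0 0 = 1 ∧ (1 : SL(2, F)).1 0 1 = 0 ∧
    (1 : SL(2, F)).1 1 0 = 0 ∧ (1 : SL(2, F)).1 1 1 = 1 := by simp

theorem ent_pow (h : SL(2, F)) (r : F) (h00 : h.1 0 0 = r) (h10 : h.1 1 0 = 0)
    (h11 : h.1 1 1 = r) (n : ℕ) : (h ^ n).1 0 0 = r ^ n ∧
      r * (h ^ n).1 0 1 = n * r ^ n * h.1 0 1 ∧ (h ^ n).1 1 0 = 0 ∧ (h ^ n).1 1 1 = r ^ n := by
  induction n with
  | zero =>
    obtain ⟨a, b, c, d⟩ := ent_one (F := F)
    rw [pow_zero]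
    refine ⟨by rw [a, pow_zero], by rw [b]; simp, c, by rw [d, pow_zero]⟩
  | succ n ih =>
    obtain ⟨a, b, c, d⟩ := ih
    rw [pow_succ]
    refine ⟨?_, ?_, ?_, ?_⟩
    · rw [ent_mul, a, h00, h10]; ring
    · rw [ent_mul, a, h11]
      push_cast
      linear_combination r * b
    · rw [ent_mul, c, d, h10]; ring
    · rw [ent_mul, c, d, h11]; ring

theorem pow_central {q : ℕ} [Fact q.Prime] (h : SL(2, ZMod q)) (r : ZMod q)
    (h00 : h.1 0 0 = r) (h10 : h.1 1 0 = 0) (h11 : h.1 1 1 = r) (hr : r ≠ 0) :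
    ((h ^ q : SL(2, ZMod q)) : PSL(2, ZMod q)) = 1 := by
  obtain ⟨a, b, c, d⟩ := ent_pow h r h00 h10 h11 q
  have b' : (h ^ q).1 0 1 = 0 := by
    rw [ZMod.natCast_self, zero_mul, zero_mul] at b
    exact (mul_eq_zero.1 b).resolve_left hr
  rw [QuotientGroup.eq_one_iff, Subgroup.mem_center_iff]
  intro g
  apply ent_ext
  all_goals
    simp only [ent_mul, a, b', c, d]
    ring

theorem mk_pow_eq_one {q : ℕ} [Fact q.Prime] {m : ℕ} (hm : q = 2 * m + 1)
    (x : PBor (ZMod q)) : x ^ (m * q) = 1 := by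
  obtain ⟨y, g, hg, rfl⟩ := x
  apply Subtype.ext
  show ((g : PSL(2, ZMod q)) ^ (m * q)) = 1
  rw [pow_mul, ← QuotientGroup.mk_pow, ← QuotientGroup.mk_pow]
  let b : Bor (ZMod q) := ⟨g, hg⟩
  have hd : ((Bor.diag (b ^ m) : (ZMod q)ˣ) : ZMod q) ^ 2 = 1 := by
    rw [map_pow, Units.val_pow_eq_pow_val, ← pow_mul, mul_comm m 2,
      show 2 * m = q - 1 by omega]
    exact ZMod.pow_card_sub_one_eq_one (Units.ne_zero _)
  have h1 : ((b ^ m : Bor (ZMod q)) : SL(2, ZMod q)) = g ^ m := rfl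
  have h2 := Bor.mul_eq (b ^ m)
  rw [Bor.diag_val] at hd
  rw [h1] at h2 hd
  have h3 : (g ^ m).1 0 0 ≠ 0 := by
    intro h
    rw [h] at hd
    simp at hd
  refine pow_central _ ((g ^ m).1 0 0) rfl ((Bor (ZMod q)).pow_mem hg m) ?_ h3
  have h4 : (g ^ m).1 0 0 * (g ^ m).1 1 1 = (g ^ m).1 0 0 * (g ^ m).1 0 0 := by
    rw [h2, ← pow_two, hd]
  exact mul_left_cancel₀ h3 h4

theorem card_ne_zero {q p m : ℕ} [Fact q.Prime] (hm : q = 2 * m + 1) (hp : p.Prime)
    (hpm : ¬ p ∣ m * q) {k : Type*} [Field k] [CharP k p] [Fintype (PBor (ZMod q))] :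
    (Fintype.card (PBor (ZMod q)) : k) ≠ 0 := by
  intro h
  rw [CharP.cast_eq_zero_iff k p] at h
  have : Fact p.Prime := ⟨hp⟩
  obtain ⟨x, hx⟩ := exists_prime_orderOf_dvd_card p h
  apply hpm
  rw [← hx]
  exact orderOf_dvd_of_pow_eq_one (mk_pow_eq_one hm x)

/-- the matrices which show that the induced modules are irreducible -/
theorem exists_conj (g : SL(2, F)) (hg : g.1 1 0 ≠ 0) (t : Fˣ) :
    ∃ b c : Bor F, b.1 * g = g * c.1 ∧ Bor.diag b = t ∧ Bor.diag c = t⁻¹ := by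
  have ht : (t : F) ≠ 0 := t.ne_zero
  have h1 := ent_det g
  let b := mat (t : F) (((t : F)⁻¹ - t) * g.1 0 0 / g.1 1 0) 0 (t : F)⁻¹ (by field_simp; ring)
  let c := mat (t : F)⁻¹ (((t : F)⁻¹ - t) * g.1 1 1 / g.1 1 0) 0 (t : F) (by field_simp; ring)
  have b00 : b.1 0 0 = t := rfl
  have b01 : b.1 0 1 = ((t : F)⁻¹ - t) * g.1 0 0 / g.1 1 0 := rfl
  have b10 : b.1 1 0 = 0 := rfl
  have b11 : b.1 1 1 = (t : F)⁻¹ := rfl
  have c00 : c.1 0 0 = (t : F)⁻¹ := rfl
  have c01 : c.1 0 1 = ((t : F)⁻¹ - t) * g.1 1 1 / g.1 1 0 := rfl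
  have c10 : c.1 1 0 = 0 := rfl
  have c11 : c.1 1 1 = (t : F) := rfl
  refine ⟨⟨b, b10⟩, ⟨c, c10⟩, ?_, ?_, ?_⟩
  · show b * g = g * c
    apply ent_ext
    · rw [ent_mul, ent_mul, b00, b01, c00, c10]
      field_simp
      ring
    · rw [ent_mul, ent_mul, b00, b01, c01, c11]
      field_simp
      ring
    · rw [ent_mul, ent_mul, b10, b11, c00, c10]
      field_simp
      ring
    · rw [ent_mul, ent_mul, b10, b11, c01, c11]
      field_simp
      ring
  · exact Units.ext b00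
  · apply Units.ext
    rw [Units.val_inv_eq_inv_val]
    exact c00

theorem exists_char {M : Type*} [CommGroup M] {q m : ℕ} [Fact q.Prime] (hm : q = 2 * m + 1)
    (g : (ZMod q)ˣ) (hg : ∀ x, x ∈ Subgroup.zpowers g) (z : M) (hz : z ^ m = 1) :
    ∃ θ : (ZMod q)ˣ →* M, θ (-1) = 1 ∧ θ g = z := by
  have hq : q.Prime := Fact.out
  have hm1 : 0 < m := by
    have := hq.two_le
    by_contra h
    have : m = 0 := by omega
    subst this
    omega
  have hcard : orderOf g = 2 * m := by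
    rw [orderOf_eq_card_of_forall_mem_zpowers hg, Nat.card_eq_fintype_card,
      ZMod.card_units_eq_totient, Nat.totient_prime hq]
    omega
  have hdvd : orderOf z ∣ orderOf g := by
    rw [hcard]
    exact (orderOf_dvd_of_pow_eq_one hz).trans (Dvd.intro_left 2 rfl)
  refine ⟨monoidHomOfForallMemZpowers hg hdvd, ?_, monoidHomOfForallMemZpowers_apply_gen hg hdvd⟩
  have h1 : g ^ m = -1 := by
    have h2 : (g ^ m) ^ 2 = 1 := by
      rw [← pow_mul, mul_comm, ← hcard, pow_orderOf_eq_one]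
    have h3 : g ^ m ≠ 1 := by
      intro h
      have h4 := Nat.le_of_dvd hm1 (orderOf_dvd_of_pow_eq_one h)
      omega
    have h5 : ((g ^ m : (ZMod q)ˣ) : ZMod q) ^ 2 = 1 := by
      rw [← Units.val_pow_eq_pow_val, h2, Units.val_one]
    have h6 : (((g ^ m : (ZMod q)ˣ) : ZMod q) - 1) * (((g ^ m : (ZMod q)ˣ) : ZMod q) + 1) = 0 := by
      linear_combination h5
    rcases mul_eq_zero.1 h6 with h7 | h7
    · exact absurd (Units.ext (sub_eq_zero.1 h7)) h3
    · exact Units.ext (by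
        rw [Units.val_neg, Units.val_one]
        exact eq_neg_of_add_eq_zero_left h7)
  rw [← h1, map_pow, monoidHomOfForallMemZpowers_apply_gen, hz]

/-- two irreducible induced modules -/
theorem exists_mono {k : Type*} [Field k] [IsAlgClosed k] {p : ℕ} (hp : p.Prime) [CharP k p]
    {q m : ℕ} [Fact q.Prime] (hm : q = 2 * m + 1) (h5 : 5 ≤ m) (hpm : ¬ p ∣ m * q)
    [Fintype (PBor (ZMod q))] : ∃ l : Bool → (PBor (ZMod q) →* kˣ), Mono l := by
  obtain ⟨g, hg⟩ := (inferInstance : IsCyclic (ZMod q)ˣ).exists_generator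
  have hmk : ((m : ℕ) : k) ≠ 0 := by
    intro h
    rw [CharP.cast_eq_zero_iff k p] at h
    exact hpm (h.mul_right q)
  have : NeZero ((m : ℕ) : k) := ⟨hmk⟩
  obtain ⟨ζ, hζ⟩ := HasEnoughRootsOfUnity.exists_primitiveRoot k m
  have hm0 : m ≠ 0 := by omega
  let z : kˣ := hζ.isUnit hm0 |>.unit
  have hz : IsPrimitiveRoot z m := by
    apply IsPrimitiveRoot.of_map_of_injective (f := Units.coeHom k) _ Units.val_injective
    exact hζ
  obtain ⟨θ₀, h0, h0g⟩ := exists_char hm g hg z hz.pow_eq_one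
  obtain ⟨θ₁, h1, h1g⟩ := exists_char hm g hg (z ^ 2) (by
    rw [← pow_mul, mul_comm, pow_mul, hz.pow_eq_one, one_pow])
  have hne : ∀ i : ℕ, 0 < i → i < 5 → z ^ i ≠ 1 := fun i hi hi5 =>
    hz.pow_ne_one_of_pos_of_lt hi.ne' (by omega)
  refine ⟨fun a => cond a (PBor.char θ₁ h1) (PBor.char θ₀ h0), card_ne_zero hm hp hpm, ?_, ?_⟩
  · intro h
    obtain ⟨b, c, hbc, hb, hc⟩ := exists_conj (mat (0 : ZMod q) (-1) 1 0 (by ring))
      (by show (1 : ZMod q) ≠ 0; exact one_ne_zero) g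
    have h2 : PBor.char θ₀ h0 ⟨(b.1 : PSL(2, ZMod q)), mem_PBor.2 b.2⟩ =
      PBor.char θ₁ h1 ⟨(b.1 : PSL(2, ZMod q)), mem_PBor.2 b.2⟩ := DFunLike.congr_fun h _
    rw [PBor.char_mk, PBor.char_mk, hb, h0g, h1g, pow_two] at h2
    exact hne 1 one_pos (by omega) (by
      rw [pow_one]
      exact (mul_eq_left.1 h2.symm))
  · intro a a' s hs
    obtain ⟨s, rfl⟩ := QuotientGroup.mk_surjective s
    have hs' : s.1 1 0 ≠ 0 := fun h => hs (mem_PBor.2 h)
    obtain ⟨b, c, hbc, hb, hc⟩ := exists_conj s hs' g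
    refine ⟨⟨(b.1 : PSL(2, ZMod q)), mem_PBor.2 b.2⟩, ⟨(c.1 : PSL(2, ZMod q)), mem_PBor.2 c.2⟩,
      ?_, ?_⟩
    · show (b.1 : PSL(2, ZMod q)) * (s : PSL(2, ZMod q)) = (s : PSL(2, ZMod q)) * (c.1 : PSL(2, ZMod q))
      rw [← QuotientGroup.mk_mul, ← QuotientGroup.mk_mul, hbc]
    · intro h
      have h2 : ∀ (θ θ' : (ZMod q)ˣ →* kˣ) (hθ : θ (-1) = 1) (hθ' : θ' (-1) = 1),
          PBor.char θ hθ ⟨(b.1 : PSL(2, ZMod q)), mem_PBor.2 b.2⟩ =
            PBor.char θ' hθ' ⟨(c.1 : PSL(2, ZMod q)), mem_PBor.2 c.2⟩ → θ g * θ' g = 1 := by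
        intro θ θ' hθ hθ' he
        rw [PBor.char_mk, PBor.char_mk, hb, hc, map_inv] at he
        rw [he, inv_mul_cancel]
      rcases a with _ | _ <;> rcases a' with _ | _
      · have h3 := h2 _ _ h0 h0 h
        rw [h0g] at h3
        exact hne 2 (by omega) (by omega) (by rw [pow_two]; exact h3)
      · have h3 := h2 _ _ h0 h1 h
        rw [h0g, h1g] at h3
        exact hne 3 (by omega) (by omega) (by rw [← h3]; exact pow_succ' z 2)
      · have h3 := h2 _ _ h1 h0 h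
        rw [h0g, h1g] at h3
        exact hne 3 (by omega) (by omega) (by rw [← h3]; exact pow_succ z 2)
      · have h3 := h2 _ _ h1 h1 h
        rw [h1g] at h3
        exact hne 4 (by omega) (by omega) (by rw [← h3, ← pow_add])

theorem noncomm {q : ℕ} [Fact q.Prime] :
    ∃ a b : PSL(2, ZMod q), a * b ≠ b * a := by
  let a : SL(2, ZMod q) := mat 1 1 0 1 (by ring)
  let b : SL(2, ZMod q) := mat 1 0 1 1 (by ring)
  have a00 : a.1 0 0 = 1 := rfl
  have a01 : a.1 0 1 = 1 := rfl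
  have a10 : a.1 1 0 = 0 := rfl
  have a11 : a.1 1 1 = 1 := rfl
  have b00 : b.1 0 0 = 1 := rfl
  have b01 : b.1 0 1 = 0 := rfl
  have b10 : b.1 1 0 = 1 := rfl
  have b11 : b.1 1 1 = 1 := rfl
  refine ⟨(a : PSL(2, ZMod q)), (b : PSL(2, ZMod q)), fun h => ?_⟩
  rw [← QuotientGroup.mk_mul, ← QuotientGroup.mk_mul] at h
  obtain ⟨r, hr, c00, c01, c10, c11⟩ := mem_cen (QuotientGroup.eq.1 h)
  set c := (a * b)⁻¹ * (b * a) with hc
  have h1 : b * a = a * b * c := by rw [hc]; group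
  have h2 : (b * a).1 0 1 = (a * b * c).1 0 1 := by rw [h1]
  have h3 : (b * a).1 0 0 = (a * b * c).1 0 0 := by rw [h1]
  rw [ent_mul b a, ent_mul (a * b) c, ent_mul a b, ent_mul a b, a01, a11, a00, b00, b01, b10, b11,
    c01, c11] at h2
  rw [ent_mul b a, ent_mul (a * b) c, ent_mul a b, ent_mul a b, a01, a10, a00, b00, b01, b10, b11,
    c00, c10] at h3
  have h4 : r = 1 := by linear_combination -h2
  rw [h4] at h3
  have h5 : (1 : ZMod q) = 0 := by linear_combination -h3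
  exact one_ne_zero h5

/-- For every prime number `p` there is a prime number `q` such that the simple group `PSL_2(q)`
has two different `p`-blocks of defect zero. -/
theorem exists_psl (p : ℕ) (hp : p.Prime) (k : Type*) [Field k] [IsAlgClosed k] [CharP k p]
    (N : ℕ) : ∃ q : ℕ, N < q ∧ q.Prime ∧ IsSimpleGroup PSL(2, ZMod q) ∧
      (∃ a b : PSL(2, ZMod q), a * b ≠ b * a) ∧
      ∃ e₀ e₁ : MonoidAlgebra k PSL(2, ZMod q), MP_a15589_al.IsBlock e₀ ∧
        MP_a15589_al.IsBlock e₁ ∧ e₀ ≠ e₁ ∧ MP_a15589_al.IsDefect e₀ ⊥ ∧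
        MP_a15589_al.IsDefect e₁ ⊥ := by
  obtain ⟨q, hq, hqp, hmod⟩ := Nat.forall_exists_prime_gt_and_modEq (N + 11) (q := 4 * p)
    (a := 4 * p - 1) (by have := hp.pos; omega) (by
      have := hp.two_le
      have h1 := Nat.coprime_self_sub_left (m := 1) (n := 4 * p) (by omega)
      exact h1.2 (Nat.coprime_one_left _))
  have : Fact q.Prime := ⟨hqp⟩
  have hp2 := hp.two_le
  have hmod4 : q % 4 = 3 := by
    have h1 : q ≡ 4 * p - 1 [MOD 4] := hmod.of_dvd (Dvd.intro _ rfl)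
    unfold Nat.ModEq at h1
    omega
  have hmodp : p ∣ q + 1 := by
    have h1 : q ≡ 4 * p - 1 [MOD p] := hmod.of_dvd (Dvd.intro_left _ rfl)
    have h2 : q + 1 ≡ 4 * p - 1 + 1 [MOD p] := h1.add_right 1
    rw [show 4 * p - 1 + 1 = 4 * p by omega] at h2
    exact (Nat.modEq_zero_iff_dvd.1 (h2.trans (Nat.modEq_zero_iff_dvd.2 (Dvd.intro_left _ rfl))))
  obtain ⟨m, hm⟩ : ∃ m, q = 2 * m + 1 := ⟨q / 2, by omega⟩
  have hpm : ¬ p ∣ m * q := by
    intro h
    rcases hp.dvd_mul.1 h with h1 | h1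
    · have h2 : p ∣ 2 := by
        have h3 : p ∣ q + 1 - 2 * m := Nat.dvd_sub hmodp (h1.mul_left 2)
        rwa [show q + 1 - 2 * m = 2 by omega] at h3
      have h3 : p = 2 := (Nat.prime_dvd_prime_iff_eq hp Nat.prime_two).1 h2
      subst h3
      omega
    · have h2 : p ∣ 1 := by
        have h3 := Nat.dvd_sub hmodp h1
        rwa [show q + 1 - q = 1 by omega] at h3
      exact hp.one_lt.ne' (Nat.dvd_one.1 h2)
  have : Fintype (PBor (ZMod q)) := Fintype.ofFinite _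
  have : Fintype PSL(2, ZMod q) := Fintype.ofFinite _
  obtain ⟨l, hl⟩ := exists_mono (k := k) hp hm (by omega) hpm
  refine ⟨q, by omega, hqp, ?_, noncomm, hl.pair.blocks⟩
  exact Matrix.ProjectiveSpecialLinearGroup.rank_two_simple (by
    rw [Nat.card_eq_fintype_card, ZMod.card]
    omega)

end

end Pool.Agent.UBlocks
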