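import Pool.Agent.UBlocks.EpsTr
import Pool.Agent.UBlocks.Br

/-!
# Brauer correspondents under the transfer along a full idempotent
-/

set_option autoImplicit false

namespace Pool.Agent.UBlocks

open MonoidAlgebra

variable {R G X k : Type*} [CommRing R] [Group G] [Group X] [Fintype G] [CommRing k] {ℓ : ℕ}
  [Fact ℓ.Prime] [CharP k ℓ] (π : R →+* k)

namespace Eps

section One

variable (C : Eps R G X)

omit [CommRing k] in
theorem coeff_sig_mul (a : MonoidAlgebra R G) (y : MonoidAlgebra R X) (h : X) :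
    (C.sig a * y).coeff h = ∑ g, a.coeff g * y.coeff ((C.σ g)⁻¹ * h) := by
  conv_lhs => rw [eq_sum_dl a]
  rw [map_sum, Finset.sum_mul, coeff_sum, Finset.sum_apply']
  refine Finset.sum_congr rfl fun g _ => ?_
  rw [map_smul, C.sig_dl, smul_mul_assoc, coeff_smul, Finsupp.smul_apply, coeff_dl_mul,
    smul_eq_mul]

/-- the coefficients at the centraliser of a `p`-subgroup of `G` -/
theorem coeff_fixed {Q : Subgroup G} (hQ : IsPGroup ℓ Q) {a : MonoidAlgebra R G}
    (ha : ∀ d ∈ Q, cj d a = a) {h : X}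
    (hh : h ∈ Subgroup.centralizer (Q.map C.σ : Set X)) [DecidablePred (· ∈ Subgroup.centralizer
      (Q : Set G))] :
    π ((C.sig a * C.ε).coeff h) = ∑ g with g ∈ Subgroup.centralizer (Q : Set G),
      π (a.coeff g) * π (C.ε.coeff ((C.σ g)⁻¹ * h)) := by
  classical
  rw [coeff_sig_mul, map_sum]
  rw [@sum_fixed Q G k _ (conjMulAction Q) _ ℓ _ hQ _ _
    (fun g => π (a.coeff g * C.ε.coeff ((C.σ g)⁻¹ * h))) ?_ _]
  · refine Finset.sum_congr ?_ fun g _ => map_mul _ _ _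
    ext g
    simp only [Finset.mem_filter, Finset.mem_univ, true_and]
    rw [Subgroup.mem_centralizer_iff]
    constructor
    · intro h1 d hd
      have h2 : (d : G) * g * (d : G)⁻¹ = g := h1 (⟨d, hd⟩ : Q)
      exact mul_inv_eq_iff_eq_mul.1 h2
    · intro h1 d
      exact mul_inv_eq_iff_eq_mul.2 (h1 d d.2)
  · intro d g
    show π (a.coeff ((d : G) * g * (d : G)⁻¹) *
      C.ε.coeff ((C.σ ((d : G) * g * (d : G)⁻¹))⁻¹ * h)) = _
    have h1 : (C.σ ((d : G) * g * (d : G)⁻¹))⁻¹ * h =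
        C.σ d * ((C.σ g)⁻¹ * h) * (C.σ d)⁻¹ := by
      have := Subgroup.mem_centralizer_iff.1 hh (C.σ (d : G)⁻¹) ⟨_, Q.inv_mem d.2, rfl⟩
      rw [map_inv] at this
      rw [map_mul, map_mul, map_inv]
      calc (C.σ d * C.σ g * (C.σ d)⁻¹)⁻¹ * h = C.σ d * (C.σ g)⁻¹ * ((C.σ d)⁻¹ * h) := by group
        _ = _ := by rw [this]; group
    rw [h1, coeff_of_fixed ha d.2, coeff_of_fixed (D := C.σ.range)
      (fun t ht => C.cj_T ht) ⟨_, rfl⟩]

/-- a coset that is fixed by `D` and does not come from the normaliser contributes zero -/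
theorem fixed_zero [Finite X] {D : Subgroup G} (hDp : IsPGroup ℓ D) {b : MonoidAlgebra R G}
    (hb : ∀ x : MonoidAlgebra R G, x * b = b * x) (hbD : TrFrom b D)
    {h : X} (hh : h ∈ Subgroup.centralizer (D.map C.σ : Set X))
    (q : X ⧸ C.σ.range) (hq : ∀ d ∈ D, C.σ d • q = q)
    (hj : ∀ z ∈ nz (D.map C.σ), (z : X ⧸ C.σ.range) ≠ q) :
    π ((cj (Quotient.out q) (C.sig b * C.ε)).coeff h) = 0 := by
  classical
  set x := Quotient.out q with hx
  have h1 : ∀ d ∈ D, ∃ g : G, x⁻¹ * C.σ d * x = C.σ g := by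
    intro d hd
    obtain ⟨g, hg⟩ := (smul_out_iff _ _).1 (hq d hd)
    exact ⟨g, hg.symm⟩
  let Q : Subgroup G := (D.map C.σ).comap ((MulAut.conj x).toMonoidHom.comp C.σ)
  have hQ : ∀ g : G, g ∈ Q ↔ ∃ d ∈ D, C.σ d = x * C.σ g * x⁻¹ := fun g => Iff.rfl
  have hQp : IsPGroup ℓ Q := by
    refine IsPGroup.comap_of_injective (hDp.map C.σ) _ ?_
    exact (MulAut.conj x).injective.comp C.inj
  rw [coeff_cj]
  have hh' : x⁻¹ * h * x ∈ Subgroup.centralizer (Q.map C.σ : Set X) := by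
    rw [Subgroup.mem_centralizer_iff]
    rintro _ ⟨y, hy, rfl⟩
    obtain ⟨d, hd, he⟩ := (hQ y).1 hy
    have h3 := Subgroup.mem_centralizer_iff.1 hh (C.σ d) ⟨d, hd, rfl⟩
    rw [he] at h3
    calc C.σ y * (x⁻¹ * h * x) = x⁻¹ * (x * C.σ y * x⁻¹ * h) * x := by group
      _ = _ := by rw [h3]; group
  rw [C.coeff_fixed π hQp (fun d _ => (central_iff b).1 hb d) hh']
  by_cases hn : ∀ x : G, ∃ y ∈ Q, x⁻¹ * y * x ∉ D
  · refine Finset.sum_eq_zero fun g hg => ?_
    rw [br_zero π hbD hQp hn (Finset.mem_filter.1 hg).2, zero_mul]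
  · exfalso
    push Not at hn
    obtain ⟨y, hy⟩ := hn
    have hz : x * C.σ y ∈ nz (D.map C.σ) := by
      have : Finite (D.map C.σ : Set X) := Set.toFinite _
      rw [← Subgroup.inv_mem_iff]
      apply Subgroup.mem_normalizer_fintype
      rintro _ ⟨d, hd, rfl⟩
      obtain ⟨g, hg⟩ := h1 d hd
      have h2 : y⁻¹ * g * y ∈ D := by
        apply hy
        refine (hQ g).2 ⟨d, hd, ?_⟩
        rw [← hg]; group
      refine ⟨_, h2, ?_⟩
      rw [map_mul, map_mul, ← hg, map_inv]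
      group
    refine hj _ hz ?_
    rw [eq_comm, ← QuotientGroup.out_eq' q, QuotientGroup.eq, ← hx]
    refine ⟨y, ?_⟩
    group

end One

end Eps

/-- A full idempotent for `N_G(D)` in the group algebra of `N_X(D)` that is compatible with the
Brauer homomorphism. -/
structure EpsLoc (C : Eps R G X) (D : Subgroup G) where
  E : Eps R (nz D) (nz (D.map C.σ))
  sig : ∀ g : nz D, ((E.σ g : nz (D.map C.σ)) : X) = C.σ g
  coef : ∀ h : nz (D.map C.σ), (h : X) ∈ Subgroup.centralizer (D.map C.σ : Set X) →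
    π ((E.u⁻¹ : Rˣ) : R) * π (E.ε.coeff h) = π ((C.u⁻¹ : Rˣ) : R) * π (C.ε.coeff (h : X))

namespace EpsLoc

variable {π} {C : Eps R G X} {D : Subgroup G} (Λ : EpsLoc π C D)

omit [Fact ℓ.Prime] [CharP k ℓ] [Fintype G] in
include Λ in
theorem mem_range {y : nz (D.map C.σ)} : (y : X) ∈ C.σ.range ↔ y ∈ Λ.E.σ.range := by
  constructor
  · rintro ⟨g, hg⟩
    have h1 : g ∈ nz D := by
      have h2 : C.σ g ∈ nz (D.map C.σ) := hg ▸ y.2
      rw [Subgroup.mem_normalizer_iff] at h2 ⊢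
      intro x
      have h3 : ∀ y : G, C.σ y ∈ D.map C.σ ↔ y ∈ D := fun y =>
        ⟨fun ⟨d, hd, he⟩ => C.inj he ▸ hd, fun hy => ⟨y, hy, rfl⟩⟩
      rw [← h3 x, h2, ← map_inv, ← map_mul, ← map_mul, h3]
    exact ⟨⟨g, h1⟩, Subtype.ext ((Λ.sig ⟨g, h1⟩).trans hg)⟩
  · rintro ⟨g, rfl⟩
    exact ⟨g, (Λ.sig g).symm⟩

/-- comparison of the coefficients of the two local pieces -/
theorem coeff_local [Fintype (nz D)] (hDp : IsPGroup ℓ D) {b : MonoidAlgebra R G}
    (hb : ∀ x : MonoidAlgebra R G, x * b = b * x)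
    {c : MonoidAlgebra R (nz D)} (hc : ∀ x : MonoidAlgebra R (nz D), x * c = c * x)
    (hbc : ∀ g : nz D, (g : G) ∈ Subgroup.centralizer (D : Set G) →
      π (c.coeff g) = π (b.coeff g))
    (h : nz (D.map C.σ)) (hh : (h : X) ∈ Subgroup.centralizer (D.map C.σ : Set X)) :
    π ((Λ.E.u⁻¹ : Rˣ) : R) * π ((Λ.E.sig c * Λ.E.ε).coeff h) =
      π ((C.u⁻¹ : Rˣ) : R) * π ((C.sig b * C.ε).coeff (h : X)) := by
  classical
  have hD' : IsPGroup ℓ (D.subgroupOf (nz D)) := hDp.comap_subtype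
  have hh' : h ∈ Subgroup.centralizer ((D.subgroupOf (nz D)).map Λ.E.σ : Set _) := by
    rw [Subgroup.mem_centralizer_iff] at hh ⊢
    rintro _ ⟨y, hy, rfl⟩
    apply Subtype.ext
    show ((Λ.E.σ y : nz (D.map C.σ)) : X) * h = h * ((Λ.E.σ y : nz (D.map C.σ)) : X)
    rw [Λ.sig]
    exact hh _ ⟨_, hy, rfl⟩
  rw [Λ.E.coeff_fixed π hD' (fun d _ => (central_iff c).1 hc d) hh',
    C.coeff_fixed π hDp (fun d _ => (central_iff b).1 hb d) hh, Finset.mul_sum, Finset.mul_sum]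
  have hcen : ∀ g : nz D, g ∈ Subgroup.centralizer ((D.subgroupOf (nz D) : Subgroup (nz D)) :
      Set (nz D)) ↔ (g : G) ∈ Subgroup.centralizer (D : Set G) := by
    intro g
    rw [Subgroup.mem_centralizer_iff, Subgroup.mem_centralizer_iff]
    constructor
    · intro h1 d hd
      exact congrArg Subtype.val (h1 ⟨d, Subgroup.le_normalizer hd⟩ hd)
    · intro h1 d hd
      exact Subtype.ext (h1 _ hd)
  refine Finset.sum_bij (fun g _ => (g : G)) ?_ ?_ ?_ ?_
  · intro g hg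
    rw [Finset.mem_filter] at hg ⊢
    exact ⟨Finset.mem_univ _, (hcen g).1 hg.2⟩
  · intro g _ g' _ h1
    exact Subtype.ext h1
  · intro g hg
    rw [Finset.mem_filter] at hg
    have h1 : g ∈ nz D := Subgroup.centralizer_le_normalizer _ hg.2
    refine ⟨⟨g, h1⟩, ?_, rfl⟩
    rw [Finset.mem_filter]
    exact ⟨Finset.mem_univ _, (hcen _).2 hg.2⟩
  · intro g hg
    rw [Finset.mem_filter, hcen] at hg
    have h1 : (((Λ.E.σ g)⁻¹ * h : nz (D.map C.σ)) : X) = (C.σ g)⁻¹ * h := by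
      rw [Subgroup.coe_mul, Subgroup.coe_inv, Λ.sig]
    have h2 : (((Λ.E.σ g)⁻¹ * h : nz (D.map C.σ)) : X) ∈
        Subgroup.centralizer (D.map C.σ : Set X) := by
      rw [h1]
      refine Subgroup.mul_mem _ (Subgroup.inv_mem _ ?_) hh
      rw [Subgroup.mem_centralizer_iff]
      rintro _ ⟨d, hd, rfl⟩
      rw [← map_mul, ← map_mul, Subgroup.mem_centralizer_iff.1 hg.2 d hd]
    have h3 := Λ.coef _ h2
    rw [h1] at h3
    rw [hbc g hg.2]
    calc _ = π (b.coeff (g : G)) *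
          (π ((Λ.E.u⁻¹ : Rˣ) : R) * π (Λ.E.ε.coeff ((Λ.E.σ g)⁻¹ * h))) := by ring
      _ = _ := by rw [h3]; ring

section Main

variable [Fintype X] [Fintype (X ⧸ C.σ.range)] [Fintype (nz D)] [Fintype (nz (D.map C.σ))]
  [Fintype (nz (D.map C.σ) ⧸ Λ.E.σ.range)]

/-- If `c` is the Brauer correspondent of `b` then the transfer of `c` is the Brauer
correspondent of the transfer of `b`. -/
theorem br_up (hDp : IsPGroup ℓ D) {b : MonoidAlgebra R G}
    (hb : ∀ x : MonoidAlgebra R G, x * b = b * x) (hbD : TrFrom b D)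
    {c : MonoidAlgebra R (nz D)} (hc : ∀ x : MonoidAlgebra R (nz D), x * c = c * x)
    (hbc : ∀ g : nz D, (g : G) ∈ Subgroup.centralizer (D : Set G) →
      π (c.coeff g) = π (b.coeff g))
    (h : nz (D.map C.σ)) (hh : (h : X) ∈ Subgroup.centralizer (D.map C.σ : Set X)) :
    π ((Λ.E.up c).coeff h) = π ((C.up b).coeff (h : X)) := by
  classical
  have hK : IsPGroup ℓ (D.map C.σ) := hDp.map _
  have hbT : ∀ t ∈ C.σ.range, cj t (C.sig b * C.ε) = C.sig b * C.ε :=
    fun t ht => C.cj_T_sig ((central_iff b).1 hb) ht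
  have hcT : ∀ t ∈ Λ.E.σ.range, cj t (Λ.E.sig c * Λ.E.ε) = Λ.E.sig c * Λ.E.ε :=
    fun t ht => Λ.E.cj_T_sig ((central_iff c).1 hc) ht
  rw [Eps.up_def, Eps.up_def, coeff_smul, coeff_smul, Finsupp.smul_apply, Finsupp.smul_apply,
    smul_eq_mul, smul_eq_mul, map_mul, map_mul, coeff_tr, coeff_tr, map_sum, map_sum]
  have hinv : ∀ (p : D.map C.σ) (q : X ⧸ C.σ.range),
      π ((cj (Quotient.out (p • q)) (C.sig b * C.ε)).coeff (h : X)) =
      π ((cj (Quotient.out q) (C.sig b * C.ε)).coeff (h : X)) := by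
    intro p q
    show π ((cj (Quotient.out ((p : X) • q)) (C.sig b * C.ε)).coeff (h : X)) = _
    rw [smul_out_cj hbT, coeff_cj]
    have h1 : (p : X)⁻¹ * h * p = h := by
      have := Subgroup.mem_centralizer_iff.1 hh p p.2
      rw [mul_assoc, ← this, inv_mul_cancel_left]
    rw [h1]
  rw [sum_fixed hK (fun q : X ⧸ C.σ.range =>
    π ((cj (Quotient.out q) (C.sig b * C.ε)).coeff (h : X))) hinv, Finset.mul_sum,
    Finset.mul_sum]
  refine Finset.sum_of_injOn
    (fun q => (((Quotient.out q : nz (D.map C.σ)) : X) : X ⧸ C.σ.range)) ?_ ?_ ?_ ?_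
  · intro q1 _ q2 _ h12
    have h1 := QuotientGroup.eq.1 h12
    have h2 : (Quotient.out q1)⁻¹ * Quotient.out q2 ∈ Λ.E.σ.range := Λ.mem_range.1 h1
    rw [← QuotientGroup.eq, QuotientGroup.out_eq', QuotientGroup.out_eq'] at h2
    exact h2
  · intro q _
    simp only [Finset.coe_filter, Finset.mem_univ, true_and, Set.mem_ofPred_eq]
    intro p
    show (((p : X) * ((Quotient.out q : nz (D.map C.σ)) : X) : X) : X ⧸ C.σ.range) = _
    rw [eq_comm, QuotientGroup.eq, ← mul_assoc]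
    obtain ⟨d, -, hd⟩ := (Subgroup.mem_normalizer_iff''.1 (Quotient.out q).2 p).1 p.2
    rw [← hd]
    exact ⟨d, rfl⟩
  · intro q hq hq'
    rw [C.fixed_zero π hDp hb hbD hh q ?_ ?_, mul_zero]
    · intro d hd
      exact (Finset.mem_filter.1 hq).2 ⟨C.σ d, ⟨d, hd, rfl⟩⟩
    · intro z hz hzq
      apply hq'
      refine ⟨((⟨z, hz⟩ : nz (D.map C.σ)) : nz (D.map C.σ) ⧸ Λ.E.σ.range), by simp, ?_⟩
      rw [← hzq]
      simp only
      rw [QuotientGroup.eq]
      have h1 : (Quotient.out ((⟨z, hz⟩ : nz (D.map C.σ)) :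
          nz (D.map C.σ) ⧸ Λ.E.σ.range))⁻¹ * ⟨z, hz⟩ ∈ Λ.E.σ.range := by
        rw [← QuotientGroup.eq, QuotientGroup.out_eq']
      exact Λ.mem_range.2 h1
  · intro q _
    rw [cj_out hbT, coeff_cj, coeff_cj]
    refine Λ.coeff_local hDp hb hc hbc ((Quotient.out q)⁻¹ * h * Quotient.out q) ?_
    rw [Subgroup.mem_centralizer_iff] at hh ⊢
    intro m hm
    have h1 := hh _ ((Subgroup.mem_normalizer_iff.1 (Quotient.out q).2 m).1 hm)
    have h2 : (((Quotient.out q)⁻¹ * h * Quotient.out q : nz (D.map C.σ)) : X) =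
        ((Quotient.out q : nz (D.map C.σ)) : X)⁻¹ * h *
        ((Quotient.out q : nz (D.map C.σ)) : X) := rfl
    rw [h2]
    calc m * (((Quotient.out q : nz (D.map C.σ)) : X)⁻¹ * h *
          ((Quotient.out q : nz (D.map C.σ)) : X)) =
        ((Quotient.out q : nz (D.map C.σ)) : X)⁻¹ *
          (((Quotient.out q : nz (D.map C.σ)) : X) * m *
          ((Quotient.out q : nz (D.map C.σ)) : X)⁻¹ * h) *
          ((Quotient.out q : nz (D.map C.σ)) : X) := by group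
      _ = _ := by rw [h1]; group

end Main

end EpsLoc

/-- The Brauer homomorphism does not vanish at the transfer of `b`. -/
theorem Eps.br_up_ne (C : Eps R G X) [Fintype X] [Fintype (X ⧸ C.σ.range)] {D : Subgroup G}
    (hDp : IsPGroup ℓ D) (h1 : IsUnit (C.ε.coeff 1)) (h0 : ∀ g, g ≠ 1 → C.ε.coeff (C.σ g) = 0)
    {b : MonoidAlgebra R G} (hb : ∀ x : MonoidAlgebra R G, x * b = b * x)
    (hbr : ∃ g ∈ Subgroup.centralizer (D : Set G), π (b.coeff g) ≠ 0) :
    ∃ h ∈ Subgroup.centralizer (D.map C.σ : Set X), π ((C.up b).coeff h) ≠ 0 := by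
  classical
  by_contra hcon
  push Not at hcon
  obtain ⟨g, hg, hgb⟩ := hbr
  apply hgb
  have h2 : C.σ g ∈ Subgroup.centralizer (D.map C.σ : Set X) := by
    rw [Subgroup.mem_centralizer_iff] at hg ⊢
    rintro _ ⟨d, hd, rfl⟩
    rw [← map_mul, ← map_mul, hg d hd]
  have hup := C.up_central hb
  have h3 := br_mul_zero π (hDp.map C.σ) (x := C.up b) (y := C.ε)
    (fun t _ => (central_iff _).1 hup t)
    (fun t ht => C.cj_T (by obtain ⟨d, -, rfl⟩ := ht; exact ⟨d, rfl⟩)) hcon h2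
  rw [C.up_mul_eps hb, C.coeff_sig_mul, Finset.sum_eq_single g] at h3
  · rw [inv_mul_cancel, map_mul] at h3
    exact ((h1.map π).mul_left_eq_zero).1 h3
  · intro x _ hx
    rw [← map_inv, ← map_mul, h0 _ (fun h => hx (inv_mul_eq_one.1 h)), mul_zero]
  · intro h; exact absurd (Finset.mem_univ _) h

end Pool.Agent.UBlocks
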