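import Pool.Agent.UBlocks.WrEps
import Pool.Agent.UBlocks.EpsBr

/-!
# Normalisers in wreath products
-/

set_option autoImplicit false

namespace Pool.Agent.UBlocks

open MonoidAlgebra

namespace Wr

section Loc

variable {S I L X : Type*} [Group S] [Group L] [Group X] (W : Wr S I L X) (E : Subgroup L)

/-- two indices are in the same orbit of `E` -/
def rel : Setoid I where
  r i j := ∃ e ∈ E, W.act e i = j
  iseqv :=
    { refl := fun i => ⟨1, E.one_mem, by rw [map_one]; rfl⟩
      symm := by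
        rintro i _ ⟨e, he, rfl⟩
        exact ⟨e⁻¹, E.inv_mem he, by
          rw [map_inv]
          exact Equiv.symm_apply_apply _ _⟩
      trans := by
        rintro i _ _ ⟨e, he, rfl⟩ ⟨e', he', rfl⟩
        exact ⟨e' * e, E.mul_mem he' he, by rw [map_mul]; rfl⟩ }

/-- the orbits of `E` on the index set -/
abbrev Orb : Type _ := Quotient (W.rel E)

/-- the orbit of an index -/
def mkO (i : I) : W.Orb E := Quotient.mk (W.rel E) i

theorem mkO_act {e : L} (he : e ∈ E) (i : I) : W.mkO E (W.act e i) = W.mkO E i :=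
  Quotient.sound' (s₁ := W.rel E) ((W.rel E).iseqv.symm ⟨e, he, rfl⟩)

theorem mkO_surj : Function.Surjective (W.mkO E) := Quotient.exists_rep

theorem rel_act {l : L} (hl : l ∈ nz E) (i j : I) :
    (W.rel E).r i j ↔ (W.rel E).r (W.act l i) (W.act l j) := by
  constructor
  · rintro ⟨e, he, rfl⟩
    refine ⟨l * e * l⁻¹, (Subgroup.mem_normalizer_iff.1 hl e).1 he, ?_⟩
    rw [← Equiv.Perm.mul_apply, ← Equiv.Perm.mul_apply, ← map_mul, ← map_mul]
    congr 2
    group
  · rintro ⟨e, he, h⟩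
    refine ⟨l⁻¹ * e * l, ?_, ?_⟩
    · have := (Subgroup.mem_normalizer_iff.1 ((nz E).inv_mem hl) e).1 he
      rwa [inv_inv] at this
    · rw [map_mul, map_mul, Equiv.Perm.mul_apply, Equiv.Perm.mul_apply, h, map_inv]
      exact Equiv.symm_apply_apply _ _

/-- the action of the normaliser on the orbits -/
def orbAct : nz E →* Equiv.Perm (W.Orb E) where
  toFun l := Quotient.congr (W.act l) (W.rel_act E l.2)
  map_one' := by
    ext j
    obtain ⟨i, rfl⟩ := W.mkO_surj E j
    show W.mkO E (W.act ((1 : nz E) : L) i) = _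
    rw [Subgroup.coe_one, map_one]
    rfl
  map_mul' a b := by
    ext j
    obtain ⟨i, rfl⟩ := W.mkO_surj E j
    show W.mkO E (W.act ((a * b : nz E) : L) i) = _
    rw [Subgroup.coe_mul, map_mul]
    rfl

theorem orbAct_mk (l : nz E) (i : I) : W.orbAct E l (W.mkO E i) = W.mkO E (W.act l i) := rfl

theorem orbAct_symm_mk (l : nz E) (i : I) :
    (W.orbAct E l).symm (W.mkO E i) = W.mkO E ((W.act l).symm i) := rfl

theorem tau_comm {F : I → S} (hF : ∀ e ∈ E, ∀ i, F (W.act e i) = F i) {e : L} (he : e ∈ E) :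
    W.κ e * W.τ F = W.τ F * W.κ e := by
  rw [W.kappa_tau]
  congr 2
  funext i
  conv_rhs => rw [← Equiv.apply_symm_apply (W.act e) i]
  rw [hF e he]

variable {E} {K : Subgroup X} (hK : K = E.map W.κ)

include hK in
theorem tau_mem {F : I → S} (hF : ∀ e ∈ E, ∀ i, F (W.act e i) = F i) : W.τ F ∈ nz K := by
  apply Subgroup.centralizer_le_normalizer
  rw [hK, Subgroup.mem_centralizer_iff]
  rintro _ ⟨e, he, rfl⟩
  exact W.tau_comm E hF he

include hK in
theorem kappa_mem {l : L} (hl : l ∈ nz E) : W.κ l ∈ nz K := by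
  rw [hK, Subgroup.mem_normalizer_iff]
  intro h
  constructor
  · rintro ⟨e, he, rfl⟩
    exact ⟨l * e * l⁻¹, (Subgroup.mem_normalizer_iff.1 hl e).1 he, by
      rw [map_mul, map_mul, map_inv]⟩
  · rintro ⟨e, he, h1⟩
    have h2 := (Subgroup.mem_normalizer_iff.1 ((nz E).inv_mem hl) e).1 he
    rw [inv_inv] at h2
    refine ⟨_, h2, ?_⟩
    rw [map_mul, map_mul, h1, map_inv]
    group

include hK in
theorem of_mem_nz [Finite L] {f : I → S} {l : L} (h : W.τ f * W.κ l ∈ nz K) :
    l ∈ nz E ∧ ∀ e ∈ E, ∀ i, f (W.act e i) = f i := by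
  have key : ∀ (f : I → S) (l : L), W.τ f * W.κ l ∈ nz K → ∀ e ∈ E,
      l * e * l⁻¹ ∈ E ∧ ∀ i, f i = f ((W.act (l * e * l⁻¹)).symm i) := by
    intro f l h e he
    have h1 := (Subgroup.mem_normalizer_iff.1 h (W.κ e)).1 (hK ▸ ⟨e, he, rfl⟩)
    rw [hK] at h1
    obtain ⟨e', he', h2⟩ := h1
    have h3 : W.τ f * W.κ l * W.κ e * (W.τ f * W.κ l)⁻¹ =
        W.τ (f * fun i => (f ((W.act (l * e * l⁻¹)).symm i))⁻¹) * W.κ (l * e * l⁻¹) := by
      have h4 := W.kappa_tau (l * e * l⁻¹) f⁻¹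
      rw [map_inv] at h4
      have h5 : (fun i => f⁻¹ ((W.act (l * e * l⁻¹)).symm i)) =
        fun i => (f ((W.act (l * e * l⁻¹)).symm i))⁻¹ := rfl
      rw [h5] at h4
      rw [map_mul W.τ, mul_assoc (W.τ f) (W.τ _) (W.κ _), ← h4, map_mul, map_mul, map_inv]
      group
    rw [h3] at h2
    have h4 : W.τ (1 : I → S) * W.κ e' =
        W.τ (f * fun i => (f ((W.act (l * e * l⁻¹)).symm i))⁻¹) * W.κ (l * e * l⁻¹) := by
      rw [map_one, one_mul, h2]
    obtain ⟨h5, h6⟩ := W.uniq' h4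
    refine ⟨h6 ▸ he', fun i => ?_⟩
    have h7 := congrFun h5 i
    exact (mul_inv_eq_one.1 h7.symm)
  have hl : l ∈ nz E := by
    have : Finite (E : Set L) := Set.toFinite _
    exact Subgroup.mem_normalizer_fintype fun e he => (key f l h e he).1
  refine ⟨hl, fun e he i => ?_⟩
  have h1 : W.τ f * W.κ 1 ∈ nz K := by
    rw [map_one, mul_one]
    have h2 := (nz K).mul_mem h ((nz K).inv_mem (W.kappa_mem hK hl))
    rwa [mul_inv_cancel_right] at h2
  have h2 := (key f 1 h1 e he).2 (W.act e i)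
  rw [one_mul, inv_one, mul_one, Equiv.symm_apply_apply] at h2
  exact h2

/-- The normaliser of `E` in `X` is again such a semidirect product; its index set consists of
the orbits of `E`. -/
def loc [Finite L] : Wr S (W.Orb E) (nz E) (nz K) where
  τ :=
    { toFun := fun f => ⟨W.τ (fun i => f (W.mkO E i)), W.tau_mem hK fun e he i => by
        rw [W.mkO_act E he]⟩
      map_one' := Subtype.ext (map_one W.τ)
      map_mul' := fun f g => Subtype.ext (map_mul W.τ _ _) }
  κ :=
    { toFun := fun l => ⟨W.κ l, W.kappa_mem hK l.2⟩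
      map_one' := Subtype.ext (map_one W.κ)
      map_mul' := fun a b => Subtype.ext (map_mul W.κ _ _) }
  act := W.orbAct E
  conj l f := Subtype.ext (W.conj l _)
  decomp x := by
    obtain ⟨f, l, h⟩ := W.decomp (x : X)
    have h1 : W.τ f * W.κ l ∈ nz K := h ▸ x.2
    obtain ⟨h2, h3⟩ := W.of_mem_nz hK h1
    refine ⟨Quotient.lift (s := W.rel E) f ?_, ⟨l, h2⟩, Subtype.ext h⟩
    rintro i _ ⟨e, he, rfl⟩
    exact (h3 e he i).symm
  uniq f l h := by
    obtain ⟨h1, h2⟩ := W.uniq _ _ (congrArg Subtype.val h)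
    refine ⟨funext fun j => ?_, Subtype.ext h2⟩
    obtain ⟨i, rfl⟩ := W.mkO_surj E j
    exact congrFun h1 i

theorem loc_tau [Finite L] (f : W.Orb E → S) :
    (((W.loc hK).τ f : nz K) : X) = W.τ (fun i => f (W.mkO E i)) := rfl

theorem loc_kappa [Finite L] (l : nz E) : (((W.loc hK).κ l : nz K) : X) = W.κ l := rfl

end Loc

section LocEps

variable {S I L X R G k : Type*} [Group S] [Group L] [Group X] [CommRing R] [Group G]
  [Fintype S] [Fintype I] [DecidableEq I] [Finite L] (W : Wr S I L X) (Q : Pair R S)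
  {c : I → Bool} {ι : G →* L} (hι : Function.Injective ι)
  (hfix : ∀ g i, c (W.act (ι g) i) = c i)
  (horb : ∀ l, l ∉ ι.range → ∃ i, c (W.act l i) ≠ c i) (D : Subgroup G)

include hι in
omit [Finite L] in
theorem mem_nz_of_map {g : G} (hg : ι g ∈ nz (D.map ι)) : g ∈ nz D := by
  rw [Subgroup.mem_normalizer_iff] at hg ⊢
  intro x
  have h1 : ∀ y : G, ι y ∈ D.map ι ↔ y ∈ D := fun y =>
    ⟨fun ⟨d, hd, he⟩ => hι he ▸ hd, fun hy => ⟨y, hy, rfl⟩⟩
  rw [← h1 x, hg, ← map_inv, ← map_mul, ← map_mul, h1]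

include hι in
omit [Finite L] in
theorem map_mem_nz {g : G} (hg : g ∈ nz D) : ι g ∈ nz (D.map ι) := by
  rw [Subgroup.mem_normalizer_iff] at hg ⊢
  intro x
  constructor
  · rintro ⟨d, hd, rfl⟩
    exact ⟨g * d * g⁻¹, (hg d).1 hd, by rw [map_mul, map_mul, map_inv]⟩
  · rintro ⟨d, hd, h⟩
    refine ⟨g⁻¹ * d * g, ?_, ?_⟩
    · rw [SetLike.mem_coe, hg]
      have : g * (g⁻¹ * d * g) * g⁻¹ = d := by group
      rwa [this]
    · rw [map_mul, map_mul, h, map_inv]
      group

/-- the restriction of the embedding to the normalisers -/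
def nzHom : nz D →* nz (D.map ι) where
  toFun g := ⟨ι g, map_mem_nz hι D g.2⟩
  map_one' := Subtype.ext (map_one ι)
  map_mul' _ _ := Subtype.ext (map_mul ι _ _)

omit [Finite L] in
theorem nzHom_injective : Function.Injective (nzHom hι D) := fun _ _ h =>
  Subtype.ext (hι (congrArg Subtype.val h))

/-- the colouring of the orbits -/
def orbCol : W.Orb (D.map ι) → Bool :=
  Quotient.lift (s := W.rel (D.map ι)) c (by
    rintro i _ ⟨_, ⟨d, hd, rfl⟩, rfl⟩
    exact (hfix d i).symm)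

omit [Fintype S] [Fintype I] [DecidableEq I] [Finite L] in
theorem orbCol_mk (i : I) : W.orbCol hfix D (W.mkO (D.map ι) i) = c i := rfl

omit [Fintype S] [Fintype I] [DecidableEq I] [Finite L] in
theorem orbCol_fix (g : nz D) (j : W.Orb (D.map ι)) :
    W.orbCol hfix D (W.orbAct (D.map ι) (nzHom hι D g) j) = W.orbCol hfix D j := by
  obtain ⟨i, rfl⟩ := W.mkO_surj (D.map ι) j
  exact hfix g i

include horb in
omit [Fintype S] [Fintype I] [DecidableEq I] [Finite L] in
theorem orbCol_orb (l : nz (D.map ι)) (hl : l ∉ (nzHom hι D).range) :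
    ∃ j, W.orbCol hfix D (W.orbAct (D.map ι) l j) ≠ W.orbCol hfix D j := by
  have h1 : (l : L) ∉ ι.range := by
    rintro ⟨g, hg⟩
    exact hl ⟨⟨g, mem_nz_of_map hι D (hg ▸ l.2)⟩, Subtype.ext hg⟩
  obtain ⟨i, hi⟩ := horb _ h1
  exact ⟨W.mkO (D.map ι) i, hi⟩

variable [CommRing k] (π : R →+* k) (Q' : Pair R S) [Fintype (W.Orb (D.map ι))]
  [DecidableEq (W.Orb (D.map ι))]

/-- The local full idempotent is compatible with the Brauer homomorphism if the orbits of the
`p`-subgroup have the same number of elements. -/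
noncomputable def epsLoc
    (hfree : ∀ j : W.Orb (D.map ι), (Finset.univ.filter
      (fun i => W.mkO (D.map ι) i = j)).card = Nat.card D)
    (hQ : ∀ a s, π (((Q'.u a)⁻¹ : Rˣ) : R) * π ((Q'.ε a).coeff s) =
      (π (((Q.u a)⁻¹ : Rˣ) : R) * π ((Q.ε a).coeff s)) ^ Nat.card D) :
    EpsLoc π (W.toEps Q hι hfix horb) D where
  E := (W.loc (E := D.map ι) (K := D.map (W.toEps Q hι hfix horb).σ)
    (Subgroup.map_map D W.κ ι).symm).toEps Q' (c := W.orbCol hfix D) (ι := nzHom hι D)
      (nzHom_injective hι D) (W.orbCol_fix hι hfix D) (W.orbCol_orb hι hfix horb D)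
  sig g := rfl
  coef h hh := by
    set W' := W.loc (E := D.map ι) (K := D.map (W.toEps Q hι hfix horb).σ)
      (Subgroup.map_map D W.κ ι).symm with hW'
    obtain ⟨f, l, rfl⟩ := W'.decomp h
    by_cases hl : l = 1
    · subst hl
      have h1 : (((W'.τ f * W'.κ 1 : nz _) : X)) = W.τ (fun i => f (W.mkO (D.map ι) i)) := by
        rw [map_one, mul_one]
        rfl
      rw [h1, map_one, mul_one]
      have h2 : (tens W'.τ (fun j => Q'.ε (W.orbCol hfix D j))).coeff (W'.τ f) =
          ∏ j, (Q'.ε (W.orbCol hfix D j)).coeff (f j) := coeff_tens W'.τ W'.inj_tau _ _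
      have h3 : (tens W.τ (fun i => Q.ε (c i))).coeff (W.τ (fun i => f (W.mkO (D.map ι) i))) =
          ∏ i, (Q.ε (c i)).coeff (f (W.mkO (D.map ι) i)) := coeff_tens W.τ W.inj_tau _ _
      show π (((∏ j, Q'.u (W.orbCol hfix D j))⁻¹ : Rˣ) : R) *
        π ((tens W'.τ (fun j => Q'.ε (W.orbCol hfix D j))).coeff (W'.τ f)) =
        π (((∏ i, Q.u (c i))⁻¹ : Rˣ) : R) *
        π ((tens W.τ (fun i => Q.ε (c i))).coeff (W.τ (fun i => f (W.mkO (D.map ι) i))))
      rw [h2, h3, ← Finset.prod_inv_distrib, ← Finset.prod_inv_distrib, Units.coe_prod,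
        Units.coe_prod, map_prod, map_prod, map_prod, map_prod, ← Finset.prod_mul_distrib,
        ← Finset.prod_mul_distrib, ← Finset.prod_fiberwise_of_maps_to (t := Finset.univ)
          (g := W.mkO (D.map ι)) (fun _ _ => Finset.mem_univ _)]
      refine Finset.prod_congr rfl fun j _ => ?_
      rw [hQ, ← hfree j]
      rw [Finset.prod_congr rfl (g := fun _ => π (((Q.u (W.orbCol hfix D j))⁻¹ : Rˣ) : R) *
        π ((Q.ε (W.orbCol hfix D j)).coeff (f j))), Finset.prod_const]
      intro i hi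
      have h4 : W.mkO (D.map ι) i = j := (Finset.mem_filter.1 hi).2
      rw [← h4]
      rfl
    · have h1 : (((W'.τ f * W'.κ l : nz _) : X)) =
          W.τ (fun i => f (W.mkO (D.map ι) i)) * W.κ l := rfl
      have h2 : (tens W'.τ (fun j => Q'.ε (W.orbCol hfix D j))).coeff (W'.τ f * W'.κ l) = 0 := by
        apply coeff_tens_zero
        intro f' hf'
        apply hl
        have h3 : W'.τ f' * W'.κ 1 = W'.τ f * W'.κ l := by rw [map_one, mul_one, hf']
        exact (W'.uniq' h3).2.symm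
      have h3 : (tens W.τ (fun i => Q.ε (c i))).coeff
          (W.τ (fun i => f (W.mkO (D.map ι) i)) * W.κ l) = 0 := by
        apply coeff_tens_zero
        intro f' hf'
        apply hl
        have h3 : W.τ f' * W.κ 1 = W.τ (fun i => f (W.mkO (D.map ι) i)) * W.κ l := by
          rw [map_one, mul_one, hf']
        exact Subtype.ext (W.uniq' h3).2.symm
      show _ * π ((tens W'.τ (fun j => Q'.ε (W.orbCol hfix D j))).coeff (W'.τ f * W'.κ l)) =
        _ * π ((tens W.τ (fun i => Q.ε (c i))).coeff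
          (W.τ (fun i => f (W.mkO (D.map ι) i)) * W.κ l))
      rw [h2, h3, map_zero, mul_zero, mul_zero]

end LocEps

end Wr

end Pool.Agent.UBlocks
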