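import Pool.Agent.UBlocks.Tens
import Pool.Agent.UBlocks.Eps

/-!
# Full idempotents in group algebras of wreath products, given by colourings
-/

set_option autoImplicit false

namespace Pool.Agent.UBlocks

open MonoidAlgebra

/-- `X` is the semidirect product of the power `I → S` and of `L`, which permutes `I`. -/
structure Wr (S I L X : Type*) [Group S] [Group L] [Group X] where
  τ : (I → S) →* X
  κ : L →* X
  act : L →* Equiv.Perm I
  conj : ∀ l f, κ l * τ f * (κ l)⁻¹ = τ (fun i => f ((act l).symm i))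
  decomp : ∀ x, ∃ f l, x = τ f * κ l
  uniq : ∀ f l, τ f * κ l = 1 → f = 1 ∧ l = 1

/-- Two idempotents of `R S` of rank one, in different direct factors isomorphic to full matrix
algebras. -/
structure Pair (R S : Type*) [CommRing R] [Group S] [Fintype S] where
  ε : Bool → MonoidAlgebra R S
  u : Bool → Rˣ
  idem : ∀ b, ε b * ε b = ε b
  rank : ∀ b s, ∃ r : R, ε b * dl R s * ε b = r • ε b
  orth : ∀ b b' s, b ≠ b' → ε b * dl R s * ε b' = 0
  trace : ∀ b, (∑ s, cj s (ε b)) * ε b = (u b : R) • ε b
  unit : ∀ b, ∃ s, IsUnit ((ε b).coeff s)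

namespace Wr

variable {S I L X : Type*} [Group S] [Group L] [Group X] (W : Wr S I L X)

theorem inj_tau : Function.Injective W.τ := by
  intro f f' h
  have h1 := (W.uniq (f'⁻¹ * f) 1 (by rw [map_mul, h, map_one, mul_one, map_inv,
    inv_mul_cancel])).1
  exact (inv_mul_eq_one.1 h1).symm

theorem inj_kappa : Function.Injective W.κ := by
  intro l l' h
  have h1 := (W.uniq 1 (l'⁻¹ * l) (by rw [map_mul, h, map_one, one_mul, map_inv,
    inv_mul_cancel])).2
  exact (inv_mul_eq_one.1 h1).symm

theorem uniq' {f f' : I → S} {l l' : L} (h : W.τ f * W.κ l = W.τ f' * W.κ l') :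
    f = f' ∧ l = l' := by
  have h1 : W.τ (f'⁻¹ * f) * W.κ (l * l'⁻¹) = 1 := by
    have h2 : W.τ (f'⁻¹ * f) * W.κ (l * l'⁻¹) =
        (W.τ f')⁻¹ * (W.τ f * W.κ l) * (W.κ l')⁻¹ := by
      rw [map_mul, map_mul, map_inv, map_inv]; group
    rw [h2, h]; group
  obtain ⟨h2, h3⟩ := W.uniq _ _ h1
  exact ⟨(inv_mul_eq_one.1 h2).symm, mul_inv_eq_one.1 h3⟩

theorem kappa_tau (l : L) (f : I → S) :
    W.κ l * W.τ f = W.τ (fun i => f ((W.act l).symm i)) * W.κ l := by
  rw [← W.conj]; group

include W in
theorem finite [Finite S] [Finite I] [Finite L] : Finite X := by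
  classical
  have : Fintype I := Fintype.ofFinite I
  refine Finite.of_surjective (fun t : (I → S) × L => W.τ t.1 * W.κ t.2) ?_
  intro x
  obtain ⟨f, l, h⟩ := W.decomp x
  exact ⟨(f, l), h.symm⟩

section

variable {R G : Type*} [CommRing R] [Group G] [Fintype S] [Fintype I] [DecidableEq I]
  (P : Pair R S) {c : I → Bool} {ι : G →* L}

theorem pair_sum (b b' : Bool) (h : b ≠ b') : (∑ s, cj s (P.ε b)) * P.ε b' = 0 := by
  rw [Finset.sum_mul]
  refine Finset.sum_eq_zero fun s _ => ?_
  unfold cj
  rw [mul_assoc, mul_assoc, ← mul_assoc (P.ε b), P.orth b b' _ h, mul_zero]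

theorem symm_c (hfix : ∀ g i, c (W.act (ι g) i) = c i) (g : G) (i : I) :
    c ((W.act (ι g)).symm i) = c i := by
  conv_rhs => rw [← Equiv.apply_symm_apply (W.act (ι g)) i]
  rw [hfix]

theorem orb_symm (horb : ∀ l, l ∉ ι.range → ∃ i, c (W.act l i) ≠ c i) {l : L}
    (hl : l ∉ ι.range) : ∃ i, c ((W.act l).symm i) ≠ c i := by
  obtain ⟨i, hi⟩ := horb l hl
  refine ⟨W.act l i, ?_⟩
  rw [Equiv.symm_apply_apply]
  exact hi.symm

theorem transversal (hι : Function.Injective ι) :
    Function.Bijective (fun t : (L ⧸ ι.range) × (I → S) =>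
      ((W.κ (Quotient.out t.1) * W.τ t.2 : X) : X ⧸ (W.κ.comp ι).range)) := by
  constructor
  · rintro ⟨p, f⟩ ⟨p', f'⟩ h
    obtain ⟨g, hg⟩ := QuotientGroup.eq.1 h
    have h1 : (W.κ.comp ι) g = W.κ (ι g) := rfl
    rw [h1] at hg
    have h2 : W.τ f * W.κ (ι g) = W.κ ((Quotient.out p)⁻¹ * Quotient.out p') * W.τ f' := by
      rw [hg, map_mul, map_inv]; group
    rw [kappa_tau] at h2
    obtain ⟨h3, h4⟩ := W.uniq' h2
    have h5 : p = p' := by
      rw [← QuotientGroup.out_eq' p, ← QuotientGroup.out_eq' p']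
      apply QuotientGroup.eq.2
      exact ⟨g, h4⟩
    subst h5
    rw [inv_mul_cancel] at h3
    have h6 : f = f' := by
      rw [h3]
      funext i
      rw [map_one]
      rfl
    rw [h6]
  · intro x
    obtain ⟨x, rfl⟩ := QuotientGroup.mk_surjective x
    obtain ⟨f, l, rfl⟩ := W.decomp x
    have h1 : (Quotient.out (l : L ⧸ ι.range))⁻¹ * l ∈ ι.range := by
      rw [← QuotientGroup.eq, QuotientGroup.out_eq']
    obtain ⟨g, hg⟩ := h1
    set p := (l : L ⧸ ι.range) with hp
    have hl : l = Quotient.out p * ι g := by rw [hg]; group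
    refine ⟨(p, fun i => f (W.act (Quotient.out p) i)), ?_⟩
    apply QuotientGroup.eq.2
    refine ⟨g, ?_⟩
    have h2 : W.κ (Quotient.out p) * W.τ (fun i => f (W.act (Quotient.out p) i)) =
        W.τ f * W.κ (Quotient.out p) := by
      rw [kappa_tau]
      simp
    dsimp only
    rw [h2, MonoidHom.comp_apply]
    conv_rhs => rw [hl, map_mul]
    group

/-- The full idempotent of a colouring. -/
noncomputable def toEps [Finite L] (hι : Function.Injective ι)
    (hfix : ∀ g i, c (W.act (ι g) i) = c i)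
    (horb : ∀ l, l ∉ ι.range → ∃ i, c (W.act l i) ≠ c i) : Eps R G X where
  σ := W.κ.comp ι
  ε := tens W.τ (fun i => P.ε (c i))
  u := ∏ i, P.u (c i)
  inj := W.inj_kappa.comp hι
  idem := by
    rw [tens_mul]
    congr 1
    funext i
    exact P.idem _
  comm g := by
    have h1 : ∀ f, (W.κ.comp ι) g * W.τ f * ((W.κ.comp ι) g)⁻¹ =
        W.τ (fun i => f ((W.act (ι g)).symm i)) := fun f => W.conj _ _
    rw [cj_perm W.τ h1]
    congr 1
    funext i
    rw [W.symm_c hfix]
  corner x := by
    obtain ⟨f, l, rfl⟩ := W.decomp x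
    have h1 : tens W.τ (fun i => P.ε (c i)) * dl R (W.τ f * W.κ l) *
        tens W.τ (fun i => P.ε (c i)) = tens W.τ (fun i => P.ε (c i) * dl R (f i) *
          P.ε (c ((W.act l).symm i))) * dl R (W.κ l) := by
      have h2 : dl R (W.κ l) * tens W.τ (fun i => P.ε (c i)) =
          tens W.τ (fun i => P.ε (c ((W.act l).symm i))) * dl R (W.κ l) := by
        rw [← cj_perm W.τ (W.conj l) (fun i => P.ε (c i))]
        unfold cj
        rw [mul_assoc, dl_inv_mul, mul_one]
      rw [dl_mul, mul_assoc, mul_assoc, h2, ← mul_assoc, ← mul_assoc, ← tens_dl, tens_mul,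
        tens_mul]
    rw [h1]
    by_cases hl : l ∈ ι.range
    · obtain ⟨g, rfl⟩ := hl
      choose r hr using fun i => P.rank (c i) (f i)
      refine ⟨(∏ i, r i) • dl R g, ?_⟩
      have h3 : (fun i => P.ε (c i) * dl R (f i) * P.ε (c ((W.act (ι g)).symm i))) =
          fun i => r i • P.ε (c i) := by
        funext i
        rw [W.symm_c hfix, hr]
      have h4 : ∀ f, (W.κ.comp ι) g * W.τ f * ((W.κ.comp ι) g)⁻¹ =
        W.τ (fun i => f ((W.act (ι g)).symm i)) := fun f => W.conj _ _
      have h5 : cj (W.κ (ι g)) (tens W.τ (fun i => P.ε (c i))) =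
          tens W.τ (fun i => P.ε (c i)) := by
        rw [cj_perm W.τ (W.conj (ι g))]
        congr 1
        funext i
        rw [W.symm_c hfix]
      rw [h3, tens_smul, map_smul, inc_dl, smul_mul_assoc, smul_mul_assoc, MonoidHom.comp_apply,
        (cj_eq_iff _ _).1 h5]
    · obtain ⟨i, hi⟩ := W.orb_symm horb hl
      refine ⟨0, ?_⟩
      rw [tens_zero W.τ (i := i) (P.orth _ _ _ hi.symm), zero_mul, map_zero, zero_mul]
  faithful a ha := by
    classical
    choose s hs using P.unit
    let t : X := W.τ (fun i => s (c i))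
    have ht : (tens W.τ (fun i => P.ε (c i))).coeff t = ∏ i, (P.ε (c i)).coeff (s (c i)) :=
      coeff_tens W.τ W.inj_tau _ _
    have htu : IsUnit ((tens W.τ (fun i => P.ε (c i))).coeff t) := by
      rw [ht]
      exact (Finset.univ.prod_induction _ IsUnit (fun _ _ => IsUnit.mul) isUnit_one
        fun i _ => hs (c i))
    have ht0 : ∀ g, g ≠ 1 → (tens W.τ (fun i => P.ε (c i))).coeff ((W.κ.comp ι) g * t) = 0 := by
      intro g hg
      apply coeff_tens_zero
      intro f hf
      apply hg
      have h1 : W.τ f * W.κ 1 = W.τ (fun i => s (c ((W.act (ι g)).symm i))) * W.κ (ι g) := by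
        rw [map_one, mul_one, hf]
        exact W.kappa_tau _ _
      exact hι ((W.uniq' h1).2.symm.trans (map_one ι).symm)
    ext g
    have h1 : (inc R (W.κ.comp ι) a * tens W.τ (fun i => P.ε (c i))).coeff
        ((W.κ.comp ι) g * t) = a.coeff g * (tens W.τ (fun i => P.ε (c i))).coeff t := by
      have : inc R (W.κ.comp ι) a = ∑ h ∈ a.coeff.support, a.coeff h • dl R ((W.κ.comp ι) h) := by
        conv_lhs => rw [← MonoidAlgebra.sum_coeff_single a]
        unfold Finsupp.sum
        rw [map_sum]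
        refine Finset.sum_congr rfl fun h _ => ?_
        have : single h (a.coeff h) = a.coeff h • dl R h := by
          simp [dl]
        rw [this, map_smul, inc_dl]
      rw [this, Finset.sum_mul, coeff_sum, Finset.sum_apply']
      have h2 : ∀ h ∈ a.coeff.support, (a.coeff h • dl R ((W.κ.comp ι) h) *
          tens W.τ (fun i => P.ε (c i))).coeff ((W.κ.comp ι) g * t) =
          if h = g then a.coeff g * (tens W.τ (fun i => P.ε (c i))).coeff t else 0 := by
        intro h _
        rw [smul_mul_assoc, coeff_smul, Finsupp.smul_apply, coeff_dl_mul]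
        by_cases hgh : h = g
        · subst hgh
          rw [if_pos rfl, inv_mul_cancel_left, smul_eq_mul]
        · rw [if_neg hgh, ← mul_assoc, ← map_inv, ← map_mul, ht0 _ fun h' =>
            hgh (inv_mul_eq_one.1 h'), smul_zero]
      rw [Finset.sum_congr rfl h2, Finset.sum_ite_eq']
      by_cases hg : g ∈ a.coeff.support
      · rw [if_pos hg]
      · rw [if_neg hg, Finsupp.notMem_support_iff.1 hg, zero_mul]
    rw [ha] at h1
    have h2 : a.coeff g * (tens W.τ (fun i => P.ε (c i))).coeff t = 0 := h1.symm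
    have h3 := (IsUnit.mul_left_eq_zero htu).1 h2
    rw [h3]
    rfl
  trace := by
    classical
    have : Finite X := W.finite
    have : Fintype (X ⧸ (W.κ.comp ι).range) := Fintype.ofFinite _
    have : Fintype (L ⧸ ι.range) := Fintype.ofFinite _
    rw [finsum_eq_sum_of_fintype]
    have hT : ∀ t ∈ (W.κ.comp ι).range, cj t (tens W.τ (fun i => P.ε (c i))) =
        tens W.τ (fun i => P.ε (c i)) := by
      rintro _ ⟨g, rfl⟩
      have h1 : ∀ f, (W.κ.comp ι) g * W.τ f * ((W.κ.comp ι) g)⁻¹ =
        W.τ (fun i => f ((W.act (ι g)).symm i)) := fun f => W.conj _ _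
      rw [cj_perm W.τ h1]
      congr 1
      funext i
      rw [W.symm_c hfix]
    have h0 := tr_transversal hT (fun t : (L ⧸ ι.range) × (I → S) =>
      W.κ (Quotient.out t.1) * W.τ t.2) (W.transversal hι)
    unfold tr at h0
    rw [h0, Fintype.sum_prod_type, Finset.sum_mul]
    have h1 : ∀ p : L ⧸ ι.range, (∑ f : I → S, cj (W.κ (Quotient.out p) * W.τ f)
        (tens W.τ (fun i => P.ε (c i)))) * tens W.τ (fun i => P.ε (c i)) =
        tens W.τ (fun i => (∑ s, cj s (P.ε (c ((W.act (Quotient.out p)).symm i)))) *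
          P.ε (c i)) := by
      intro p
      have h2 : (∑ f : I → S, cj (W.κ (Quotient.out p) * W.τ f)
          (tens W.τ (fun i => P.ε (c i)))) = cj (W.κ (Quotient.out p))
          (tens W.τ (fun i => ∑ s, cj s (P.ε (c i)))) := by
        rw [tens_sum W.τ (fun i s => cj s (P.ε (c i))), cj_sum]
        refine Finset.sum_congr rfl fun f _ => ?_
        rw [← cj_cj, cj_tens]
      rw [h2, cj_perm W.τ (W.conj _), tens_mul]
    rw [Finset.sum_congr rfl fun p _ => h1 p, Finset.sum_eq_single ((1 : L) : L ⧸ ι.range)]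
    · have h2 : Quotient.out ((1 : L) : L ⧸ ι.range) ∈ ι.range := by
        have h3 : ((Quotient.out ((1 : L) : L ⧸ ι.range) : L) : L ⧸ ι.range) =
          ((1 : L) : L ⧸ ι.range) := QuotientGroup.out_eq' _
        simpa using QuotientGroup.eq.1 h3.symm
      obtain ⟨g, hg⟩ := h2
      rw [← hg]
      have h3 : (fun i => (∑ s, cj s (P.ε (c ((W.act (ι g)).symm i)))) * P.ε (c i)) =
          fun i => (P.u (c i) : R) • P.ε (c i) := by
        funext i
        rw [W.symm_c hfix, P.trace]
      rw [h3, tens_smul, Units.coe_prod]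
    · intro p _ hp
      have h2 : Quotient.out p ∉ ι.range := by
        intro h
        apply hp
        rw [← QuotientGroup.out_eq' p]
        exact (QuotientGroup.eq.2 (by simpa using ι.range.inv_mem h))
      obtain ⟨i, hi⟩ := W.orb_symm horb h2
      exact tens_zero W.τ (i := i) (pair_sum P _ _ hi)
    · intro h; exact absurd (Finset.mem_univ _) h

end

end Wr

end Pool.Agent.UBlocks
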