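import Pool.Agent.UBlocks.Aff
import Pool.Agent.UBlocks.WrEps
import Pool.Agent.MP_a15589_al.TopGp

/-!
# Regular wreath products of simple groups
-/

set_option autoImplicit false

namespace Pool.Agent.UBlocks

open RegularWreathProduct MP_a15589_al

/-- The regular wreath product of a nonabelian simple group and a finite simple group has exactly
one normal subgroup other than the trivial ones. -/
theorem oneNormal_wreath (S P : Type*) [Group S] [Fintype S] [Group P] [Fintype P]
    [IsSimpleGroup S] [IsSimpleGroup P] (hS : ∃ a b : S, a * b ≠ b * a) :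
    OneNormal (RegularWreathProduct S P) := by
  classical
  have hZ : ∀ a : S, (∀ b, a * b = b * a) → a = 1 := by
    intro a ha
    have h1 : a ∈ Subgroup.center S := Subgroup.mem_center_iff.2 fun b => (ha b).symm
    rcases (inferInstance : (Subgroup.center S).Normal).eq_bot_or_eq_top with h2 | h2
    · rw [h2, Subgroup.mem_bot] at h1; exact h1
    · exfalso
      obtain ⟨x, y, hxy⟩ := hS
      have h3 : x ∈ Subgroup.center S := by rw [h2]; exact Subgroup.mem_top _
      exact hxy ((Subgroup.mem_center_iff.1 h3) y).symm
  have hker : ∀ x : RegularWreathProduct S P,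
      x ∈ (rightHom : RegularWreathProduct S P →* P).ker ↔ x.right = 1 := fun x => Iff.rfl
  obtain ⟨s0, hs0⟩ := exists_ne (1 : S)
  obtain ⟨p0, hp0⟩ := exists_ne (1 : P)
  refine ⟨(rightHom : RegularWreathProduct S P →* P).ker, ?_, ?_, fun M => ⟨fun hM => ?_, ?_⟩⟩
  · intro h
    have h1 : (dlt 1 s0 : RegularWreathProduct S P) ∈
        (rightHom : RegularWreathProduct S P →* P).ker := (hker _).2 rfl
    rw [h, Subgroup.mem_bot] at h1
    apply hs0
    have h2 := congrArg (fun w : RegularWreathProduct S P => w.left 1) h1
    simpa [dlt_left_self] using h2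
  · intro h
    have h1 : (inl p0 : RegularWreathProduct S P) ∈
        (rightHom : RegularWreathProduct S P →* P).ker := by rw [h]; exact Subgroup.mem_top _
    exact hp0 ((hker _).1 h1)
  · by_cases hbot : M = ⊥
    · exact Or.inl hbot
    right
    have hcomm : ∀ w ∈ M, ∀ v : RegularWreathProduct S P, w * v * w⁻¹ * v⁻¹ ∈ M := by
      intro w hw v
      have h3 : w * (v * w⁻¹ * v⁻¹) ∈ M := M.mul_mem hw (hM.conj_mem _ (M.inv_mem hw) _)
      simpa [mul_assoc] using h3
    -- an element of the base
    obtain ⟨w, hw, hwr, hw1⟩ : ∃ w ∈ M, w.right = 1 ∧ w ≠ 1 := by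
      obtain ⟨w, hw, hw1⟩ : ∃ w ∈ M, w ≠ 1 := by
        by_contra hcon
        push Not at hcon
        exact hbot (eq_bot_iff.2 fun A hA => Subgroup.mem_bot.2 (hcon A hA))
      by_cases hr : w.right = 1
      · exact ⟨w, hw, hr, hw1⟩
      · refine ⟨_, hcomm w hw (dlt 1 s0), by simp [dlt_right], ?_⟩
        intro h
        apply hs0
        have h2 := congrArg (fun w : RegularWreathProduct S P => w.left 1) h
        have h3 : w.right⁻¹ * 1 ≠ 1 := by simpa using hr
        have h4 : (dlt (1 : P) s0 : RegularWreathProduct S P).left w.right⁻¹ = 1 :=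
          dlt_left_ne (by simpa using h3) s0
        simp [dlt_left_self, dlt_right, h4] at h2
        exact h2
    obtain ⟨x, hx⟩ : ∃ x, w.left x ≠ 1 := by
      by_contra hcon
      push Not at hcon
      exact hw1 (RegularWreathProduct.ext (funext hcon) hwr)
    obtain ⟨s, hs⟩ : ∃ s, w.left x * s ≠ s * w.left x := by
      by_contra hcon
      push Not at hcon
      exact hx (hZ _ hcon)
    have hd : (dlt x (w.left x * s * (w.left x)⁻¹ * s⁻¹) : RegularWreathProduct S P) ∈ M := by
      have h1 := hcomm w hw (dlt x s)
      have h2 : w * dlt x s * w⁻¹ * (dlt x s)⁻¹ =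
          dlt x (w.left x * s * (w.left x)⁻¹ * s⁻¹) := by
        ext j
        · by_cases hj : j = x
          · subst hj
            simp [dlt_left_self, dlt_right, hwr]
          · simp [dlt_left_ne hj, dlt_right, hwr]
        · simp [dlt_right]
      rwa [h2] at h1
    let H : Subgroup S :=
      { carrier := {a | (dlt x a : RegularWreathProduct S P) ∈ M}
        one_mem' := by
          show (dlt x (1 : S) : RegularWreathProduct S P) ∈ M
          rw [dlt_one]; exact M.one_mem
        mul_mem' := fun {a b} ha hb => by
          show (dlt x (a * b) : RegularWreathProduct S P) ∈ M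
          rw [dlt_mul]; exact M.mul_mem ha hb
        inv_mem' := fun {a} ha => by
          show (dlt x a⁻¹ : RegularWreathProduct S P) ∈ M
          rw [← dlt_inv]; exact M.inv_mem ha }
    have hHn : H.Normal := ⟨fun a ha b => by
      show (dlt x (b * a * b⁻¹) : RegularWreathProduct S P) ∈ M
      rw [dlt_mul, dlt_mul, ← dlt_inv]
      exact hM.conj_mem _ ha _⟩
    have hHt : H = ⊤ := by
      rcases hHn.eq_bot_or_eq_top with h1 | h1
      · exfalso
        have h2 : w.left x * s * (w.left x)⁻¹ * s⁻¹ ∈ H := hd
        rw [h1, Subgroup.mem_bot] at h2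
        apply hs
        have h3 := mul_inv_eq_one.1 h2
        exact mul_inv_eq_iff_eq_mul.1 h3
      · exact h1
    have hall : ∀ (y : P) (a : S), (dlt y a : RegularWreathProduct S P) ∈ M := by
      intro y a
      have h1 : a ∈ H := by rw [hHt]; exact Subgroup.mem_top _
      have h2 := hM.conj_mem _ h1 (inl (y * x⁻¹))
      rw [inl_conj, inv_mul_cancel_right] at h2
      exact h2
    let ιb : (P → S) →* RegularWreathProduct S P :=
      { toFun := fun f => ⟨f, 1⟩
        map_one' := rfl
        map_mul' := fun f g => by ext <;> simp }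
    have hle : (rightHom : RegularWreathProduct S P →* P).ker ≤ M := by
      intro v hv
      have h1 : v.left ∈ M.comap ιb := by
        apply Subgroup.pi_mem_of_mulSingle_mem
        intro y
        exact hall y (v.left y)
      have h2 : ιb v.left = v := RegularWreathProduct.ext rfl ((hker v).1 hv).symm
      rw [Subgroup.mem_comap, h2] at h1
      exact h1
    have hsurj : Function.Surjective (rightHom : RegularWreathProduct S P →* P) := fun q =>
      ⟨inl q, rfl⟩
    rcases (hM.map _ hsurj).eq_bot_or_eq_top with h4 | h4
    · left
      refine le_antisymm ?_ hle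
      intro v hv
      have h5 : rightHom v ∈ M.map (rightHom : RegularWreathProduct S P →* P) := ⟨v, hv, rfl⟩
      rw [h4, Subgroup.mem_bot] at h5
      exact h5
    · right
      have h5 := Subgroup.comap_map_eq (rightHom : RegularWreathProduct S P →* P) M
      rw [h4, Subgroup.comap_top, sup_eq_left.2 hle] at h5
      exact h5.symm
  · rintro (rfl | rfl | rfl) <;> infer_instance

/-- The regular wreath product. -/
def regWr (S P : Type*) [Group S] [Group P] : Wr S P P (RegularWreathProduct S P) where
  τ :=
    { toFun := fun f => ⟨f, 1⟩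
      map_one' := rfl
      map_mul' := fun f g => by ext <;> simp }
  κ := inl
  act :=
    { toFun := fun l => Equiv.mulLeft l
      map_one' := by ext; simp
      map_mul' := fun l m => by ext; simp }
  conj l f := by
    ext j
    · simp
    · simp
  decomp x := ⟨x.left, x.right, by ext <;> simp⟩
  uniq f l h := by
    have h1 := congrArg RegularWreathProduct.left h
    have h2 := congrArg RegularWreathProduct.right h
    refine ⟨funext fun j => ?_, by simpa using h2⟩
    have h3 := congrFun h1 j
    simpa using h3

end Pool.Agent.UBlocks
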