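import Pool.Agent.UBlocks.Broue
import Pool.Agent.UBlocks.WrLoc
import Pool.Agent.UBlocks.WrOne
import Pool.Agent.UBlocks.BorelR
import Pool.Agent.UBlocks.EpsCor
import Pool.Agent.UBlocks.PSL2

/-!
# Broué's conjecture and wreath products of simple groups
-/

set_option autoImplicit false

namespace Pool.Agent.UBlocks

open MonoidAlgebra IsLocalRing Matrix

open scoped MatrixGroups

universe u

theorem Eps.transfer {ℓ : ℕ} [Fact ℓ.Prime] {Λ : Type u} [CommRing Λ]
    [IsLocalRing Λ] [CharP (ResidueField Λ) ℓ] {G X : Type} [Group G] [Group X]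
    [Finite G] [Finite X] (C : Eps Λ G X) (h1 : IsUnit (C.ε.coeff 1))
    (h0 : ∀ g, g ≠ 1 → C.ε.coeff (C.σ g) = 0)
    (hloc : ∀ D : Subgroup G, IsPGroup ℓ D → Nonempty (EpsLoc (residue Λ) C D))
    (h : Broue ℓ Λ X) : Broue ℓ Λ G := by
  classical
  intro b hb D c hc hbD hab hbc
  obtain ⟨L⟩ := hloc D hbD.pgroup
  have : Fintype X := Fintype.ofFinite _
  have : Fintype G := Fintype.ofFinite _
  have : Fintype (X ⧸ C.σ.range) := Fintype.ofFinite _
  have : Fintype (nz D) := Fintype.ofFinite _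
  have : Fintype (nz (D.map C.σ)) := Fintype.ofFinite _
  have : Fintype (nz (D.map C.σ) ⧸ L.E.σ.range) := Fintype.ofFinite _
  have hB := C.up_isBlk hb
  have hC := L.E.up_isBlk hc
  have h2 : DbEquiv (BlkAlg hB) (BlkAlg hC) := by
    refine h _ hB (D.map C.σ) _ hC ⟨hbD.pgroup.map _, C.trFrom_up hbD.trace,
      C.br_up_ne (residue Λ) hbD.pgroup h1 h0 hb.central hbD.br⟩ ?_ ?_
    · rintro _ ⟨x, hx, rfl⟩ _ ⟨y, hy, rfl⟩
      rw [← map_mul, ← map_mul, hab x hx y hy]
    · intro g hg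
      exact L.br_up hbD.pgroup hb.central hbD.trace hc.central hbc g hg
  exact ((C.dbEquiv hb).trans h2).trans (L.E.dbEquiv hc).symm

/-- the orbits of a subgroup of `P` on `P` -/
theorem card_orb {S P : Type} [Group S] [Group P] [Fintype P] [DecidableEq P] (E : Subgroup P)
    [DecidableEq ((regWr S P).Orb E)] (j : (regWr S P).Orb E) :
    (Finset.univ.filter (fun i => (regWr S P).mkO E i = j)).card = Nat.card E := by
  classical
  obtain ⟨x, rfl⟩ := (regWr S P).mkO_surj E j
  rw [← Fintype.card_subtype, ← Nat.card_eq_fintype_card]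
  refine Nat.card_congr ?_
  refine (Equiv.ofBijective (fun e : E => (⟨(e : P) * x, ?_⟩ :
    {i : P // (regWr S P).mkO E i = (regWr S P).mkO E x})) ⟨?_, ?_⟩).symm
  · exact (regWr S P).mkO_act E e.2 x
  · intro e e' he
    exact Subtype.ext (mul_right_cancel (congrArg Subtype.val he))
  · rintro ⟨i, hi⟩
    obtain ⟨e, he, h⟩ := Quotient.exact (s := (regWr S P).rel E) hi
    have h1 : e * i = x := h
    refine ⟨⟨e⁻¹, E.inv_mem he⟩, Subtype.ext ?_⟩
    show e⁻¹ * x = i
    rw [← h1, inv_mul_cancel_left]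

/-- Broué's conjecture for `S ≀ P` implies the conjecture for the subgroups of `P`, if `S` has two
different irreducible modules which are induced from linear characters of an `ℓ'`-subgroup. -/
theorem broue_mono {ℓ : ℕ} [Fact ℓ.Prime] {Λ : Type u} [CommRing Λ] [IsDomain Λ]
    [IsLocalRing Λ] [CharP (ResidueField Λ) ℓ] {S G P : Type} [Group S] [Group G] [Group P]
    [Finite S] [Finite P] {B : Subgroup S} [Fintype B] {l : Bool → (B →* Λˣ)} (M : MonoR l)
    (f : G →* P) (hf : Function.Injective f)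
    (h : Broue ℓ Λ (RegularWreathProduct S P)) : Broue ℓ Λ G := by
  classical
  have : Fintype S := Fintype.ofFinite _
  have : Fintype P := Fintype.ofFinite _
  have : Finite G := Finite.of_injective f hf
  have hcard : ∀ D : Subgroup G, IsPGroup ℓ D → ∃ r : ℕ, Nat.card D = ℓ ^ r ∧
      (ℓ ^ r).Coprime (Fintype.card B) := by
    intro D hD
    obtain ⟨r, hr⟩ := IsPGroup.iff_card.1 hD
    refine ⟨r, hr, Nat.Coprime.pow_left _ (((Fact.out : ℓ.Prime).coprime_iff_not_dvd).2 ?_)⟩
    intro h2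
    have h3 := M.card
    rw [← residue_ne_zero_iff_isUnit, map_natCast, Ne,
      CharP.cast_eq_zero_iff (ResidueField Λ) ℓ] at h3
    exact h3 h2
  have hfix : ∀ (g : G) (i : P), decide ((regWr S P).act (f g) i ∈ f.range) =
      decide (i ∈ f.range) := by
    intro g i
    have h1 : (regWr S P).act (f g) i = f g * i := rfl
    rw [h1]
    congr 1
    exact propext (Subgroup.mul_mem_cancel_left _ ⟨g, rfl⟩)
  have horb : ∀ l, l ∉ f.range → ∃ i : P, decide ((regWr S P).act l i ∈ f.range) ≠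
      decide (i ∈ f.range) := by
    intro l hl
    refine ⟨1, ?_⟩
    have h1 : (regWr S P).act l 1 = l := mul_one l
    rw [h1]
    have h2 : (1 : P) ∈ f.range := f.range.one_mem
    simp [hl, h2]
  have hX : Finite (RegularWreathProduct S P) := (regWr S P).finite
  let C : Eps Λ G (RegularWreathProduct S P) :=
    (regWr S P).toEps M.pair (c := fun x => decide (x ∈ f.range)) hf hfix horb
  have hC : C.ε = tens (regWr S P).τ (fun i => M.pair.ε (decide (i ∈ f.range))) := rfl
  refine Eps.transfer C ?_ ?_ ?_ h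
  · have h1 : C.ε.coeff 1 = ∏ i : P, (M.pair.ε (decide (i ∈ f.range))).coeff 1 := by
      have h2 := coeff_tens (regWr S P).τ (regWr S P).inj_tau
        (fun i => M.pair.ε (decide (i ∈ f.range))) 1
      rw [map_one] at h2
      exact h2
    rw [h1]
    refine Finset.univ.prod_induction _ IsUnit (fun _ _ => IsUnit.mul) isUnit_one fun i _ => ?_
    show IsUnit ((linR M.card (l (decide (i ∈ f.range)))).coeff ((1 : B) : S))
    rw [coeff_linR]
    exact (Units.isUnit _).mul (Units.isUnit _)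
  · intro g hg
    rw [hC]
    apply coeff_tens_zero
    intro F hF
    apply hg
    have h1 : (regWr S P).τ F * (regWr S P).κ 1 =
        (regWr S P).τ 1 * (regWr S P).κ (f g) := by
      rw [map_one, mul_one, map_one, one_mul, hF]
      rfl
    have h2 := ((regWr S P).uniq' h1).2
    exact hf (h2.symm.trans (map_one f).symm)
  · intro D hD
    obtain ⟨r, hr, hN⟩ := hcard D hD
    have : Fintype ((regWr S P).Orb (D.map f)) := Fintype.ofFinite _
    refine ⟨(regWr S P).epsLoc M.pair hf hfix horb D (residue Λ) (M.pow hN).pair ?_ ?_⟩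
    · intro j
      rw [card_orb]
      exact (Nat.card_congr (D.equivMapOfInjective f hf).toEquiv).symm
    · intro a s
      rw [hr]
      exact M.compat (residue Λ) hN a s

/-- two irreducible induced modules of `PSL_2(q)` -/
theorem exists_chars {M : Type*} [CommGroup M] {q m : ℕ} [Fact q.Prime] (hm : q = 2 * m + 1)
    (z : M) (hz : z ^ m = 1) (hne : ∀ i : ℕ, 0 < i → i < 5 → z ^ i ≠ 1) :
    ∃ l : Bool → (PBor (ZMod q) →* M), (∃ b, l false b ≠ l true b) ∧
      ∀ (a a' : Bool) (s : PSL(2, ZMod q)), s ∉ PBor (ZMod q) →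
        ∃ b c : PBor (ZMod q), (b : PSL(2, ZMod q)) * s = s * c ∧ l a b ≠ l a' c := by
  obtain ⟨g, hg⟩ := (inferInstance : IsCyclic (ZMod q)ˣ).exists_generator
  obtain ⟨θ₀, h0, h0g⟩ := exists_char hm g hg z hz
  obtain ⟨θ₁, h1, h1g⟩ := exists_char hm g hg (z ^ 2) (by
    rw [← pow_mul, mul_comm, pow_mul, hz, one_pow])
  refine ⟨fun a => cond a (PBor.char θ₁ h1) (PBor.char θ₀ h0), ?_, ?_⟩
  · obtain ⟨b, c, hbc, hb, hc⟩ := exists_conj (mat (0 : ZMod q) (-1) 1 0 (by ring))
      (by show (1 : ZMod q) ≠ 0; exact one_ne_zero) g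
    refine ⟨⟨(b.1 : PSL(2, ZMod q)), mem_PBor.2 b.2⟩, ?_⟩
    intro h2
    simp only [cond_false, cond_true] at h2
    rw [PBor.char_mk, PBor.char_mk, hb, h0g, h1g, pow_two] at h2
    exact hne 1 one_pos (by omega) (by
      rw [pow_one]
      exact (mul_eq_left.1 h2.symm))
  · intro a a' s hs
    obtain ⟨s, rfl⟩ := QuotientGroup.mk_surjective s
    have hs' : s.1 1 0 ≠ 0 := fun h => hs (mem_PBor.2 h)
    obtain ⟨b, c, hbc, hb, hc⟩ := exists_conj s hs' g
    refine ⟨⟨(b.1 : PSL(2, ZMod q)), mem_PBor.2 b.2⟩, ⟨(c.1 : PSL(2, ZMod q)), mem_PBor.2 c.2⟩,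
      ?_, ?_⟩
    · show (b.1 : PSL(2, ZMod q)) * (s : PSL(2, ZMod q)) =
        (s : PSL(2, ZMod q)) * (c.1 : PSL(2, ZMod q))
      rw [← QuotientGroup.mk_mul, ← QuotientGroup.mk_mul, hbc]
    · intro h
      have h2 : ∀ (θ θ' : (ZMod q)ˣ →* M) (hθ : θ (-1) = 1) (hθ' : θ' (-1) = 1),
          PBor.char θ hθ ⟨(b.1 : PSL(2, ZMod q)), mem_PBor.2 b.2⟩ =
            PBor.char θ' hθ' ⟨(c.1 : PSL(2, ZMod q)), mem_PBor.2 c.2⟩ → θ g * θ' g = 1 := by
        intro θ θ' hθ hθ' he
        rw [PBor.char_mk, PBor.char_mk, hb, hc, map_inv] at he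
        rw [he, inv_mul_cancel]
      rcases a with _ | _ <;> rcases a' with _ | _
      · have h3 := h2 _ _ h0 h0 h
        rw [h0g] at h3
        exact hne 2 (by omega) (by omega) (by rw [pow_two]; exact h3)
      · have h3 := h2 _ _ h0 h1 h
        rw [h0g, h1g] at h3
        exact hne 3 (by omega) (by omega) (by rw [← h3]; exact pow_succ' z 2)
      · have h3 := h2 _ _ h1 h0 h
        rw [h0g, h1g] at h3
        exact hne 3 (by omega) (by omega) (by rw [← h3]; exact pow_succ z 2)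
      · have h3 := h2 _ _ h1 h1 h
        rw [h1g] at h3
        exact hne 4 (by omega) (by omega) (by rw [← h3, ← pow_add])

/-- Broué's conjecture for `PSL_2(q) ≀ P` implies the conjecture for the subgroups of `P`. -/
theorem broue_psl (ℓ : ℕ) (hℓ : ℓ.Prime) (q m : ℕ) (hq : q.Prime) (hm : q = 2 * m + 1)
    (h5 : 5 ≤ m) (hℓm : ¬ ℓ ∣ m * q) (G P : Type) [Group G] [Group P] [Finite P]
    [IsSimpleGroup P] (f : G →* P) (hf : Function.Injective f) :
    OneNormal (RegularWreathProduct PSL(2, ZMod q) P) ∧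
      ∀ (Λ : Type u) [CommRing Λ] [IsDomain Λ] [IsLocalRing Λ] [CharP (ResidueField Λ) ℓ]
        (ζ : Λ), IsPrimitiveRoot ζ m →
          Broue ℓ Λ (RegularWreathProduct PSL(2, ZMod q) P) → Broue ℓ Λ G := by
  classical
  have : Fact q.Prime := ⟨hq⟩
  have : Fact ℓ.Prime := ⟨hℓ⟩
  have hS : IsSimpleGroup PSL(2, ZMod q) :=
    Matrix.ProjectiveSpecialLinearGroup.rank_two_simple (by
      rw [Nat.card_eq_fintype_card, ZMod.card]
      omega)
  have : Fintype PSL(2, ZMod q) := Fintype.ofFinite _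
  have : Fintype P := Fintype.ofFinite _
  have : Fintype (PBor (ZMod q)) := Fintype.ofFinite _
  refine ⟨oneNormal_wreath _ _ noncomm, ?_⟩
  intro Λ _ _ _ _ ζ hζ h
  have hm0 : m ≠ 0 := by omega
  let z : Λˣ := hζ.isUnit hm0 |>.unit
  have hz : IsPrimitiveRoot z m := by
    apply IsPrimitiveRoot.of_map_of_injective (f := Units.coeHom Λ) _ Units.val_injective
    exact hζ
  have hne : ∀ i : ℕ, 0 < i → i < 5 → z ^ i ≠ 1 := fun i hi hi5 =>
    hz.pow_ne_one_of_pos_of_lt hi.ne' (by omega)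
  obtain ⟨l, hl1, hl2⟩ := exists_chars hm z hz.pow_eq_one hne
  have hcard : IsUnit ((Fintype.card (PBor (ZMod q)) : ℕ) : Λ) := by
    rw [← residue_ne_zero_iff_isUnit, map_natCast]
    exact card_ne_zero hm hℓ hℓm
  exact broue_mono ⟨hcard, hl1, hl2⟩ f hf h

end Pool.Agent.UBlocks
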