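import Pool.Agent.UBlocks.WrEps
import Pool.Agent.UBlocks.TraceUp

/-!
# Idempotents of rank one in blocks of defect zero
-/

set_option autoImplicit false

namespace Pool.Agent.UBlocks

open MonoidAlgebra

variable {k S : Type*} [Field k] [Group S] [Fintype S]

/-- the sum of all conjugates -/
noncomputable def T1 (y : MonoidAlgebra k S) : MonoidAlgebra k S := ∑ s, cj s y

theorem T1_add (y z : MonoidAlgebra k S) : T1 (y + z) = T1 y + T1 z := by
  unfold T1; rw [← Finset.sum_add_distrib]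
  exact Finset.sum_congr rfl fun s _ => cj_add _ _ _

theorem T1_smul (c : k) (y : MonoidAlgebra k S) : T1 (c • y) = c • T1 y := by
  unfold T1; rw [Finset.smul_sum]
  exact Finset.sum_congr rfl fun s _ => cj_smul _ _ _

theorem T1_zero : T1 (0 : MonoidAlgebra k S) = 0 := by
  unfold T1 cj; simp

theorem T1_cj (s : S) (y : MonoidAlgebra k S) : T1 (cj s y) = T1 y := by
  unfold T1
  simp only [cj_cj]
  exact Equiv.sum_comp (Equiv.mulRight s) (fun x => cj x y)

theorem T1_comm (y z : MonoidAlgebra k S) : T1 (y * z) = T1 (z * y) := by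
  have h1 : ∀ s : S, T1 (dl k s * z) = T1 (z * dl k s) := by
    intro s
    rw [← T1_cj s (z * dl k s)]
    congr 1
    unfold cj
    rw [mul_assoc, mul_assoc, dl_mul_inv, mul_one]
  rw [eq_sum_dl y, Finset.sum_mul, Finset.mul_sum]
  have h2 : ∀ (t : Finset S) (f : S → MonoidAlgebra k S), T1 (∑ s ∈ t, f s) =
      ∑ s ∈ t, T1 (f s) := by
    intro t f
    unfold T1
    rw [Finset.sum_comm]
    exact Finset.sum_congr rfl fun s _ => cj_sum _ _ _
  rw [h2, h2]
  refine Finset.sum_congr rfl fun s _ => ?_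
  rw [smul_mul_assoc, mul_smul_comm, T1_smul, T1_smul, h1]

theorem T1_mul_central {e : MonoidAlgebra k S} (he : ∀ x, x * e = e * x)
    (y : MonoidAlgebra k S) : T1 y * e = T1 (y * e) := by
  unfold T1
  rw [Finset.sum_mul]
  refine Finset.sum_congr rfl fun s _ => ?_
  rw [cj_mul, (cj_eq_iff s e).2 (he (dl k s))]

theorem exists_T1 {e : MonoidAlgebra k S} (h : TrFrom e (⊥ : Subgroup S)) :
    ∃ a, e = T1 a := by
  classical
  have : Fintype (S ⧸ (⊥ : Subgroup S)) := Fintype.ofFinite _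
  rw [trFrom_iff] at h
  obtain ⟨a, ha, rfl⟩ := h
  refine ⟨a, ?_⟩
  unfold T1
  refine tr_transversal ha (fun s : S => s) ⟨?_, ?_⟩
  · intro s t hst
    have := QuotientGroup.eq.1 hst
    rw [Subgroup.mem_bot] at this
    exact inv_mul_eq_one.1 this
  · intro q
    exact QuotientGroup.mk_surjective q

/-- A left ideal in a block algebra of defect zero is generated by an idempotent. -/
theorem exists_right_id {e a : MonoidAlgebra k S} (he : ∀ x, x * e = e * x) (hea : e = T1 a)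
    (N : Submodule k (MonoidAlgebra k S)) (hN : ∀ y, ∀ x ∈ N, y * x ∈ N)
    (hNe : ∀ x ∈ N, x * e = x) : ∃ f ∈ N, ∀ x ∈ N, x * f = x := by
  obtain ⟨π, hπ⟩ := N.subtype.exists_leftInverse_of_injective (by
    rw [Submodule.ker_subtype])
  have hπ' : ∀ x (hx : x ∈ N), (π x : MonoidAlgebra k S) = x := by
    intro x hx
    have := LinearMap.congr_fun hπ ⟨x, hx⟩
    exact congrArg Subtype.val this
  let Ψ : MonoidAlgebra k S → MonoidAlgebra k S := fun x =>
    ∑ s, dl k s * a * (π (dl k s⁻¹ * x) : MonoidAlgebra k S)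
  have hΨN : ∀ x, Ψ x ∈ N := fun x => N.sum_mem fun s _ => hN _ _ (π _).2
  have hΨt : ∀ (t : S) x, Ψ (dl k t * x) = dl k t * Ψ x := by
    intro t x
    simp only [Ψ]
    rw [Finset.mul_sum, ← Equiv.sum_comp (Equiv.mulLeft t)]
    refine Finset.sum_congr rfl fun s _ => ?_
    have h1 : (t * s)⁻¹ * t = s⁻¹ := by group
    have h2 : dl k (t * s)⁻¹ * (dl k t * x) = dl k s⁻¹ * x := by
      rw [← mul_assoc, ← dl_mul, h1]
    rw [Equiv.coe_mulLeft, h2, dl_mul]
    simp only [mul_assoc]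
  have hΨadd : ∀ x y, Ψ (x + y) = Ψ x + Ψ y := by
    intro x y
    simp only [Ψ]
    rw [← Finset.sum_add_distrib]
    refine Finset.sum_congr rfl fun s _ => ?_
    rw [mul_add, map_add, Submodule.coe_add, mul_add]
  have hΨsmul : ∀ (c : k) x, Ψ (c • x) = c • Ψ x := by
    intro c x
    simp only [Ψ]
    rw [Finset.smul_sum]
    refine Finset.sum_congr rfl fun s _ => ?_
    rw [mul_smul_comm, map_smul, Submodule.coe_smul, mul_smul_comm]
  have hΨlin : ∀ y x, Ψ (y * x) = y * Ψ x := by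
    intro y x
    let ΨL : MonoidAlgebra k S →ₗ[k] MonoidAlgebra k S :=
      { toFun := Ψ, map_add' := hΨadd, map_smul' := hΨsmul }
    have h1 : ∀ z, Ψ z = ΨL z := fun z => rfl
    rw [eq_sum_dl y, Finset.sum_mul, Finset.sum_mul, h1, map_sum]
    refine Finset.sum_congr rfl fun s _ => ?_
    rw [smul_mul_assoc, map_smul, smul_mul_assoc]
    exact congrArg _ (hΨt s x)
  have hΨid : ∀ x ∈ N, Ψ x = x := by
    intro x hx
    simp only [Ψ]
    have h1 : ∀ s : S, dl k s * a * (π (dl k s⁻¹ * x) : MonoidAlgebra k S) = cj s a * x := by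
      intro s
      rw [hπ' _ (hN _ _ hx)]
      unfold cj
      simp only [mul_assoc]
    rw [Finset.sum_congr rfl fun s _ => h1 s, ← Finset.sum_mul]
    have h2 : ∑ s, cj s a = e := hea.symm
    rw [h2, ← he, hNe x hx]
  refine ⟨Ψ e, hΨN e, fun x hx => ?_⟩
  rw [← hΨlin, hNe x hx, hΨid x hx]

/-- A block of defect zero contains an idempotent of rank one, with nonzero trace. -/
theorem exists_rank_one [IsAlgClosed k] {e : MonoidAlgebra k S} (hb : IsBlk e)
    (h : TrFrom e (⊥ : Subgroup S)) :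
    ∃ (ε : MonoidAlgebra k S) (u : k), u ≠ 0 ∧ ε ≠ 0 ∧ ε * ε = ε ∧ ε * e = ε ∧
      (∀ y, ∃ r : k, ε * y * ε = r • ε) ∧ T1 ε * ε = u • ε := by
  classical
  obtain ⟨a, hea⟩ := exists_T1 h
  have he := hb.central
  have hfd : FiniteDimensional k (MonoidAlgebra k S) := inferInstance
  -- a minimal left ideal
  let Pr : ℕ → Prop := fun n => ∃ N : Submodule k (MonoidAlgebra k S),
    (∀ y, ∀ x ∈ N, y * x ∈ N) ∧ (∀ x ∈ N, x * e = x) ∧ N ≠ ⊥ ∧ Module.finrank k N = n
  have hex : ∃ n, Pr n := by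
    refine ⟨_, Submodule.map (LinearMap.mulRight k e) ⊤, ?_, ?_, ?_, rfl⟩
    · rintro y _ ⟨z, -, rfl⟩
      exact ⟨y * z, trivial, by simp [mul_assoc]⟩
    · rintro _ ⟨z, -, rfl⟩
      rw [LinearMap.mulRight_apply, mul_assoc, hb.idem]
    · intro hbot
      apply hb.ne_zero
      have h1 : e ∈ Submodule.map (LinearMap.mulRight k e) ⊤ := ⟨e, trivial, hb.idem⟩
      rw [hbot] at h1
      exact h1
  obtain ⟨N, hN, hNe, hNbot, hNd⟩ := Nat.find_spec hex
  have hmin : ∀ N' : Submodule k (MonoidAlgebra k S), (∀ y, ∀ x ∈ N', y * x ∈ N') → N' ≤ N →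
      N' ≠ ⊥ → N' = N := by
    intro N' h1 h2 h3
    apply Submodule.eq_of_le_of_finrank_le h2
    rw [hNd]
    exact Nat.find_min' hex ⟨N', h1, fun x hx => hNe x (h2 hx), h3, rfl⟩
  obtain ⟨ε, hεN, hε⟩ := exists_right_id he hea N hN hNe
  have hεε : ε * ε = ε := hε ε hεN
  have hεe : ε * e = ε := hNe ε hεN
  have hε0 : ε ≠ 0 := by
    rintro rfl
    apply hNbot
    rw [eq_bot_iff]
    intro x hx
    rw [Submodule.mem_bot, ← hε x hx, mul_zero]
  -- Schur
  have hrank : ∀ y, ∃ r : k, ε * y * ε = r • ε := by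
    intro y
    let φ : N →ₗ[k] N := LinearMap.codRestrict N
      ((LinearMap.mulRight k (y * ε)).comp N.subtype) fun x => by
        have : (x : MonoidAlgebra k S) * (y * ε) ∈ N := by
          rw [← mul_assoc]; exact hN _ _ hεN
        exact this
    have : Nontrivial N := (Submodule.nontrivial_iff_ne_bot).2 hNbot
    obtain ⟨r, hr⟩ := Module.End.exists_eigenvalue φ
    obtain ⟨v, hv, hv0⟩ := hr.exists_hasEigenvector
    have hv1 : (v : MonoidAlgebra k S) * (y * ε) = r • (v : MonoidAlgebra k S) :=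
      congrArg Subtype.val (Module.End.mem_eigenspace_iff.1 hv)
    let N' : Submodule k (MonoidAlgebra k S) :=
      { carrier := {x | x ∈ N ∧ x * (y * ε) = r • x}
        zero_mem' := ⟨N.zero_mem, by simp⟩
        add_mem' := fun h1 h2 => ⟨N.add_mem h1.1 h2.1, by rw [add_mul, h1.2, h2.2, smul_add]⟩
        smul_mem' := fun c x h1 => ⟨N.smul_mem c h1.1, by
          rw [smul_mul_assoc, h1.2, smul_comm]⟩ }
    have hN' : N' = N := by
      apply hmin N'
      · rintro z x ⟨h1, h2⟩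
        exact ⟨hN _ _ h1, by rw [mul_assoc, h2, mul_smul_comm]⟩
      · exact fun x hx => hx.1
      · intro hbot
        have h1 : (v : MonoidAlgebra k S) ∈ N' := ⟨v.2, hv1⟩
        rw [hbot, Submodule.mem_bot] at h1
        exact hv0 (Subtype.ext h1)
    have h1 : ε ∈ N' := by rw [hN']; exact hεN
    exact ⟨r, by rw [mul_assoc]; exact h1.2⟩
  -- the ideal generated by `ε`
  let I : Submodule k (MonoidAlgebra k S) := Submodule.span k {x | ∃ y z, x = y * ε * z}
  have hIl : ∀ y, ∀ x ∈ I, y * x ∈ I := by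
    intro y x hx
    induction hx using Submodule.span_induction with
    | mem x hx =>
      obtain ⟨y', z', rfl⟩ := hx
      exact Submodule.subset_span ⟨y * y', z', by simp only [mul_assoc]⟩
    | zero => rw [mul_zero]; exact I.zero_mem
    | add x z _ _ h1 h2 => rw [mul_add]; exact I.add_mem h1 h2
    | smul c x _ h1 => rw [mul_smul_comm]; exact I.smul_mem c h1
  have hIr : ∀ y, ∀ x ∈ I, x * y ∈ I := by
    intro y x hx
    induction hx using Submodule.span_induction with
    | mem x hx =>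
      obtain ⟨y', z', rfl⟩ := hx
      exact Submodule.subset_span ⟨y', z' * y, by simp only [mul_assoc]⟩
    | zero => rw [zero_mul]; exact I.zero_mem
    | add x z _ _ h1 h2 => rw [add_mul]; exact I.add_mem h1 h2
    | smul c x _ h1 => rw [smul_mul_assoc]; exact I.smul_mem c h1
  have hIe : ∀ x ∈ I, x * e = x := by
    intro x hx
    induction hx using Submodule.span_induction with
    | mem x hx =>
      obtain ⟨y', z', rfl⟩ := hx
      rw [mul_assoc, he, ← mul_assoc, mul_assoc y', hεe]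
    | zero => rw [zero_mul]
    | add x z _ _ h1 h2 => rw [add_mul, h1, h2]
    | smul c x _ h1 => rw [smul_mul_assoc, h1]
  have hεI : ε ∈ I := Submodule.subset_span ⟨1, 1, by simp⟩
  obtain ⟨f, hfI, hf⟩ := exists_right_id he hea I hIl hIe
  let N2 : Submodule k (MonoidAlgebra k S) :=
    { carrier := {x | x ∈ I ∧ f * x = 0}
      zero_mem' := ⟨I.zero_mem, by simp⟩
      add_mem' := fun h1 h2 => ⟨I.add_mem h1.1 h2.1, by rw [mul_add, h1.2, h2.2, add_zero]⟩
      smul_mem' := fun c x h1 => ⟨I.smul_mem c h1.1, by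
        rw [mul_smul_comm, h1.2, smul_zero]⟩ }
  have hI2 : ∀ x ∈ I, ∀ y ∈ N2, x * y = 0 := by
    intro x hx y hy
    rw [← hf x hx, mul_assoc, hy.2, mul_zero]
  have hN2 : ∀ x ∈ N2, x = 0 := by
    obtain ⟨g, hg, hg'⟩ := exists_right_id he hea N2 (by
      rintro y x hx
      refine ⟨hIl _ _ hx.1, ?_⟩
      rw [← mul_assoc]
      exact hI2 _ (hIr _ _ hfI) _ hx) (fun x hx => hIe x hx.1)
    intro x hx
    rw [← hg' x hx, hI2 x hx.1 g hg]
  have hfl : ∀ x ∈ I, f * x = x := by
    intro x hx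
    have h1 : f * x - x ∈ N2 := by
      refine ⟨I.sub_mem (hIl _ _ hx) hx, ?_⟩
      rw [mul_sub, ← mul_assoc, hf f hfI, sub_self]
    exact sub_eq_zero.1 (hN2 _ h1)
  have hfc : ∀ x, x * f = f * x := by
    intro x
    rw [← hfl _ (hIl x f hfI), ← mul_assoc, hf _ (hIr x f hfI)]
  have hfe : f = e := by
    rcases hb.prim f (hf f hfI) hfc with h1 | h1
    · exfalso
      apply hε0
      rw [← hf ε hεI, ← hIe f hfI, h1, mul_zero]
    · rw [← h1, hIe f hfI]
  -- the trace
  have hT : ∀ x ∈ I, ∃ μ : k, T1 x = μ • T1 ε := by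
    intro x hx
    induction hx using Submodule.span_induction with
    | mem x hx =>
      obtain ⟨y, z, rfl⟩ := hx
      obtain ⟨r, hr⟩ := hrank (z * y)
      refine ⟨r, ?_⟩
      rw [← T1_smul, ← hr]
      calc T1 (y * ε * z) = T1 (y * (ε * z)) := by rw [mul_assoc]
        _ = T1 (ε * z * y) := T1_comm _ _
        _ = T1 (ε * (ε * (z * y))) := by
          rw [← mul_assoc ε ε, hεε, mul_assoc]
        _ = T1 (ε * (z * y) * ε) := T1_comm _ _
    | zero => exact ⟨0, by rw [T1_zero, zero_smul]⟩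
    | add x z _ _ h1 h2 =>
      obtain ⟨μ, h1⟩ := h1
      obtain ⟨ν, h2⟩ := h2
      exact ⟨μ + ν, by rw [T1_add, h1, h2, add_smul]⟩
    | smul c x _ h1 =>
      obtain ⟨μ, h1⟩ := h1
      exact ⟨c * μ, by rw [T1_smul, h1, smul_smul]⟩
  have haI : a * e ∈ I := by rw [← hfe]; exact hIl _ _ hfI
  obtain ⟨μ, hμ⟩ := hT _ haI
  have h1 : e = μ • T1 ε := by
    rw [← hμ, ← T1_mul_central he, ← hea, hb.idem]
  have hμ0 : μ ≠ 0 := by
    rintro rfl
    rw [zero_smul] at h1
    exact hb.ne_zero h1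
  refine ⟨ε, μ⁻¹, inv_ne_zero hμ0, hε0, hεε, hεe, hrank, ?_⟩
  have h2 : T1 ε = μ⁻¹ • e := by
    rw [h1, smul_smul, inv_mul_cancel₀ hμ0, one_smul]
  rw [h2, smul_mul_assoc, ← he, hεe]

/-- Two different blocks of defect zero give a pair of idempotents of rank one. -/
theorem exists_pair [IsAlgClosed k] {e₀ e₁ : MonoidAlgebra k S} (h₀ : IsBlk e₀) (h₁ : IsBlk e₁)
    (hne : e₀ ≠ e₁) (hd₀ : TrFrom e₀ (⊥ : Subgroup S)) (hd₁ : TrFrom e₁ (⊥ : Subgroup S)) :
    Nonempty (Pair k S) := by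
  obtain ⟨ε₀, u₀, hu₀, hε₀, hi₀, he₀, hr₀, ht₀⟩ := exists_rank_one h₀ hd₀
  obtain ⟨ε₁, u₁, hu₁, hε₁, hi₁, he₁, hr₁, ht₁⟩ := exists_rank_one h₁ hd₁
  have h01 : e₀ * e₁ = 0 := by
    rcases h₁.prim e₀ h₀.idem h₀.central with h2 | h2
    · exact h2
    · rcases h₀.prim e₁ h₁.idem h₁.central with h3 | h3
      · rw [h₁.central, h3]
      · exact absurd (h3.symm.trans ((h₁.central e₀).symm.trans h2)) hne
  have horth : ∀ y, ε₀ * y * ε₁ = 0 := by
    intro y
    calc ε₀ * y * ε₁ = ε₀ * e₀ * y * (ε₁ * e₁) := by rw [he₀, he₁]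
      _ = ε₀ * y * (e₀ * e₁) * ε₁ := by
        rw [mul_assoc ε₀ e₀ y, ← h₀.central y, h₁.central ε₁]; simp only [mul_assoc]
      _ = 0 := by rw [h01, mul_zero, zero_mul]
  have horth' : ∀ y, ε₁ * y * ε₀ = 0 := by
    intro y
    calc ε₁ * y * ε₀ = ε₁ * e₁ * y * (ε₀ * e₀) := by rw [he₀, he₁]
      _ = ε₁ * y * (e₁ * e₀) * ε₀ := by
        rw [mul_assoc ε₁ e₁ y, ← h₁.central y, h₀.central ε₀]; simp only [mul_assoc]
      _ = 0 := by rw [h₀.central, h01, mul_zero, zero_mul]
  have hunit : ∀ ε : MonoidAlgebra k S, ε ≠ 0 → ∃ s, IsUnit (ε.coeff s) := by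
    intro ε hε
    by_contra hcon
    push Not at hcon
    apply hε
    ext s
    by_contra hs
    exact hcon s (isUnit_iff_ne_zero.2 hs)
  exact ⟨{
    ε := fun b => if b then ε₁ else ε₀
    u := fun b => if b then Units.mk0 u₁ hu₁ else Units.mk0 u₀ hu₀
    idem := by rintro (_ | _) <;> assumption
    rank := by
      rintro (_ | _) s
      · exact hr₀ _
      · exact hr₁ _
    orth := by
      rintro (_ | _) (_ | _) s hbb
      · exact absurd rfl hbb
      · exact horth _
      · exact horth' _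
      · exact absurd rfl hbb
    trace := by
      rintro (_ | _)
      · exact ht₀
      · exact ht₁
    unit := by
      rintro (_ | _)
      · exact hunit _ hε₀
      · exact hunit _ hε₁ }⟩

end Pool.Agent.UBlocks
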