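import Pool.Agent.UBlocks.Defect
import Pool.Agent.UBlocks.Graph

/-!
# Every group algebra of a finite group is, up to matrices, a direct factor of the group algebra
of `F_r^(pairs) : S_n` for some `n`
-/

set_option autoImplicit false

namespace Pool.Agent.UBlocks

open MonoidAlgebra

theorem Cliff.index_mul {R V G H : Type*} [CommRing R] [CommGroup V] [Group G] [Group H]
    [Fintype V] (C : Cliff R V G H) [Finite H] :
    Nat.card (H ⧸ C.T) * (Nat.card V * Nat.card G) = Nat.card H := by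
  have h1 : Nat.card C.T = Nat.card V * Nat.card G := by
    rw [← Nat.card_prod]
    refine (Nat.card_congr (Equiv.ofBijective (fun t : V × G =>
      (⟨C.τ t.1 * C.σ t.2, ⟨t.1, t.2, rfl⟩⟩ : C.T)) ⟨?_, ?_⟩)).symm
    · rintro ⟨v, g⟩ ⟨v', g'⟩ h
      obtain ⟨rfl, rfl⟩ := C.mul_inj (congrArg Subtype.val h)
      rfl
    · rintro ⟨_, v, g, rfl⟩
      exact ⟨(v, g), rfl⟩
  rw [← h1]
  exact (Subgroup.card_eq_card_quotient_mul_card_subgroup _).symm

theorem card_graphGroup (r n : ℕ) : Nat.card (GraphGroup r n) =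
    Nat.card (Base r n) * n.factorial := by
  rw [SemidirectProduct.card]
  congr 1
  rw [Nat.card_perm, Nat.card_fin]

theorem graph_index {r n : ℕ} [NeZero r] [Fact (1 < r)] {R : Type*} [CommRing R] [IsDomain R]
    {G : Type*} [Group G] {ζ : R} (hζ : IsPrimitiveRoot ζ r)
    (hr : IsUnit (r : R)) (Γ : SimpleGraph (Fin n)) (e : G ≃* autGroup Γ) :
    Nat.card (GraphGroup r n ⧸ (graphCliff hζ hr Γ e).T) * Nat.card G = n.factorial := by
  have : Finite (GraphGroup r n) := Finite.of_equiv _ SemidirectProduct.equivProd.symm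
  have h1 := (graphCliff hζ hr Γ e).index_mul
  rw [card_graphGroup] at h1
  have h2 : 0 < Nat.card (Base r n) := Nat.card_pos
  apply Nat.eq_of_mul_eq_mul_left h2
  rw [← h1]
  ring

/-- `Φ` identifies the full matrix algebra of degree `m` over `R G` with a direct factor of
`R H`: the ideal generated by the central idempotent `Φ 1`. -/
structure IsFactor {R G H : Type*} [CommRing R] [Group G] [Group H] {m : ℕ}
    (Φ : Matrix (Fin m) (Fin m) (MonoidAlgebra R G) →ₙₐ[R] MonoidAlgebra R H) : Prop where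
  inj : Function.Injective Φ
  central : ∀ x : MonoidAlgebra R H, x * Φ 1 = Φ 1 * x
  range : Set.range Φ = {x | Φ 1 * x = x}

namespace Cliff

variable {R V G H : Type*} [CommRing R] [CommGroup V] [Group G] [Group H]
  [Fintype V] (C : Cliff R V G H) [IsDomain R] [Fintype G] [Fintype H] [Fintype (H ⧸ C.T)]
  [DecidableEq (H ⧸ C.T)]

/-- the embedding of the matrix algebra, with matrices indexed by `Fin m` -/
noncomputable def PhiFin {m : ℕ} (f : H ⧸ C.T ≃ Fin m) :
    Matrix (Fin m) (Fin m) (MonoidAlgebra R G) →ₙₐ[R] MonoidAlgebra R H :=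
  C.Phi.comp ((Matrix.reindexAlgEquiv R (MonoidAlgebra R G) f.symm :
    Matrix (Fin m) (Fin m) (MonoidAlgebra R G) →ₐ[R]
      Matrix (H ⧸ C.T) (H ⧸ C.T) (MonoidAlgebra R G)) :
    Matrix (Fin m) (Fin m) (MonoidAlgebra R G) →ₙₐ[R]
      Matrix (H ⧸ C.T) (H ⧸ C.T) (MonoidAlgebra R G))

theorem PhiFin_apply {m : ℕ} (f : H ⧸ C.T ≃ Fin m)
    (M : Matrix (Fin m) (Fin m) (MonoidAlgebra R G)) :
    C.PhiFin f M = C.Phi (Matrix.reindex f.symm f.symm M) := rfl

theorem PhiFin_scalar {m : ℕ} (f : H ⧸ C.T ≃ Fin m) (a : MonoidAlgebra R G) :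
    C.PhiFin f (Matrix.scalar (Fin m) a) = C.up a := by
  rw [PhiFin_apply]
  unfold up
  congr 1
  ext p q : 2
  simp only [Matrix.reindex_apply, Matrix.submatrix_apply, Matrix.scalar_apply,
    Matrix.diagonal_apply, Equiv.symm_symm, EmbeddingLike.apply_eq_iff_eq]

theorem isFactor_PhiFin {m : ℕ} (f : H ⧸ C.T ≃ Fin m) : IsFactor (C.PhiFin f) := by
  have h1 : C.PhiFin f 1 = C.up 1 := by
    rw [← PhiFin_scalar C f, map_one (Matrix.scalar (Fin m))]
  refine ⟨?_, ?_, ?_⟩
  · intro M N h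
    rw [PhiFin_apply, PhiFin_apply] at h
    exact (Matrix.reindex f.symm f.symm).injective (C.Phi_injective h)
  · intro x
    rw [h1, C.up_one_central]
  · rw [h1]
    ext x
    simp only [Set.mem_range, Set.mem_ofPred_eq]
    constructor
    · rintro ⟨M, rfl⟩
      rw [← h1, ← map_mul, one_mul]
    · intro hx
      obtain ⟨M, hM⟩ := C.exists_Phi hx
      refine ⟨Matrix.reindex f f M, ?_⟩
      rw [PhiFin_apply, ← hM]
      congr 1
      ext p q : 2
      simp

end Cliff

end Pool.Agent.UBlocks
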