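import Pool.Agent.UBlocks.Pairs

/-!
# Irreducibility of the module of symmetric matrices with zero diagonal and zero row sums
-/

set_option autoImplicit false

namespace Pool.Agent.UBlocks

/-- The matrix `A` is symmetric and has zero diagonal and zero row sums. -/
def SymZero {r n : ℕ} (A : Matrix (Fin n) (Fin n) (ZMod r)) : Prop :=
  (∀ i j, A i j = A j i) ∧ (∀ i, A i i = 0) ∧ ∀ i, ∑ j, A i j = 0

theorem SymZero.zero {r n : ℕ} : SymZero (0 : Matrix (Fin n) (Fin n) (ZMod r)) :=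
  ⟨fun _ _ => rfl, fun _ => rfl, fun _ => by simp⟩

theorem SymZero.add {r n : ℕ} {A B : Matrix (Fin n) (Fin n) (ZMod r)} (hA : SymZero A)
    (hB : SymZero B) : SymZero (A + B) := by
  obtain ⟨h1, h2, h3⟩ := hA
  obtain ⟨h1', h2', h3'⟩ := hB
  refine ⟨fun i j => ?_, fun i => ?_, fun i => ?_⟩
  · rw [Matrix.add_apply, Matrix.add_apply, h1, h1']
  · rw [Matrix.add_apply, h2, h2', add_zero]
  · simp only [Matrix.add_apply, Finset.sum_add_distrib, h3, h3', add_zero]

theorem SymZero.neg {r n : ℕ} {A : Matrix (Fin n) (Fin n) (ZMod r)} (hA : SymZero A) :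
    SymZero (-A) := by
  obtain ⟨h1, h2, h3⟩ := hA
  refine ⟨fun i j => ?_, fun i => ?_, fun i => ?_⟩
  · rw [Matrix.neg_apply, Matrix.neg_apply, h1]
  · rw [Matrix.neg_apply, h2, neg_zero]
  · simp only [Matrix.neg_apply, Finset.sum_neg_distrib, h3, neg_zero]

/-- The group of the symmetric `n × n` matrices over `ℤ/r` with zero diagonal and zero row
sums. -/
def symMat (r n : ℕ) : AddSubgroup (Matrix (Fin n) (Fin n) (ZMod r)) where
  carrier := {A | SymZero A}
  zero_mem' := SymZero.zero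
  add_mem' := SymZero.add
  neg_mem' := SymZero.neg

section

variable {n : ℕ} {F : Type*} [Field F]

/-- difference of two unit vectors -/
def dd (a b : Fin n) : Fin n → F := fun x => (if x = a then 1 else 0) - (if x = b then 1 else 0)

/-- the matrix of a quadruple -/
def gg (a b c d : Fin n) : Matrix (Fin n) (Fin n) F := fun x y =>
  dd a b x * dd c d y + dd a b y * dd c d x

theorem sum_dd (a b : Fin n) : ∑ x, (dd a b x : F) = 0 := by
  classical
  simp [dd, Finset.sum_sub_distrib]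

theorem sum_dd_mul (a b : Fin n) (f : Fin n → F) : ∑ x, dd a b x * f x = f a - f b := by
  classical
  simp [dd, sub_mul, Finset.sum_sub_distrib]

theorem gg_symm (a b c d : Fin n) (i j : Fin n) : (gg a b c d i j : F) = gg a b c d j i := by
  unfold gg; ring

theorem gg_diag {a b c d : Fin n} (hac : a ≠ c) (had : a ≠ d) (hbc : b ≠ c) (hbd : b ≠ d)
    (i : Fin n) : (gg a b c d i i : F) = 0 := by
  unfold gg dd
  by_cases h1 : i = a
  · subst h1; simp [hac, had]
  · by_cases h2 : i = b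
    · subst h2; simp [hbc, hbd]
    · simp [h1, h2]

theorem gg_row (a b c d : Fin n) (i : Fin n) : ∑ j, (gg a b c d i j : F) = 0 := by
  unfold gg
  rw [Finset.sum_add_distrib, ← Finset.mul_sum, ← Finset.sum_mul, sum_dd, sum_dd]
  ring

/-- the alternating sum of the conjugates under the group generated by two transpositions -/
theorem swap_identity {a b c d : Fin n} (hab : a ≠ b) (hac : a ≠ c) (had : a ≠ d) (hbc : b ≠ c)
    (hbd : b ≠ d) (hcd : c ≠ d) {A : Fin n → Fin n → F} (hs : ∀ i j, A i j = A j i)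
    (x y : Fin n) :
    A x y - A (Equiv.swap a b x) (Equiv.swap a b y) - A (Equiv.swap c d x) (Equiv.swap c d y) +
      A (Equiv.swap c d (Equiv.swap a b x)) (Equiv.swap c d (Equiv.swap a b y)) =
      alt4 A a b c d * gg a b c d x y := by
  have key : ∀ x : Fin n, x = a ∨ x = b ∨ x = c ∨ x = d ∨ (x ≠ a ∧ x ≠ b ∧ x ≠ c ∧ x ≠ d) := by
    intro x; tauto
  have sa : Equiv.swap a b a = b := Equiv.swap_apply_left a b
  have sb : Equiv.swap a b b = a := Equiv.swap_apply_right a b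
  have sc : Equiv.swap a b c = c := Equiv.swap_apply_of_ne_of_ne hac.symm hbc.symm
  have sd : Equiv.swap a b d = d := Equiv.swap_apply_of_ne_of_ne had.symm hbd.symm
  have ta : Equiv.swap c d a = a := Equiv.swap_apply_of_ne_of_ne hac had
  have tb : Equiv.swap c d b = b := Equiv.swap_apply_of_ne_of_ne hbc hbd
  have tc : Equiv.swap c d c = d := Equiv.swap_apply_left c d
  have td : Equiv.swap c d d = c := Equiv.swap_apply_right c d
  unfold alt4 gg dd
  have so : ∀ x, x ≠ a → x ≠ b → Equiv.swap a b x = x := fun x h1 h2 =>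
    Equiv.swap_apply_of_ne_of_ne h1 h2
  have tz : ∀ x, x ≠ c → x ≠ d → Equiv.swap c d x = x := fun x h1 h2 =>
    Equiv.swap_apply_of_ne_of_ne h1 h2
  rcases key x with hx | hx | hx | hx | ⟨x1, x2, x3, x4⟩ <;>
  rcases key y with hy | hy | hy | hy | ⟨y1, y2, y3, y4⟩
  all_goals
    simp only [*, if_true, if_false, hab.symm, hac.symm, had.symm, hbc.symm, hbd.symm, hcd.symm,
      ne_eq, not_false_eq_true]
  all_goals ring1

end

section Perm

variable {r n : ℕ}

theorem mem_symMat {A : Matrix (Fin n) (Fin n) (ZMod r)} : A ∈ symMat r n ↔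
    (∀ i j, A i j = A j i) ∧ (∀ i, A i i = 0) ∧ ∀ i, ∑ j, A i j = 0 := Iff.rfl

theorem submatrix_mem {A : Matrix (Fin n) (Fin n) (ZMod r)} (hA : A ∈ symMat r n)
    (s : Equiv.Perm (Fin n)) : A.submatrix s s ∈ symMat r n := by
  obtain ⟨h1, h2, h3⟩ := hA
  refine ⟨fun i j => h1 _ _, fun i => h2 _, fun i => ?_⟩
  simp only [Matrix.submatrix_apply]
  rw [Equiv.sum_comp s (fun j => A (s i) j)]
  exact h3 _

variable [Fact r.Prime]

theorem gg_mem {a b c d : Fin n} (hac : a ≠ c) (had : a ≠ d) (hbc : b ≠ c) (hbd : b ≠ d) :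
    (gg a b c d : Matrix (Fin n) (Fin n) (ZMod r)) ∈ symMat r n :=
  ⟨gg_symm a b c d, gg_diag hac had hbc hbd, gg_row a b c d⟩

theorem two_ne (hr2 : r ≠ 2) : (2 : ZMod r) ≠ 0 := by
  have hr : r.Prime := Fact.out
  intro h
  have h1 : ((2 : ℕ) : ZMod r) = 0 := by exact_mod_cast h
  rw [ZMod.natCast_eq_zero_iff] at h1
  exact hr2 ((Nat.prime_dvd_prime_iff_eq hr Nat.prime_two).1 h1)

theorem cast_ne {m : ℕ} (h : ¬ r ∣ m) : ((m : ℕ) : ZMod r) ≠ 0 := by
  rwa [Ne, ZMod.natCast_eq_zero_iff]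

theorem exists_alt4 (hr2 : r ≠ 2) (hn : 3 ≤ n) (h1 : ¬ r ∣ (n - 1) * (n - 2))
    {A : Matrix (Fin n) (Fin n) (ZMod r)} (hA : A ∈ symMat r n) (hne : A ≠ 0) :
    ∃ a b c d, a ≠ b ∧ a ≠ c ∧ a ≠ d ∧ b ≠ c ∧ b ≠ d ∧ c ≠ d ∧ alt4 A a b c d ≠ 0 := by
  by_contra hcon
  push Not at hcon
  apply hne
  have h2 := two_ne (r := r) hr2
  have hn1 : ¬ r ∣ n - 1 := fun h => h1 (dvd_mul_of_dvd_left h _)
  have hn2 : ¬ r ∣ n - 2 := fun h => h1 (dvd_mul_of_dvd_right h _)
  obtain ⟨u, hu⟩ := exists_potential hn h2 hA.1 hcon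
  ext i j
  exact potential_zero (cast_ne hn1) (cast_ne hn2) h2 (by omega) hA.2.1 hA.2.2 hu i j

/-- a permutation with prescribed values at four points -/
theorem exists_perm4 {a b c d a' b' c' d' : Fin n} (h : a ≠ b ∧ a ≠ c ∧ a ≠ d ∧ b ≠ c ∧ b ≠ d ∧
    c ≠ d) (h' : a' ≠ b' ∧ a' ≠ c' ∧ a' ≠ d' ∧ b' ≠ c' ∧ b' ≠ d' ∧ c' ≠ d') :
    ∃ s : Equiv.Perm (Fin n), s a = a' ∧ s b = b' ∧ s c = c' ∧ s d = d' := by
  obtain ⟨h1, h2, h3, h4, h5, h6⟩ := h
  obtain ⟨h1', h2', h3', h4', h5', h6'⟩ := h'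
  have key : ∀ x y z w : Fin n, x ≠ y → x ≠ z → x ≠ w → y ≠ z → y ≠ w → z ≠ w →
      Function.Injective ![x, y, z, w] := by
    intro x y z w e1 e2 e3 e4 e5 e6 i j hij
    fin_cases i <;> fin_cases j <;> simp_all
  let f : Fin 4 ↪ Fin n := ⟨![a, b, c, d], key a b c d h1 h2 h3 h4 h5 h6⟩
  let f' : Fin 4 ↪ Fin n := ⟨![a', b', c', d'], key a' b' c' d' h1' h2' h3' h4' h5' h6'⟩
  have := Equiv.Perm.isMultiplyPretransitive (Fin n) 4
  obtain ⟨s, hs⟩ := MulAction.exists_smul_eq (Equiv.Perm (Fin n)) f f'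
  have hs' : ∀ i, s (f i) = f' i := fun i => by rw [← hs]; rfl
  exact ⟨s, hs' 0, hs' 1, hs' 2, hs' 3⟩

theorem gg_mem_of {W : AddSubgroup (Matrix (Fin n) (Fin n) (ZMod r))} (hW : W ≤ symMat r n)
    (hinv : ∀ s : Equiv.Perm (Fin n), ∀ A ∈ W, A.submatrix s s ∈ W)
    {A : Matrix (Fin n) (Fin n) (ZMod r)} (hA : A ∈ W) {a b c d : Fin n}
    (hd : a ≠ b ∧ a ≠ c ∧ a ≠ d ∧ b ≠ c ∧ b ≠ d ∧ c ≠ d) (h4 : alt4 A a b c d ≠ 0) :
    (gg a b c d : Matrix (Fin n) (Fin n) (ZMod r)) ∈ W := by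
  obtain ⟨h1, h2, h3, h4', h5, h6⟩ := hd
  have hM : A - A.submatrix (Equiv.swap a b) (Equiv.swap a b) -
      A.submatrix (Equiv.swap c d) (Equiv.swap c d) +
      (A.submatrix (Equiv.swap c d) (Equiv.swap c d)).submatrix (Equiv.swap a b)
        (Equiv.swap a b) ∈ W :=
    W.add_mem (W.sub_mem (W.sub_mem hA (hinv _ _ hA)) (hinv _ _ hA)) (hinv _ _ (hinv _ _ hA))
  have he : A - A.submatrix (Equiv.swap a b) (Equiv.swap a b) -
      A.submatrix (Equiv.swap c d) (Equiv.swap c d) +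
      (A.submatrix (Equiv.swap c d) (Equiv.swap c d)).submatrix (Equiv.swap a b)
        (Equiv.swap a b) = alt4 A a b c d • (gg a b c d : Matrix (Fin n) (Fin n) (ZMod r)) := by
    ext x y
    exact swap_identity h1 h2 h3 h4' h5 h6 (hW hA).1 x y
  rw [he] at hM
  have h7 := (AddSubgroup.toZModSubmodule r W).smul_mem (alt4 A a b c d)⁻¹
    (x := alt4 A a b c d • (gg a b c d : Matrix (Fin n) (Fin n) (ZMod r))) hM
  rw [smul_smul, inv_mul_cancel₀ h4, one_smul] at h7
  exact h7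

theorem alt4_sum (h : Fin n → Fin n → ZMod r) (hs : ∀ i j, h i j = h j i) (a b c d : Fin n) :
    ∑ i, ∑ j, (gg a b c d i j : ZMod r) * h i j = 2 * alt4 h a b c d := by
  have e1 : ∑ i, ∑ j, (dd a b i * dd c d j : ZMod r) * h i j = alt4 h a b c d := by
    have : ∀ i, ∑ j, (dd a b i * dd c d j : ZMod r) * h i j = dd a b i * (h i c - h i d) := by
      intro i
      rw [← sum_dd_mul c d (h i), Finset.mul_sum]
      exact Finset.sum_congr rfl fun j _ => by ring
    simp only [this]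
    rw [sum_dd_mul a b (fun i => h i c - h i d)]
    unfold alt4
    ring
  have e2 : ∑ i, ∑ j, (dd a b j * dd c d i : ZMod r) * h i j = alt4 h a b c d := by
    rw [Finset.sum_comm, ← e1]
    exact Finset.sum_congr rfl fun i _ => Finset.sum_congr rfl fun j _ => by rw [hs j i]
  have e3 : ∀ i j, (gg a b c d i j : ZMod r) * h i j =
      (dd a b i * dd c d j : ZMod r) * h i j + (dd a b j * dd c d i : ZMod r) * h i j := by
    intro i j
    unfold gg
    ring
  simp only [e3, Finset.sum_add_distrib, e1, e2]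
  ring

theorem sum_potential {B : Matrix (Fin n) (Fin n) (ZMod r)} (hB : B ∈ symMat r n)
    {h : Fin n → Fin n → ZMod r} {u : Fin n → ZMod r} (hu : ∀ i j, i ≠ j → h i j = u i + u j) :
    ∑ i, ∑ j, B i j * h i j = 0 := by
  obtain ⟨h1, h2, h3⟩ := hB
  have e1 : ∀ i j, B i j * h i j = B i j * u i + B j i * u j := by
    intro i j
    by_cases hij : i = j
    · subst hij; rw [h2]; ring
    · rw [hu i j hij, h1 j i]; ring
  simp only [e1, Finset.sum_add_distrib]
  have e2 : ∑ i, ∑ j, B i j * u i = 0 := by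
    refine Finset.sum_eq_zero fun i _ => ?_
    rw [← Finset.sum_mul, h3, zero_mul]
  have e3 : ∑ i, ∑ j, B j i * u j = 0 := by
    rw [Finset.sum_comm]
    exact e2
  rw [e2, e3, add_zero]

theorem irr_sym (hr2 : r ≠ 2) (hn : 3 ≤ n) (h1 : ¬ r ∣ (n - 1) * (n - 2))
    {W : AddSubgroup (Matrix (Fin n) (Fin n) (ZMod r))} (hW : W ≤ symMat r n)
    (hinv : ∀ s : Equiv.Perm (Fin n), ∀ A ∈ W, A.submatrix s s ∈ W)
    {A : Matrix (Fin n) (Fin n) (ZMod r)} (hA : A ∈ W) (hne : A ≠ 0) : symMat r n ≤ W := by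
  have h2 := two_ne (r := r) hr2
  intro B hB
  by_contra hBW
  obtain ⟨φ, hφB, hφ⟩ := Submodule.exists_le_ker_of_notMem
    (p := AddSubgroup.toZModSubmodule r W) (v := B) hBW
  have hφW : ∀ M ∈ W, φ M = 0 := fun M hM => LinearMap.mem_ker.1 (hφ hM)
  let h : Fin n → Fin n → ZMod r := fun i j => φ (Matrix.single i j 1) + φ (Matrix.single j i 1)
  have hs : ∀ i j, h i j = h j i := fun i j => add_comm _ _
  have key1 : ∀ M : Matrix (Fin n) (Fin n) (ZMod r), (∀ i j, M i j = M j i) →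
      2 * φ M = ∑ i, ∑ j, M i j * h i j := by
    intro M hM
    have e1 : φ M = ∑ i, ∑ j, M i j * φ (Matrix.single i j 1) := by
      conv_lhs => rw [Matrix.matrix_eq_sum_single M]
      rw [map_sum]
      refine Finset.sum_congr rfl fun i _ => ?_
      rw [map_sum]
      refine Finset.sum_congr rfl fun j _ => ?_
      have : Matrix.single i j (M i j) = M i j • Matrix.single i j (1 : ZMod r) := by
        rw [Matrix.smul_single, smul_eq_mul, mul_one]
      rw [this, map_smul, smul_eq_mul]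
    have e2 : φ M = ∑ i, ∑ j, M i j * φ (Matrix.single j i 1) := by
      rw [e1, Finset.sum_comm]
      exact Finset.sum_congr rfl fun i _ => Finset.sum_congr rfl fun j _ => by rw [hM j i]
    simp only [h, mul_add, Finset.sum_add_distrib]
    rw [← e1, ← e2]
    ring
  obtain ⟨a, b, c, d, g1, g2, g3, g4, g5, g6, hne4⟩ := exists_alt4 hr2 hn h1 (hW hA) hne
  have key3 : ∀ a' b' c' d', a' ≠ b' → a' ≠ c' → a' ≠ d' → b' ≠ c' → b' ≠ d' → c' ≠ d' →
      alt4 h a' b' c' d' = 0 := by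
    intro a' b' c' d' g1' g2' g3' g4' g5' g6'
    obtain ⟨s, sa, sb, sc, sd⟩ := exists_perm4 ⟨g1', g2', g3', g4', g5', g6'⟩
      ⟨g1, g2, g3, g4, g5, g6⟩
    have h4' : alt4 (A.submatrix s s) a' b' c' d' ≠ 0 := by
      unfold alt4 at hne4 ⊢
      simp only [Matrix.submatrix_apply, sa, sb, sc, sd]
      exact hne4
    have h5 := gg_mem_of hW hinv (hinv s A hA) ⟨g1', g2', g3', g4', g5', g6'⟩ h4'
    have h6 := key1 _ (gg_symm a' b' c' d')
    rw [hφW _ h5, mul_zero, alt4_sum h hs] at h6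
    exact (mul_eq_zero.1 h6.symm).resolve_left h2
  obtain ⟨u, hu⟩ := exists_potential hn h2 hs key3
  have h7 := key1 B hB.1
  rw [sum_potential hB hu] at h7
  exact hφB ((mul_eq_zero.1 h7).resolve_left h2)

theorem exists_notMem' {l : Finset (Fin n)} (h : l.card < n) : ∃ x, x ∉ l := by
  by_contra hcon
  push Not at hcon
  have h1 : l = Finset.univ := Finset.eq_univ_iff_forall.2 hcon
  rw [h1, Finset.card_univ, Fintype.card_fin] at h
  exact lt_irrefl _ h

/-- four further points -/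
theorem exists_four (hn : 8 ≤ n) (a b d e : Fin n) : ∃ c f g h : Fin n,
    c ∉ ({a, b, d, e} : Finset (Fin n)) ∧ f ∉ ({a, b, d, e, c} : Finset (Fin n)) ∧
    g ∉ ({a, b, d, e, c, f} : Finset (Fin n)) ∧
    h ∉ ({a, b, d, e, c, f, g} : Finset (Fin n)) := by
  obtain ⟨c, hc⟩ := exists_notMem' (l := ({a, b, d, e} : Finset (Fin n)))
    (lt_of_le_of_lt Finset.card_le_four (by omega))
  obtain ⟨f, hf⟩ := exists_notMem' (l := ({a, b, d, e, c} : Finset (Fin n)))
    (lt_of_le_of_lt Finset.card_le_five (by omega))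
  obtain ⟨g, hg⟩ := exists_notMem' (l := ({a, b, d, e, c, f} : Finset (Fin n)))
    (lt_of_le_of_lt Finset.card_le_six (by omega))
  obtain ⟨h, hh⟩ := exists_notMem' (l := ({a, b, d, e, c, f, g} : Finset (Fin n)))
    (lt_of_le_of_lt ((Finset.card_insert_le _ _).trans
      (Nat.succ_le_succ Finset.card_le_six)) (by omega))
  exact ⟨c, f, g, h, hc, hf, hg, hh⟩

theorem swap2_mem {a b c d : Fin n} (hab : a ≠ b) (hcd : c ≠ d) :
    Equiv.swap a b * Equiv.swap c d ∈ alternatingGroup (Fin n) := by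
  rw [Equiv.Perm.mem_alternatingGroup, Equiv.Perm.sign_mul, Equiv.Perm.sign_swap hab,
    Equiv.Perm.sign_swap hcd]
  rfl

theorem irr_alt (hr2 : r ≠ 2) (hn : 8 ≤ n) (h1 : ¬ r ∣ (n - 1) * (n - 2))
    {W : AddSubgroup (Matrix (Fin n) (Fin n) (ZMod r))} (hW : W ≤ symMat r n)
    (hinv : ∀ s ∈ alternatingGroup (Fin n), ∀ A ∈ W, A.submatrix s s ∈ W)
    {A : Matrix (Fin n) (Fin n) (ZMod r)} (hA : A ∈ W) (hne : A ≠ 0) : symMat r n ≤ W := by
  obtain ⟨a, b, d, e, hab, had, hae, hbd, hbe, hde, hne4⟩ :=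
    exists_alt4 hr2 (by omega) h1 (hW hA) hne
  obtain ⟨c, f, g, h, hc, hf, hg, hh⟩ := exists_four hn a b d e
  simp only [Finset.mem_insert, Finset.mem_singleton, not_or] at hc hf hg hh
  obtain ⟨ca, cb, cd, ce⟩ := hc
  obtain ⟨fa, fb, fd, fe, fc⟩ := hf
  obtain ⟨ga, gb, gd, ge, gc, gf⟩ := hg
  obtain ⟨ha, hb, hd, he, hc, hf, hgh⟩ := hh
  set C : Equiv.Perm (Fin n) := Equiv.swap a b * Equiv.swap b c with hC
  set C' : Equiv.Perm (Fin n) := Equiv.swap d e * Equiv.swap e f with hC'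
  have C1 : C ∈ alternatingGroup (Fin n) := swap2_mem hab (Ne.symm cb)
  have C1' : C' ∈ alternatingGroup (Fin n) := swap2_mem hde (Ne.symm fe)
  have Co : ∀ x, x ≠ a → x ≠ b → x ≠ c → C x = x := by
    intro x x1 x2 x3
    rw [hC, Equiv.Perm.mul_apply, Equiv.swap_apply_of_ne_of_ne x2 x3,
      Equiv.swap_apply_of_ne_of_ne x1 x2]
  have Co' : ∀ x, x ≠ d → x ≠ e → x ≠ f → C' x = x := by
    intro x x1 x2 x3
    rw [hC', Equiv.Perm.mul_apply, Equiv.swap_apply_of_ne_of_ne x2 x3,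
      Equiv.swap_apply_of_ne_of_ne x1 x2]
  have Ca : C a = b := by
    rw [hC, Equiv.Perm.mul_apply, Equiv.swap_apply_of_ne_of_ne hab (Ne.symm ca),
      Equiv.swap_apply_left]
  have Cb : C b = c := by
    rw [hC, Equiv.Perm.mul_apply, Equiv.swap_apply_left, Equiv.swap_apply_of_ne_of_ne ca cb]
  have Cc : C c = a := by
    rw [hC, Equiv.Perm.mul_apply, Equiv.swap_apply_right, Equiv.swap_apply_right]
  have Cd' : C' d = e := by
    rw [hC', Equiv.Perm.mul_apply, Equiv.swap_apply_of_ne_of_ne hde (Ne.symm fd),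
      Equiv.swap_apply_left]
  set B := A - A.submatrix C C - A.submatrix C' C' + (A.submatrix C' C').submatrix C C with hB
  have hBW : B ∈ W := W.add_mem (W.sub_mem (W.sub_mem hA (hinv _ C1 _ hA)) (hinv _ C1' _ hA))
    (hinv _ C1 _ (hinv _ C1' _ hA))
  have hBe : ∀ x y, B x y = A x y - A (C x) (C y) - A (C' x) (C' y) + A (C' (C x)) (C' (C y)) :=
    fun x y => rfl
  have hBne : B ≠ 0 := by
    intro h0
    apply hne4
    have h2 : B a d = 0 := by rw [h0]; rfl
    rw [hBe, Ca, Co d (Ne.symm had) (Ne.symm hbd) (Ne.symm cd), Cd', Co' a had hae (Ne.symm fa),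
      Co' b hbd hbe (Ne.symm fb)] at h2
    exact h2
  have hB0 : ∀ z, z ≠ a → z ≠ b → z ≠ c → z ≠ d → z ≠ e → z ≠ f → ∀ y, B z y = 0 := by
    intro z z1 z2 z3 z4 z5 z6 y
    rw [hBe, Co z z1 z2 z3, Co' z z4 z5 z6]
    by_cases hy : y = a ∨ y = b ∨ y = c
    · have e1 : C' y = y := by
        rcases hy with rfl | rfl | rfl
        · exact Co' _ had hae (Ne.symm fa)
        · exact Co' _ hbd hbe (Ne.symm fb)
        · exact Co' _ cd ce (Ne.symm fc)
      have e2 : C' (C y) = C y := by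
        rcases hy with rfl | rfl | rfl
        · rw [Ca]; exact Co' _ hbd hbe (Ne.symm fb)
        · rw [Cb]; exact Co' _ cd ce (Ne.symm fc)
        · rw [Cc]; exact Co' _ had hae (Ne.symm fa)
      rw [e1, e2]; ring
    · push Not at hy
      rw [Co y hy.1 hy.2.1 hy.2.2]; ring
  have hBg : ∀ y, B g y = 0 := hB0 g ga gb gc gd ge gf
  have hBh : ∀ y, B h y = 0 := hB0 h ha hb hc hd he hf
  have hBs : ∀ i j, B i j = B j i := (hW hBW).1
  have hBfix : B.submatrix (Equiv.swap g h) (Equiv.swap g h) = B := by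
    have e1 : ∀ x y, (x = g ∨ x = h) → B (Equiv.swap g h x) (Equiv.swap g h y) = B x y := by
      intro x y hx
      rcases hx with rfl | rfl
      · rw [Equiv.swap_apply_left, hBh, hBg]
      · rw [Equiv.swap_apply_right, hBh, hBg]
    ext x y
    show B (Equiv.swap g h x) (Equiv.swap g h y) = B x y
    by_cases hx : x = g ∨ x = h
    · exact e1 x y hx
    · by_cases hy : y = g ∨ y = h
      · rw [hBs, e1 y x hy, hBs]
      · push Not at hx hy
        rw [Equiv.swap_apply_of_ne_of_ne hx.1 hx.2, Equiv.swap_apply_of_ne_of_ne hy.1 hy.2]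
  let W' : AddSubgroup (Matrix (Fin n) (Fin n) (ZMod r)) :=
    { carrier := {M | M ∈ W ∧ M.submatrix (Equiv.swap g h) (Equiv.swap g h) ∈ W}
      zero_mem' := ⟨W.zero_mem, W.zero_mem⟩
      add_mem' := fun h1 h2 => ⟨W.add_mem h1.1 h2.1, W.add_mem h1.2 h2.2⟩
      neg_mem' := fun h1 => ⟨W.neg_mem h1.1, W.neg_mem h1.2⟩ }
  have hgh' : g ≠ h := Ne.symm hgh
  have hsg : ∀ s : Equiv.Perm (Fin n), s ∉ alternatingGroup (Fin n) →
      Equiv.Perm.sign s = -1 := fun s hs =>
    (Int.units_eq_one_or _).resolve_left (by rwa [Equiv.Perm.mem_alternatingGroup] at hs)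
  have hW' : symMat r n ≤ W' := by
    refine irr_sym hr2 (by omega) h1 (fun M hM => hW hM.1) ?_ (A := B) ⟨hBW, by rwa [hBfix]⟩ hBne
    rintro s M ⟨hM1, hM2⟩
    by_cases hs : s ∈ alternatingGroup (Fin n)
    · refine ⟨hinv s hs M hM1, ?_⟩
      have h2 := hinv (Equiv.swap g h * s * Equiv.swap g h) (by
        rw [Equiv.Perm.mem_alternatingGroup] at hs ⊢
        rw [Equiv.Perm.sign_mul, Equiv.Perm.sign_mul, Equiv.Perm.sign_swap hgh', hs]
        rfl) _ hM2
      convert h2 using 1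
      ext x y
      simp
    · have h3 := hsg s hs
      constructor
      · have h2 := hinv (Equiv.swap g h * s) (by
          rw [Equiv.Perm.mem_alternatingGroup, Equiv.Perm.sign_mul, Equiv.Perm.sign_swap hgh', h3]
          rfl) _ hM2
        convert h2 using 1
        ext x y
        simp
      · exact hinv (s * Equiv.swap g h) (by
          rw [Equiv.Perm.mem_alternatingGroup, Equiv.Perm.sign_mul, Equiv.Perm.sign_swap hgh', h3]
          rfl) _ hM1
  exact fun M hM => (hW' hM).1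

end Perm

end Pool.Agent.UBlocks
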