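import Pool.Agent.UBlocks.WrOne
import Pool.Agent.UBlocks.EpsTr
import Pool.Agent.UBlocks.DefZero
import Pool.Agent.UBlocks.KB

/-!
# Brauer's k(B) conjecture and wreath products of simple groups
-/

set_option autoImplicit false

namespace Pool.Agent.UBlocks

open MonoidAlgebra MP_a15589_al

/-- The full idempotent of a subgroup `G` of `P` in the group algebra of `S ≀ P`. -/
noncomputable def wrEps {R S G P : Type*} [CommRing R] [Group S] [Fintype S] [Group G] [Group P]
    [Fintype P] [DecidableEq P] (Q : Pair R S) {ι : G →* P} (hι : Function.Injective ι)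
    [DecidablePred (· ∈ ι.range)] : Eps R G (RegularWreathProduct S P) :=
  (regWr S P).toEps Q (c := fun x => decide (x ∈ ι.range)) hι
    (by
      intro g i
      have h1 : (regWr S P).act (ι g) i = ι g * i := rfl
      rw [h1]
      congr 1
      exact propext (Subgroup.mul_mem_cancel_left _ ⟨g, rfl⟩))
    (by
      intro l hl
      refine ⟨1, ?_⟩
      have h1 : (regWr S P).act l 1 = l := mul_one l
      rw [h1]
      have h2 : (1 : P) ∈ ι.range := ι.range.one_mem
      simp [hl, h2])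

theorem exists_block_wr {k S G P : Type*} [Field k] [IsAlgClosed k] [Group S] [Finite S]
    [Group G] [Finite G] [Group P] [Finite P] {e₀ e₁ : MonoidAlgebra k S} (h₀ : IsBlock e₀)
    (h₁ : IsBlock e₁) (hne : e₀ ≠ e₁) (hd₀ : IsDefect e₀ ⊥) (hd₁ : IsDefect e₁ ⊥)
    {ι : G →* P} (hι : Function.Injective ι) {e : MonoidAlgebra k G} (he : IsBlock e) :
    ∃ (σ : G →* RegularWreathProduct S P) (e' : MonoidAlgebra k (RegularWreathProduct S P)),
      Function.Injective σ ∧ IsBlock e' ∧ blockDim e' = blockDim e ∧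
      ∀ D : Subgroup G, IsDefect e D → IsDefect e' (D.map σ) := by
  classical
  have : Fintype S := Fintype.ofFinite _
  have : Fintype G := Fintype.ofFinite _
  have : Fintype P := Fintype.ofFinite _
  have : Fintype (RegularWreathProduct S P) := Fintype.ofFinite _
  obtain ⟨Q⟩ := exists_pair ((isBlk_iff _).1 h₀) ((isBlk_iff _).1 h₁) hne
    ((isTraceFrom_iff _ _).1 hd₀.1) ((isTraceFrom_iff _ _).1 hd₁.1)
  let C := wrEps Q hι
  have : Fintype (RegularWreathProduct S P ⧸ C.σ.range) := Fintype.ofFinite _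
  exact ⟨C.σ, C.up e, C.inj, (isBlk_iff _).2 (C.up_isBlk ((isBlk_iff _).1 he)),
    C.blockDim_up he.central, fun D hD => C.isDefect_up he hD⟩

/-- The asymptotic form of Brauer's inequality for the wreath products of a fixed group with two
blocks of defect zero and the groups `P i` is equivalent to Brauer's inequality for all finite
groups, if every finite group can be embedded in some `P i`. -/
theorem weak_iff_strong_wr (p : ℕ) (hp : p.Prime) (k : Type) [Field k] [IsAlgClosed k]
    [CharP k p] (S : Type) [Group S] [Finite S] (e₀ e₁ : MonoidAlgebra k S) (h₀ : IsBlock e₀)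
    (h₁ : IsBlock e₁) (hne : e₀ ≠ e₁) (hd₀ : IsDefect e₀ ⊥) (hd₁ : IsDefect e₁ ⊥)
    (I : Type) (P : I → Type) [∀ i, Group (P i)] [∀ i, Finite (P i)]
    (𝒳 : ∀ (H : Type) [Group H], Prop)
    (hP : ∀ (G : Type) [Group G] [Finite G], ∃ i, 𝒳 (RegularWreathProduct S (P i)) ∧
      ∃ f : G →* P i, Function.Injective f)
    (𝒟 : ∀ (H : Type) [Group H], Prop) (h𝒟 : ClosedClass 𝒟) (α : ℝ) (hα : 1 ≤ α) :
    WeakBound k (fun X _ => 𝒳 X ∧ ∃ i, Nonempty (X ≃* RegularWreathProduct S (P i))) 𝒟 α ↔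
      StrongBound k 𝒟 α := by
  classical
  refine ⟨fun hweak => ?_, fun h => strong_weak k _ 𝒟 h⟩
  have hall : WeakBound k (fun _ _ => True) 𝒟 α := by
    intro ε hε
    obtain ⟨C, hC⟩ := hweak ε hε
    refine ⟨C, fun G _ _ _ e he D hD h𝒟D => ?_⟩
    obtain ⟨i, hi, f, hf⟩ := hP G
    obtain ⟨σ, e', hσ, he', hdim, hdef⟩ := exists_block_wr h₀ h₁ hne hd₀ hd₁ hf he
    have hcard : Nat.card (D.map σ) = Nat.card D :=
      (Nat.card_congr (D.equivMapOfInjective σ hσ).toEquiv).symm
    have h4 := hC (RegularWreathProduct S (P i)) ⟨hi, i, ⟨MulEquiv.refl _⟩⟩ _ he'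
      (D.map σ) (hdef D hD)
      (h𝒟.sub _ D ((D.equivMapOfInjective σ hσ).symm : D.map σ →* D)
        (D.equivMapOfInjective σ hσ).symm.injective h𝒟D)
    rwa [hdim, hcard] at h4
  obtain ⟨hs, hu, hd⟩ := cyclic_family p
  have : ∀ q : {q : ℕ // q.Prime ∧ q ≠ p}, Finite (Multiplicative (ZMod (q : ℕ))) := fun q => by
    have : NeZero (q : ℕ) := ⟨q.2.1.ne_zero⟩
    infer_instance
  refine (form_full p hp k {q : ℕ // q.Prime ∧ q ≠ p}
    (fun q => Multiplicative (ZMod (q : ℕ))) hu 𝒟 h𝒟 (Or.inr (hd hp)) α hα).1 ?_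
  intro ε hε
  obtain ⟨C, hC⟩ := hall ε hε
  exact ⟨C, fun X _ _ _ => hC X trivial⟩

end Pool.Agent.UBlocks
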