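import Pool.Agent.UBlocks.KB3
import Pool.Agent.UBlocks.PSL2

/-!
# Brauer's k(B) conjecture and wreath products of simple groups: the main theorem
-/

set_option autoImplicit false

namespace Pool.Agent.UBlocks

open MP_a15589_al Matrix

open scoped MatrixGroups

/-- `S` is a finite nonabelian simple group and the group algebra `k S` has two different block
idempotents whose defect groups are trivial. -/
structure TwoZero (k S : Type) [Field k] [Group S] : Prop where
  finite : Finite S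
  simple : IsSimpleGroup S
  nonabelian : ∃ a b : S, a * b ≠ b * a
  blocks : ∃ e₀ e₁ : MonoidAlgebra k S, IsBlock e₀ ∧ IsBlock e₁ ∧ e₀ ≠ e₁ ∧ IsDefect e₀ ⊥ ∧
    IsDefect e₁ ⊥

theorem exists_twoZero (p : ℕ) (hp : p.Prime) (k : Type) [Field k] [IsAlgClosed k] [CharP k p]
    (N : ℕ) : ∃ q : ℕ, N < q ∧ q.Prime ∧ TwoZero k PSL(2, ZMod q) := by
  obtain ⟨q, hq, hqp, h1, h2, h3⟩ := exists_psl p hp k N
  have : Fact q.Prime := ⟨hqp⟩
  exact ⟨q, hq, hqp, inferInstance, h1, h2, h3⟩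

theorem weak_iff_strong_simple (p : ℕ) (hp : p.Prime) (k : Type) [Field k] [IsAlgClosed k]
    [CharP k p] (S : Type) [Group S] (hS : TwoZero k S)
    (I : Type) (P : I → Type) [∀ i, Group (P i)] [∀ i, Finite (P i)] [∀ i, IsSimpleGroup (P i)]
    (hP : ∀ (G : Type) [Group G] [Finite G], ∃ i, ∃ f : G →* P i, Function.Injective f)
    (𝒟 : ∀ (H : Type) [Group H], Prop) (h𝒟 : ClosedClass 𝒟) (α : ℝ) (hα : 1 ≤ α) :
    WeakBound k (fun X _ => OneNormal X ∧ ∃ i, Nonempty (X ≃* RegularWreathProduct S (P i))) 𝒟 α ↔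
      StrongBound k 𝒟 α := by
  have := hS.finite
  have := hS.simple
  have := Fintype.ofFinite S
  have : ∀ i, Fintype (P i) := fun i => Fintype.ofFinite _
  obtain ⟨e₀, e₁, h0, h1, hne, hd0, hd1⟩ := hS.blocks
  refine weak_iff_strong_wr p hp k S e₀ e₁ h0 h1 hne hd0 hd1 I P (fun X _ => OneNormal X)
    (fun G _ _ => ?_) 𝒟 h𝒟 α hα
  obtain ⟨i, f, hf⟩ := hP G
  exact ⟨i, oneNormal_wreath S (P i) hS.nonabelian, f, hf⟩

end Pool.Agent.UBlocks
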