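import Mathlib

/-!
# Symmetric matrices with zero diagonal and zero row sums

The symmetric `n × n` matrices over `ℤ/r` with zero diagonal and zero row sums form an irreducible
module for the alternating group `A_n` if `n ≥ 8` and the odd prime `r` does not divide
`(n - 1) (n - 2)`.
-/

set_option autoImplicit false

namespace Pool.Agent.UBlocks

section Field

variable {n : ℕ} {F : Type*} [Field F]

/-- the alternating sum over a quadruple -/
def alt4 (h : Fin n → Fin n → F) (a b c d : Fin n) : F := h a c - h b c - h a d + h b d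

theorem exists_two (hn : 3 ≤ n) (i : Fin n) : ∃ j k : Fin n, j ≠ i ∧ k ≠ i ∧ j ≠ k := by
  classical
  have h1 : 1 < ((Finset.univ : Finset (Fin n)).erase i).card := by
    rw [Finset.card_erase_of_mem (Finset.mem_univ i), Finset.card_univ, Fintype.card_fin]
    omega
  obtain ⟨j, hj, k, hk, hjk⟩ := Finset.one_lt_card.1 h1
  exact ⟨j, k, (Finset.mem_erase.1 hj).1, (Finset.mem_erase.1 hk).1, hjk⟩

theorem exists_potential (hn : 3 ≤ n) (h2 : (2 : F) ≠ 0) {h : Fin n → Fin n → F}
    (hs : ∀ i j, h i j = h j i)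
    (h4 : ∀ a b c d, a ≠ b → a ≠ c → a ≠ d → b ≠ c → b ≠ d → c ≠ d → alt4 h a b c d = 0) :
    ∃ u : Fin n → F, ∀ i j, i ≠ j → h i j = u i + u j := by
  let T : Fin n → Fin n → Fin n → F := fun i j k => h i j + h i k - h j k
  have hT : ∀ i j k, T i j k = T i k j := fun i j k => by
    simp only [T]; rw [hs j k]; ring
  have key : ∀ i j k l, j ≠ i → k ≠ i → l ≠ i → j ≠ k → l ≠ k → T i j k = T i l k := by
    intro i j k l hj hk hl hjk hlk
    by_cases hjl : j = l
    · rw [hjl]
    · have := h4 i k j l hk.symm hj.symm hl.symm hjk.symm hlk.symm hjl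
      unfold alt4 at this
      simp only [T]
      rw [hs j k, hs l k]
      linear_combination this
  have key2 : ∀ i j k l m, j ≠ i → k ≠ i → l ≠ i → m ≠ i → j ≠ k → l ≠ m →
      T i j k = T i l m := by
    intro i j k l m hj hk hl hm hjk hlm
    by_cases hlk : l = k
    · subst hlk
      rw [key i j l m hj hk hm hjk (Ne.symm hlm), hT]
    · rw [key i j k l hj hk hl hjk hlk, hT, key i k l m hk hl hm (Ne.symm hlk) (Ne.symm hlm), hT]
  choose J K hJ hK hJK using fun i => exists_two hn i
  refine ⟨fun i => T i (J i) (K i) / 2, fun i j hij => ?_⟩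
  obtain ⟨k, hki, hkj⟩ : ∃ k : Fin n, k ≠ i ∧ k ≠ j := by
    by_cases h1 : J i = j
    · exact ⟨K i, hK i, by rw [← h1]; exact (hJK i).symm⟩
    · exact ⟨J i, hJ i, h1⟩
  have e1 := key2 i (J i) (K i) j k (hJ i) (hK i) (Ne.symm hij) hki (hJK i) (Ne.symm hkj)
  have e2 := key2 j (J j) (K j) i k (hJ j) (hK j) hij hkj (hJK j) (Ne.symm hki)
  simp only [e1, e2]
  simp only [T]
  rw [hs j i]
  field_simp
  ring

theorem potential_zero (hn1 : ((n - 1 : ℕ) : F) ≠ 0) (hn2 : ((n - 2 : ℕ) : F) ≠ 0)
    (h2 : (2 : F) ≠ 0) (hn : 2 ≤ n)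
    {A : Fin n → Fin n → F} (hd : ∀ i, A i i = 0) (hr : ∀ i, ∑ j, A i j = 0)
    {u : Fin n → F} (hu : ∀ i j, i ≠ j → A i j = u i + u j) : ∀ i j, A i j = 0 := by
  classical
  have c1 : ((n - 1 : ℕ) : F) = n - 1 := by rw [Nat.cast_sub (by omega), Nat.cast_one]
  have c2 : ((n - 2 : ℕ) : F) = n - 2 := by rw [Nat.cast_sub hn]; norm_num
  have h1 : ∀ i, ((n - 2 : ℕ) : F) * u i + ∑ j, u j = 0 := by
    intro i
    have e1 : ∑ j, A i j = ∑ j, (u i + u j) - (u i + u i) := by
      have e2 : ∀ j, A i j = (u i + u j) - if j = i then u i + u i else 0 := by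
        intro j
        by_cases hj : j = i
        · subst hj; rw [if_pos rfl, hd, sub_self]
        · rw [if_neg hj, sub_zero, hu i j (Ne.symm hj)]
      rw [Finset.sum_congr rfl fun j _ => e2 j, Finset.sum_sub_distrib, Finset.sum_ite_eq']
      simp
    rw [hr i, Finset.sum_add_distrib, Finset.sum_const, Finset.card_univ, Fintype.card_fin,
      nsmul_eq_mul] at e1
    rw [c2]
    linear_combination -e1
  have h3 : ∑ j, u j = 0 := by
    have e1 : ∑ i, (((n - 2 : ℕ) : F) * u i + ∑ j, u j) = 0 := by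
      rw [Finset.sum_congr rfl fun i _ => h1 i, Finset.sum_const_zero]
    rw [Finset.sum_add_distrib, ← Finset.mul_sum, Finset.sum_const, Finset.card_univ,
      Fintype.card_fin, nsmul_eq_mul, c2] at e1
    have e2 : 2 * ((n - 1 : ℕ) : F) * ∑ j, u j = 0 := by
      rw [c1]; linear_combination e1
    exact (mul_eq_zero.1 e2).resolve_left (mul_ne_zero h2 hn1)
  have h4 : ∀ i, u i = 0 := by
    intro i
    have := h1 i
    rw [h3, add_zero] at this
    exact (mul_eq_zero.1 this).resolve_left hn2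
  intro i j
  by_cases hij : i = j
  · rw [hij, hd]
  · rw [hu i j hij, h4, h4, add_zero]

end Field

end Pool.Agent.UBlocks
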