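import Pool.Agent.UBlocks.Alg

/-!
# Tensor products inside group algebras

`τ` is a homomorphism from a finite power `I → S` of a finite group `S` to a group `X`.  For
elements `a i` of `R S` the element `tens τ a` of `R X` is the image of the tensor product of the
elements `a i`.
-/

set_option autoImplicit false

namespace Pool.Agent.UBlocks

open MonoidAlgebra

theorem coeff_mul' {R S : Type*} [CommRing R] [Group S] [Fintype S] (a b : MonoidAlgebra R S)
    (h : S) : (a * b).coeff h = ∑ s, a.coeff s * b.coeff (s⁻¹ * h) := by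
  conv_lhs => rw [eq_sum_dl a, Finset.sum_mul]
  rw [coeff_sum, Finset.sum_apply']
  refine Finset.sum_congr rfl fun s _ => ?_
  rw [smul_mul_assoc, coeff_smul, Finsupp.smul_apply, coeff_dl_mul, smul_eq_mul]

variable {R S I X : Type*} [CommRing R] [Group S] [Fintype S] [Fintype I] [DecidableEq I]
  [Group X] (τ : (I → S) →* X)

/-- the image of the tensor product of the elements `a i` -/
noncomputable def tens (a : I → MonoidAlgebra R S) : MonoidAlgebra R X :=
  ∑ f : I → S, (∏ i, (a i).coeff (f i)) • dl R (τ f)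

theorem tens_mul (a b : I → MonoidAlgebra R S) :
    tens τ a * tens τ b = tens τ (fun i => a i * b i) := by
  unfold tens
  have h1 : ∀ h : I → S, (∏ i, (a i * b i).coeff (h i)) =
      ∑ f : I → S, ∏ i, (a i).coeff (f i) * (b i).coeff ((f i)⁻¹ * h i) := by
    intro h
    simp only [coeff_mul']
    rw [Finset.prod_univ_sum, Fintype.piFinset_univ]
  simp only [h1, Finset.sum_smul]
  rw [Finset.sum_mul, Finset.sum_comm]
  refine Finset.sum_congr rfl fun f _ => ?_
  rw [Finset.mul_sum]
  conv_rhs => rw [← Equiv.sum_comp (Equiv.mulLeft f)]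
  refine Finset.sum_congr rfl fun g _ => ?_
  rw [smul_mul_smul_comm, ← dl_mul, ← map_mul, Finset.prod_mul_distrib]
  simp

theorem cj_tens (f : I → S) (a : I → MonoidAlgebra R S) :
    cj (τ f) (tens τ a) = tens τ (fun i => cj (f i) (a i)) := by
  unfold tens
  rw [cj_sum, ← Equiv.sum_comp (MulAut.conj f).toEquiv
    (fun h => (∏ i, (cj (f i) (a i)).coeff (h i)) • dl R (τ h))]
  refine Finset.sum_congr rfl fun g _ => ?_
  rw [cj_smul]
  congr 1
  · refine Finset.prod_congr rfl fun i _ => ?_
    rw [coeff_cj]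
    congr 1
    simp [mul_assoc]
  · unfold cj
    rw [← dl_mul, ← dl_mul, ← map_inv, ← map_mul, ← map_mul]
    rfl

theorem cj_perm {x : X} {ρ : Equiv.Perm I} (hx : ∀ f, x * τ f * x⁻¹ = τ (fun i => f (ρ.symm i)))
    (a : I → MonoidAlgebra R S) : cj x (tens τ a) = tens τ (fun i => a (ρ.symm i)) := by
  unfold tens
  rw [cj_sum, ← Equiv.sum_comp (Equiv.arrowCongr ρ (Equiv.refl S))
    (fun h => (∏ i, (a (ρ.symm i)).coeff (h i)) • dl R (τ h))]
  refine Finset.sum_congr rfl fun g _ => ?_
  rw [cj_smul]
  congr 1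
  · rw [← Equiv.prod_comp ρ.symm]
    rfl
  · unfold cj
    rw [← dl_mul, ← dl_mul, hx]
    rfl

theorem tens_smul (c : I → R) (a : I → MonoidAlgebra R S) :
    tens τ (fun i => c i • a i) = (∏ i, c i) • tens τ a := by
  unfold tens
  rw [Finset.smul_sum]
  refine Finset.sum_congr rfl fun f _ => ?_
  rw [smul_smul, ← Finset.prod_mul_distrib]
  rfl

theorem tens_sum {T : Type*} [Fintype T] (F : I → T → MonoidAlgebra R S) :
    tens τ (fun i => ∑ t, F i t) = ∑ p : I → T, tens τ (fun i => F i (p i)) := by
  unfold tens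
  rw [Finset.sum_comm]
  refine Finset.sum_congr rfl fun f _ => ?_
  rw [← Finset.sum_smul]
  congr 1
  simp only [coeff_sum, Finset.sum_apply']
  rw [Finset.prod_univ_sum, Fintype.piFinset_univ]

theorem tens_zero {a : I → MonoidAlgebra R S} {i : I} (hi : a i = 0) : tens τ a = 0 := by
  unfold tens
  refine Finset.sum_eq_zero fun f _ => ?_
  rw [Finset.prod_eq_zero (Finset.mem_univ i), zero_smul]
  rw [hi]
  rfl

theorem tens_dl (f : I → S) : tens τ (fun i => dl R (f i)) = dl R (τ f) := by
  classical
  unfold tens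
  rw [Finset.sum_eq_single f]
  · have : (∏ i, (dl R (f i)).coeff (f i)) = 1 :=
      Finset.prod_eq_one fun i _ => by rw [coeff_dl, if_pos rfl]
    rw [this, one_smul]
  · intro g _ hg
    have : ∃ i, f i ≠ g i := by
      by_contra hcon
      push Not at hcon
      exact hg (funext fun i => (hcon i).symm)
    obtain ⟨i, hi⟩ := this
    rw [Finset.prod_eq_zero (Finset.mem_univ i) (by rw [coeff_dl, if_neg hi]), zero_smul]
  · intro h; exact absurd (Finset.mem_univ _) h

theorem coeff_tens (hτ : Function.Injective τ) (a : I → MonoidAlgebra R S) (f : I → S) :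
    (tens τ a).coeff (τ f) = ∏ i, (a i).coeff (f i) := by
  classical
  unfold tens
  rw [coeff_sum, Finset.sum_apply', Finset.sum_eq_single f]
  · rw [coeff_smul, Finsupp.smul_apply, coeff_dl, if_pos rfl, smul_eq_mul, mul_one]
  · intro g _ hg
    rw [coeff_smul, Finsupp.smul_apply, coeff_dl, if_neg fun h => hg (hτ h), smul_zero]
  · intro h; exact absurd (Finset.mem_univ _) h

theorem coeff_tens_zero (a : I → MonoidAlgebra R S) {x : X} (hx : ∀ f, τ f ≠ x) :
    (tens τ a).coeff x = 0 := by
  classical
  unfold tens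
  rw [coeff_sum, Finset.sum_apply']
  refine Finset.sum_eq_zero fun g _ => ?_
  rw [coeff_smul, Finsupp.smul_apply, coeff_dl, if_neg (hx g), smul_zero]

end Pool.Agent.UBlocks
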