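import Pool.Agent.UBlocks.TraceUp

/-!
# Relative traces under the transfer: from `H` to `G`
-/

set_option autoImplicit false

namespace Pool.Agent.UBlocks

open MonoidAlgebra

namespace Cliff

variable {k V G H : Type*} [Field k] [CommGroup V] [Group G] [Group H]
  [Fintype V] (C : Cliff k V G H)

/-- the image in `G` of the stabiliser in `T` of a point `y` -/
def stG {Q : Subgroup H} (y : H ⧸ Q) : Subgroup G where
  carrier := {g | ∃ v, (C.τ v * C.σ g) • y = y}
  one_mem' := ⟨1, by simp⟩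
  mul_mem' := by
    rintro g g' ⟨v, hv⟩ ⟨v', hv'⟩
    refine ⟨v * C.act g v', ?_⟩
    have h1 : C.τ (v * C.act g v') * C.σ (g * g') = (C.τ v * C.σ g) * (C.τ v' * C.σ g') := by
      rw [map_mul, map_mul]
      calc C.τ v * C.τ (C.act g v') * (C.σ g * C.σ g') =
          C.τ v * (C.τ (C.act g v') * C.σ g) * C.σ g' := by group
        _ = _ := by rw [← C.comm]; group
    rw [h1, mul_smul, hv', hv]
  inv_mem' := by
    rintro g ⟨v, hv⟩
    refine ⟨C.act g⁻¹ v⁻¹, ?_⟩
    have h1 : C.τ (C.act g⁻¹ v⁻¹) * C.σ g⁻¹ = (C.τ v * C.σ g)⁻¹ := by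
      rw [← C.comm, mul_inv_rev, map_inv, map_inv]
    rw [h1]
    conv_lhs => rw [← hv]
    rw [inv_smul_smul]

theorem mem_of_fix {Q : Subgroup H} {y : H ⧸ Q} {t : H} (ht : t • y = y) :
    (Quotient.out y)⁻¹ * t * Quotient.out y ∈ Q := by
  have h3 : ((Quotient.out y : H) : H ⧸ Q) = ((t * Quotient.out y : H) : H ⧸ Q) := by
    rw [QuotientGroup.out_eq']
    conv_lhs => rw [← ht, ← QuotientGroup.out_eq' y]
    rfl
  rw [QuotientGroup.eq] at h3
  rw [mul_assoc]
  exact h3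

theorem card_stG [Finite H] {Q : Subgroup H} (y : H ⧸ Q) : Nat.card (C.stG y) ≤ Nat.card Q := by
  classical
  have hv : ∀ g : C.stG y, ∃ v, (C.τ v * C.σ (g : G)) • y = y := fun g => g.2
  choose f hf using hv
  have hmem : ∀ g : C.stG y,
      (Quotient.out y)⁻¹ * (C.τ (f g) * C.σ (g : G)) * Quotient.out y ∈ Q := fun g =>
    mem_of_fix (hf g)
  refine Nat.card_le_card_of_injective (fun g => (⟨_, hmem g⟩ : Q)) ?_
  intro g g' h
  have h1 := congrArg Subtype.val h
  simp only [mul_left_inj, mul_right_inj] at h1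
  exact Subtype.ext (C.mul_inj h1).2

variable [Fintype G] [Fintype H]

theorem orbit_bij {Q : Subgroup H} (y : H ⧸ Q) :
    Set.BijOn (fun t : (G ⧸ C.stG y) × (V ⧸ (MulAction.stabilizer H y).comap C.τ) =>
      (C.σ (Quotient.out t.1) * C.τ (Quotient.out t.2)) • y) Set.univ
      {x | ∃ t ∈ C.T, t • y = x} := by
  refine ⟨?_, ?_, ?_⟩
  · rintro ⟨q, j⟩ _
    exact ⟨_, C.T.mul_mem (C.sigma_mem _) (C.tau_mem _), rfl⟩
  · rintro ⟨q, j⟩ _ ⟨q', j'⟩ _ h
    dsimp only at h
    have h1 : ((C.σ (Quotient.out q') * C.τ (Quotient.out j'))⁻¹ *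
        (C.σ (Quotient.out q) * C.τ (Quotient.out j))) • y = y := by
      rw [mul_smul, h, inv_smul_smul]
    have h2 : (C.σ (Quotient.out q') * C.τ (Quotient.out j'))⁻¹ *
        (C.σ (Quotient.out q) * C.τ (Quotient.out j)) =
        C.τ ((Quotient.out j')⁻¹ * C.act ((Quotient.out q')⁻¹ * Quotient.out q) (Quotient.out j)) *
          C.σ ((Quotient.out q')⁻¹ * Quotient.out q) := by
      rw [map_mul C.τ, mul_assoc (C.τ _) _ (C.σ _), ← C.comm]
      rw [map_mul C.σ, map_inv, map_inv]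
      group
    have h3 : (Quotient.out q')⁻¹ * Quotient.out q ∈ C.stG y := ⟨_, by rw [← h2]; exact h1⟩
    rw [← QuotientGroup.eq, QuotientGroup.out_eq', QuotientGroup.out_eq'] at h3
    subst h3
    have h4 : (Quotient.out j')⁻¹ * Quotient.out j ∈ (MulAction.stabilizer H y).comap C.τ := by
      rw [Subgroup.mem_comap, MulAction.mem_stabilizer_iff, map_mul, map_inv]
      have h5 : (C.τ (Quotient.out j'))⁻¹ * C.τ (Quotient.out j) =
          (C.σ (Quotient.out q') * C.τ (Quotient.out j'))⁻¹ *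
        (C.σ (Quotient.out q') * C.τ (Quotient.out j)) := by group
      rw [h5]
      exact h1
    rw [← QuotientGroup.eq, QuotientGroup.out_eq', QuotientGroup.out_eq'] at h4
    rw [h4]
  · rintro x ⟨t, ⟨v, g, rfl⟩, rfl⟩
    -- `g = out q * s`
    have h2 : (Quotient.out (g : G ⧸ C.stG y))⁻¹ * g ∈ C.stG y := by
      rw [← QuotientGroup.eq, QuotientGroup.out_eq']
    obtain ⟨w, hw⟩ := h2
    set g0 := Quotient.out (g : G ⧸ C.stG y) with hg0
    -- `τ v σ g y = τ v σ g0 (τ w)⁻¹ y`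
    have h3 : C.σ (g0⁻¹ * g) • y = (C.τ w)⁻¹ • y := by
      conv_rhs => rw [← hw]
      rw [mul_smul, inv_smul_smul]
    have h4 : (C.τ v * C.σ g) • y = (C.τ v * C.σ g0 * (C.τ w)⁻¹) • y := by
      have h5 : C.τ v * C.σ g = (C.τ v * C.σ g0) * C.σ (g0⁻¹ * g) := by
        rw [map_mul, map_inv]; group
      rw [h5, mul_smul, h3, ← mul_smul]
    have h6 : C.τ v * C.σ g0 = C.σ g0 * C.τ (C.act g0⁻¹ v) := by
      have h7 := C.comm g0⁻¹ v
      rw [map_inv] at h7
      have h8 : C.τ (C.act g0⁻¹ v) = (C.σ g0)⁻¹ * C.τ v * C.σ g0 := by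
        rw [h7]; group
      rw [h8]; group
    have h9 : (C.τ v * C.σ g) • y = (C.σ g0 * C.τ (C.act g0⁻¹ v * w⁻¹)) • y := by
      rw [h4, h6, map_mul, map_inv, mul_assoc]
    set v1 := C.act g0⁻¹ v * w⁻¹ with hv1
    have h10 : (Quotient.out (v1 : V ⧸ (MulAction.stabilizer H y).comap C.τ))⁻¹ * v1 ∈
        (MulAction.stabilizer H y).comap C.τ := by
      rw [← QuotientGroup.eq, QuotientGroup.out_eq']
    rw [Subgroup.mem_comap, MulAction.mem_stabilizer_iff, map_mul, map_inv] at h10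
    refine ⟨((g : G ⧸ C.stG y), (v1 : V ⧸ (MulAction.stabilizer H y).comap C.τ)),
      Set.mem_univ _, ?_⟩
    dsimp only
    rw [h9, ← hg0, mul_smul, mul_smul]
    congr 1
    rw [mul_smul] at h10
    exact (inv_smul_eq_iff.1 h10).symm

open MP_a15589_al in
theorem trFrom_down [IsAlgClosed k] [Fintype (H ⧸ C.T)] [DecidableEq (H ⧸ C.T)]
    {b : MonoidAlgebra k G} (hb : IsBlk b) {Q : Subgroup H} (h : TrFrom (C.up b) Q) :
    ∃ Q' : Subgroup G, TrFrom b Q' ∧ Nat.card Q' ≤ Nat.card Q := by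
  classical
  have : Fintype (H ⧸ Q) := Fintype.ofFinite _
  rw [trFrom_iff] at h
  obtain ⟨A, hA, hbA⟩ := h
  let F : H ⧸ Q → MonoidAlgebra k H := fun x => cj (Quotient.out x) A
  have hF : ∀ (g : H) (x : H ⧸ Q), F (g • x) = cj g (F x) := by
    intro g x
    simp only [F]
    rw [cj_cj]
    have : g • x = ((g * Quotient.out x : H) : H ⧸ Q) := by
      conv_lhs => rw [← QuotientGroup.out_eq' x]
      rfl
    rw [this, cj_out hA]
  let u : H ⧸ Q → MonoidAlgebra k G := fun x => C.pr (F x)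
  have hu : ∀ x, C.sig (u x) * C.e = C.e * F x * C.e := fun x => (C.e_mul_e _).symm
  have he1 : ∀ g, cj (C.σ g) C.e = C.e := fun g => C.cj_T_e (C.sigma_mem g)
  have he2 : ∀ v, cj (C.τ v) C.e = C.e := fun v => C.cj_T_e (C.tau_mem v)
  have hu1 : ∀ g x, u (C.σ g • x) = cj g (u x) := by
    intro g x
    apply C.sig_e_inj
    rw [hu, hF, ← cj_sigma_sig, hu, cj_mul, cj_mul, he1]
  have hu2 : ∀ v x, u (C.τ v • x) = u x := by
    intro v x
    apply C.sig_e_inj
    rw [← C.cj_tau_sig v (u x), hu, hu, hF, cj_mul, cj_mul, he2]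
  have hbu : b = ∑ x, u x := by
    apply C.sig_e_inj
    rw [map_sum, Finset.sum_mul]
    simp only [hu]
    rw [← Finset.sum_mul, ← Finset.mul_sum]
    have h1 : ∑ x, F x = C.up b := hbA.symm
    rw [h1, C.e_up hb.central, mul_assoc, C.e_idem]
  let Z : MulAction.orbitRel.Quotient C.T (H ⧸ Q) → MonoidAlgebra k G := fun ω =>
    ∑ x ∈ Finset.univ.filter (fun x : H ⧸ Q => Quotient.mk _ x = ω), u x
  have hZ : ∀ ω g, cj g (Z ω) = Z ω := by
    intro ω g
    simp only [Z]
    rw [cj_sum]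
    refine Finset.sum_bij (fun x _ => C.σ g • x) ?_ ?_ ?_ ?_
    · intro x hx
      rw [Finset.mem_filter] at hx ⊢
      refine ⟨Finset.mem_univ _, ?_⟩
      rw [← hx.2]
      apply Quotient.sound
      exact ⟨⟨C.σ g, C.sigma_mem g⟩, rfl⟩
    · intro x _ y _ hxy
      exact MulAction.injective (C.σ g) hxy
    · intro y hy
      rw [Finset.mem_filter] at hy
      refine ⟨(C.σ g)⁻¹ • y, ?_, by simp⟩
      rw [Finset.mem_filter]
      refine ⟨Finset.mem_univ _, ?_⟩
      rw [← hy.2]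
      apply Quotient.sound
      exact ⟨⟨(C.σ g)⁻¹, C.T.inv_mem (C.sigma_mem g)⟩, rfl⟩
    · intro x _
      exact (hu1 g x).symm
  have : Fintype (MulAction.orbitRel.Quotient C.T (H ⧸ Q)) := Fintype.ofFinite _
  have hbZ : b = ∑ ω, Z ω := by
    rw [hbu]
    simp only [Z]
    rw [Finset.sum_fiberwise]
  have hcomm := CZ_comm (k := k) (le_refl (⊤ : Subgroup G))
  have hcen : ∀ z : MonoidAlgebra k G, (∀ g, cj g z = z) → z ∈ CZ k (⊤ : Subgroup G) ⊤ := by
    intro z hz
    rw [mem_CZ']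
    exact ⟨fun g hg => absurd (Subgroup.mem_top g) hg, fun m _ => hz m⟩
  have hbcj : ∀ g, cj g b = b := (central_iff b).1 hb.central
  have hprimG : IsPrim (CZ k (⊤ : Subgroup G) ⊤) b := by
    refine ⟨hcen b hbcj, hb.idem, hb.ne_zero, ?_⟩
    intro f hf hff
    exact hb.prim f hff (fun x => central_comm hf x)
  obtain ⟨ω, -, hω⟩ := not_nilpotent_of_sum hcomm Finset.univ (fun ω => Z ω * b)
    (fun ω _ => mul_mem (hcen _ (hZ ω)) hprimG.mem)
    (by
      rw [← Finset.sum_mul, ← hbZ, hb.idem]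
      exact idem_pow hb.idem hb.ne_zero)
  obtain ⟨w, hw, hwb⟩ := hprimG.unit hcomm (hcen _ (hZ ω)) hω
  have hwcj : ∀ g, cj g w = w := fun g => (mem_CZ'.1 hw).2 g (Subgroup.mem_top g)
  obtain ⟨y, hy⟩ := Quotient.exists_rep ω
  have : Fintype (G ⧸ C.stG y) := Fintype.ofFinite _
  have : Fintype (V ⧸ (MulAction.stabilizer H y).comap C.τ) := Fintype.ofFinite _
  have hZy : Z ω = ∑ q : G ⧸ C.stG y, cj (Quotient.out q)
      (((Fintype.card (V ⧸ (MulAction.stabilizer H y).comap C.τ) : ℕ) : k) • u y) := by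
    have h1 : Z ω = ∑ t : (G ⧸ C.stG y) × (V ⧸ (MulAction.stabilizer H y).comap C.τ),
        u ((C.σ (Quotient.out t.1) * C.τ (Quotient.out t.2)) • y) := by
      simp only [Z]
      symm
      have hset : (Finset.univ.filter (fun x : H ⧸ Q => Quotient.mk _ x = ω) : Set (H ⧸ Q)) =
          {x | ∃ t ∈ C.T, t • y = x} := by
        ext x
        simp only [Finset.coe_filter, Finset.mem_univ, true_and, Set.mem_ofPred_eq]
        rw [← hy]
        constructor
        · intro hx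
          obtain ⟨m, hm⟩ := Quotient.exact hx
          exact ⟨m, m.2, hm⟩
        · rintro ⟨t, ht, hx⟩
          apply Quotient.sound
          exact ⟨⟨t, ht⟩, hx⟩
      have hbij := C.orbit_bij y
      rw [← hset] at hbij
      refine Finset.sum_bij (fun t _ => (C.σ (Quotient.out t.1) * C.τ (Quotient.out t.2)) • y)
        ?_ ?_ ?_ ?_
      · intro t _
        exact hbij.1 (Set.mem_univ t)
      · intro t _ t' _ htt
        exact hbij.2.1 (Set.mem_univ t) (Set.mem_univ t') htt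
      · intro x hx
        obtain ⟨t, -, ht⟩ := hbij.2.2 hx
        exact ⟨t, Finset.mem_univ _, ht⟩
      · intro t _
        rfl
    rw [h1, Fintype.sum_prod_type]
    refine Finset.sum_congr rfl fun q _ => ?_
    have h2 : ∀ j : V ⧸ (MulAction.stabilizer H y).comap C.τ,
        u ((C.σ (Quotient.out q) * C.τ (Quotient.out j)) • y) = cj (Quotient.out q) (u y) := by
      intro j
      rw [mul_smul, hu1, hu2]
    simp only [h2]
    rw [Finset.sum_const, Finset.card_univ, ← Nat.cast_smul_eq_nsmul k, cj_smul]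
  have hyinv : ∀ g ∈ C.stG y, cj g (u y) = u y := by
    rintro g ⟨v, hv⟩
    conv_rhs => rw [← hv, mul_smul, hu2, hu1]
  refine ⟨C.stG y, ?_, C.card_stG y⟩
  rw [trFrom_iff]
  set n : k := ((Fintype.card (V ⧸ (MulAction.stabilizer H y).comap C.τ) : ℕ) : k) with hn
  refine ⟨n • u y * (w * b), ?_, ?_⟩
  · intro g hg
    rw [cj_mul, cj_smul, hyinv g hg, cj_mul, hwcj, hbcj]
  · unfold tr
    conv_lhs => rw [← hwb, mul_assoc, hZy, Finset.sum_mul]
    refine Finset.sum_congr rfl fun q _ => ?_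
    rw [cj_mul _ (n • u y), cj_mul _ w, hwcj, hbcj]

end Cliff

end Pool.Agent.UBlocks
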